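import Pool.Agent.Gen.F5.X123C1Dm4.S000
import Pool.Agent.Gen.F5.X123C1Dm4.S001
import Pool.Agent.Gen.F5.X123C1Dm4.S002

set_option autoImplicit false
set_option maxRecDepth 100000

namespace Pool.Agent.Gen.F5.X123C1Dm4

open Pool.Agent.Helper72.F5

def n0 : Cl (O (nat_lit 4)) (R (nat_lit 135377))
    (p (nat_lit 0x111) (nat_lit 1) (p (nat_lit 0xd1) (nat_lit 1) (p (nat_lit 0xb000c) (nat_lit 0) (p (nat_lit 0xb0004) (nat_lit 0) (p (nat_lit 0x200014) (nat_lit 1) (p (nat_lit 0xc9) (nat_lit 0) (p (nat_lit 0xc1) (nat_lit 0) (p (nat_lit 0x81) (nat_lit 1) (p (nat_lit 0x101) (nat_lit 1) (p (nat_lit 0x119) (nat_lit 0) (p (nat_lit 0xd1) (nat_lit 0) (p (nat_lit 0x89) (nat_lit 0) (p (nat_lit 0x41) (nat_lit 0) (p (nat_lit 0x109080787089a) (nat_lit 0) (p (nat_lit 0x108878706861a) (nat_lit 0) (p (nat_lit 0x8000000000000080686078a) (nat_lit 0) (p (nat_lit 0x8000000000000078605850a) (nat_lit 0) (p (nat_lit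 0x10605850682) (nat_lit 0) (p (nat_lit 0x10585048402) (nat_lit 0) (p (nat_lit 0x16000c) (nat_lit 0) (p (nat_lit 0x160004) (nat_lit 0) (p (nat_lit 0x60592) (nat_lit 0) (p (nat_lit 0x48512) (nat_lit 0) (p (nat_lit 0x50392) (nat_lit 0) (p (nat_lit 0x38312) (nat_lit 0) (p (nat_lit 0x40212) (nat_lit 0) (p (nat_lit 0x28192) (nat_lit 0) (p (nat_lit 0x30092) (nat_lit 0) (p (nat_lit 0x18012) (nat_lit 0) pn))))))))))))))))))))))))))))) :=
  Cl.node (nat_lit 0x300014) (nat_lit 2) (by decide +kernel) (ClAll.succ (ClAll.succ ClAll.zero s10) s11)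

def n1 : Cl (O (nat_lit 4)) (R (nat_lit 135377))
    (p (nat_lit 0xd1) (nat_lit 1) (p (nat_lit 0xb000c) (nat_lit 0) (p (nat_lit 0xb0004) (nat_lit 0) (p (nat_lit 0x200014) (nat_lit 1) (p (nat_lit 0xc9) (nat_lit 0) (p (nat_lit 0xc1) (nat_lit 0) (p (nat_lit 0x81) (nat_lit 1) (p (nat_lit 0x101) (nat_lit 1) (p (nat_lit 0x119) (nat_lit 0) (p (nat_lit 0xd1) (nat_lit 0) (p (nat_lit 0x89) (nat_lit 0) (p (nat_lit 0x41) (nat_lit 0) (p (nat_lit 0x109080787089a) (nat_lit 0) (p (nat_lit 0x108878706861a) (nat_lit 0) (p (nat_lit 0x8000000000000080686078a) (nat_lit 0) (p (nat_lit 0x8000000000000078605850a) (nat_lit 0) (p (nat_lit 0x10605850682) (nat_lit 0) (p (nat_lit 0x10585048402) (nat_lit 0) (p (nat_lit 0x16000c) (nat_lit 0) (p (nat_lit 0x160004) (nat_lit 0) (p (nat_lit 0x60592) (nat_lit 0) (p (nat_lit 0x48512) (nat_lit 0) (p (nat_lit 0x50392) (nat_lit 0) (p (nat_lit 0x38312) (nat_lit 0) (p (nat_lit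 0x40212) (nat_lit 0) (p (nat_lit 0x28192) (nat_lit 0) (p (nat_lit 0x30092) (nat_lit 0) (p (nat_lit 0x18012) (nat_lit 0) pn)))))))))))))))))))))))))))) :=
  Cl.node (nat_lit 0x111) (nat_lit 2) (by decide +kernel) (ClAll.succ (ClAll.succ ClAll.zero s9) n0)

def n2 : Cl (O (nat_lit 4)) (R (nat_lit 135377))
    (p (nat_lit 0xb000c) (nat_lit 0) (p (nat_lit 0xb0004) (nat_lit 0) (p (nat_lit 0x200014) (nat_lit 1) (p (nat_lit 0xc9) (nat_lit 0) (p (nat_lit 0xc1) (nat_lit 0) (p (nat_lit 0x81) (nat_lit 1) (p (nat_lit 0x101) (nat_lit 1) (p (nat_lit 0x119) (nat_lit 0) (p (nat_lit 0xd1) (nat_lit 0) (p (nat_lit 0x89) (nat_lit 0) (p (nat_lit 0x41) (nat_lit 0) (p (nat_lit 0x109080787089a) (nat_lit 0) (p (nat_lit 0x108878706861a) (nat_lit 0) (p (nat_lit 0x8000000000000080686078a) (nat_lit 0) (p (nat_lit 0x8000000000000078605850a) (nat_lit 0) (p (nat_lit 0x10605850682) (nat_lit 0) (p (nat_lit 0x10585048402)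 (nat_lit 0) (p (nat_lit 0x16000c) (nat_lit 0) (p (nat_lit 0x160004) (nat_lit 0) (p (nat_lit 0x60592) (nat_lit 0) (p (nat_lit 0x48512) (nat_lit 0) (p (nat_lit 0x50392) (nat_lit 0) (p (nat_lit 0x38312) (nat_lit 0) (p (nat_lit 0x40212) (nat_lit 0) (p (nat_lit 0x28192) (nat_lit 0) (p (nat_lit 0x30092) (nat_lit 0) (p (nat_lit 0x18012) (nat_lit 0) pn))))))))))))))))))))))))))) :=
  Cl.node (nat_lit 0xd1) (nat_lit 2) (by decide +kernel) (ClAll.succ (ClAll.succ ClAll.zero s8) n1)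

def n3 : Cl (O (nat_lit 4)) (R (nat_lit 135377))
    (p (nat_lit 0xb000c) (nat_lit 0) (p (nat_lit 0xb0004) (nat_lit 0) (p (nat_lit 0x200014) (nat_lit 1) (p (nat_lit 0xc9) (nat_lit 1) (p (nat_lit 0xc1) (nat_lit 0) (p (nat_lit 0x81) (nat_lit 1) (p (nat_lit 0x101) (nat_lit 1) (p (nat_lit 0x119) (nat_lit 0) (p (nat_lit 0xd1) (nat_lit 0) (p (nat_lit 0x89) (nat_lit 0) (p (nat_lit 0x41) (nat_lit 0) (p (nat_lit 0x109080787089a) (nat_lit 0) (p (nat_lit 0x108878706861a) (nat_lit 0) (p (nat_lit 0x8000000000000080686078a) (nat_lit 0) (p (nat_lit 0x8000000000000078605850a) (nat_lit 0) (p (nat_lit 0x10605850682) (nat_lit 0) (p (nat_lit 0x10585048402) (nat_lit 0) (p (nat_lit 0x16000c) (nat_lit 0) (p (nat_lit 0x160004) (nat_lit 0) (p (nat_lit 0x60592) (nat_lit 0) (p (nat_lit 0x48512) (nat_lit 0) (p (nat_lit 0x50392) (nat_lit 0) (p (nat_lit 0x38312) (nat_lit 0) (p (nat_lit 0x40212) (nat_lit 0) (p (nat_lit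 0x28192) (nat_lit 0) (p (nat_lit 0x30092) (nat_lit 0) (p (nat_lit 0x18012) (nat_lit 0) pn))))))))))))))))))))))))))) :=
  Cl.node (nat_lit 0x109) (nat_lit 2) (by decide +kernel) (ClAll.succ (ClAll.succ ClAll.zero s17) s18)

def n4 : Cl (O (nat_lit 4)) (R (nat_lit 135377))
    (p (nat_lit 0x109) (nat_lit 1) (p (nat_lit 0xb000c) (nat_lit 0) (p (nat_lit 0xb0004) (nat_lit 0) (p (nat_lit 0x200014) (nat_lit 1) (p (nat_lit 0xc1) (nat_lit 1) (p (nat_lit 0x81) (nat_lit 1) (p (nat_lit 0x101) (nat_lit 1) (p (nat_lit 0x119) (nat_lit 0) (p (nat_lit 0xd1) (nat_lit 0) (p (nat_lit 0x89) (nat_lit 0) (p (nat_lit 0x41) (nat_lit 0) (p (nat_lit 0x109080787089a) (nat_lit 0) (p (nat_lit 0x108878706861a) (nat_lit 0) (p (nat_lit 0x8000000000000080686078a) (nat_lit 0) (p (nat_lit 0x8000000000000078605850a) (nat_lit 0) (p (nat_lit 0x10605850682) (nat_lit 0) (p (nat_lit 0x10585048402) (nat_lit 0) (p (nat_lit 0x16000c)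 (nat_lit 0) (p (nat_lit 0x160004) (nat_lit 0) (p (nat_lit 0x60592) (nat_lit 0) (p (nat_lit 0x48512) (nat_lit 0) (p (nat_lit 0x50392) (nat_lit 0) (p (nat_lit 0x38312) (nat_lit 0) (p (nat_lit 0x40212) (nat_lit 0) (p (nat_lit 0x28192) (nat_lit 0) (p (nat_lit 0x30092) (nat_lit 0) (p (nat_lit 0x18012) (nat_lit 0) pn))))))))))))))))))))))))))) :=
  Cl.node (nat_lit 0x41) (nat_lit 2) (by decide +kernel) (ClAll.succ (ClAll.succ ClAll.zero s23) s24)

def n5 : Cl (O (nat_lit 4)) (R (nat_lit 135377))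
    (p (nat_lit 0xb000c) (nat_lit 0) (p (nat_lit 0xb0004) (nat_lit 0) (p (nat_lit 0x200014) (nat_lit 1) (p (nat_lit 0x109) (nat_lit 0) (p (nat_lit 0x101) (nat_lit 0) (p (nat_lit 0x81) (nat_lit 1) (p (nat_lit 0xc1) (nat_lit 1) (p (nat_lit 0x119) (nat_lit 1) (p (nat_lit 0xd1) (nat_lit 0) (p (nat_lit 0x89) (nat_lit 0) (p (nat_lit 0x41) (nat_lit 0) (p (nat_lit 0x109080787089a) (nat_lit 0) (p (nat_lit 0x108878706861a) (nat_lit 0) (p (nat_lit 0x8000000000000080686078a) (nat_lit 0) (p (nat_lit 0x8000000000000078605850a) (nat_lit 0) (p (nat_lit 0x10605850682) (nat_lit 0) (p (nat_lit 0x10585048402) (nat_lit 0) (p (nat_lit 0x16000c) (nat_lit 0) (p (nat_lit 0x160004) (nat_lit 0) (p (nat_lit 0x60592) (nat_lit 0) (p (nat_lit 0x48512) (nat_lit 0) (p (nat_lit 0x50392) (nat_lit 0) (p (nat_lit 0x38312) (nat_lit 0) (p (nat_lit 0x40212) (nat_lit 0) (p (nat_lit 0x28192) (nat_lit 0) (p (nat_lit 0x30092) (nat_lit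 0) (p (nat_lit 0x18012) (nat_lit 0) pn))))))))))))))))))))))))))) :=
  Cl.node (nat_lit 0x111) (nat_lit 2) (by decide +kernel) (ClAll.succ (ClAll.succ ClAll.zero s35) s36)

def n6 : Cl (O (nat_lit 4)) (R (nat_lit 135377))
    (p (nat_lit 0xb000c) (nat_lit 0) (p (nat_lit 0xb0004) (nat_lit 0) (p (nat_lit 0x200014) (nat_lit 1) (p (nat_lit 0x109) (nat_lit 1) (p (nat_lit 0x101) (nat_lit 0) (p (nat_lit 0x81) (nat_lit 1) (p (nat_lit 0xc1) (nat_lit 1) (p (nat_lit 0x119) (nat_lit 1) (p (nat_lit 0xd1) (nat_lit 0) (p (nat_lit 0x89) (nat_lit 0) (p (nat_lit 0x41) (nat_lit 0) (p (nat_lit 0x109080787089a) (nat_lit 0) (p (nat_lit 0x108878706861a) (nat_lit 0) (p (nat_lit 0x8000000000000080686078a) (nat_lit 0) (p (nat_lit 0x8000000000000078605850a) (nat_lit 0) (p (nat_lit 0x10605850682) (nat_lit 0) (p (nat_lit 0x10585048402) (nat_lit 0) (p (nat_lit 0x16000c) (nat_lit 0) (p (nat_lit 0x160004) (nat_lit 0)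 (p (nat_lit 0x60592) (nat_lit 0) (p (nat_lit 0x48512) (nat_lit 0) (p (nat_lit 0x50392) (nat_lit 0) (p (nat_lit 0x38312) (nat_lit 0) (p (nat_lit 0x40212) (nat_lit 0) (p (nat_lit 0x28192) (nat_lit 0) (p (nat_lit 0x30092) (nat_lit 0) (p (nat_lit 0x18012) (nat_lit 0) pn))))))))))))))))))))))))))) :=
  Cl.node (nat_lit 0xc9) (nat_lit 2) (by decide +kernel) (ClAll.succ (ClAll.succ ClAll.zero s41) s42)

def n7 : Cl (O (nat_lit 4)) (R (nat_lit 135377))
    (p (nat_lit 0xc9) (nat_lit 1) (p (nat_lit 0xb000c) (nat_lit 0) (p (nat_lit 0xb0004) (nat_lit 0) (p (nat_lit 0x200014) (nat_lit 1) (p (nat_lit 0x101) (nat_lit 1) (p (nat_lit 0x81) (nat_lit 1) (p (nat_lit 0xc1) (nat_lit 1) (p (nat_lit 0x119) (nat_lit 1) (p (nat_lit 0xd1) (nat_lit 0) (p (nat_lit 0x89) (nat_lit 0) (p (nat_lit 0x41) (nat_lit 0) (p (nat_lit 0x109080787089a) (nat_lit 0) (p (nat_lit 0x108878706861a) (nat_lit 0) (p (nat_lit 0x8000000000000080686078a)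 (nat_lit 0) (p (nat_lit 0x8000000000000078605850a) (nat_lit 0) (p (nat_lit 0x10605850682) (nat_lit 0) (p (nat_lit 0x10585048402) (nat_lit 0) (p (nat_lit 0x16000c) (nat_lit 0) (p (nat_lit 0x160004) (nat_lit 0) (p (nat_lit 0x60592) (nat_lit 0) (p (nat_lit 0x48512) (nat_lit 0) (p (nat_lit 0x50392) (nat_lit 0) (p (nat_lit 0x38312) (nat_lit 0) (p (nat_lit 0x40212) (nat_lit 0) (p (nat_lit 0x28192) (nat_lit 0) (p (nat_lit 0x30092) (nat_lit 0) (p (nat_lit 0x18012) (nat_lit 0) pn))))))))))))))))))))))))))) :=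
  Cl.node (nat_lit 0x41) (nat_lit 2) (by decide +kernel) (ClAll.succ (ClAll.succ ClAll.zero s49) s50)

def n8 : Cl (O (nat_lit 4)) (R (nat_lit 135377))
    (p (nat_lit 0xb000c) (nat_lit 0) (p (nat_lit 0xb0004) (nat_lit 0) (p (nat_lit 0x200014) (nat_lit 1) (p (nat_lit 0xc9) (nat_lit 0) (p (nat_lit 0x89) (nat_lit 1) (p (nat_lit 0x109) (nat_lit 1) (p (nat_lit 0x101) (nat_lit 0) (p (nat_lit 0x119) (nat_lit 0) (p (nat_lit 0xd1) (nat_lit 0) (p (nat_lit 0x81) (nat_lit 0) (p (nat_lit 0x41) (nat_lit 1) (p (nat_lit 0x109080787089a) (nat_lit 0) (p (nat_lit 0x108878706861a) (nat_lit 0) (p (nat_lit 0x8000000000000080686078a) (nat_lit 0) (p (nat_lit 0x8000000000000078605850a) (nat_lit 0) (p (nat_lit 0x10605850682) (nat_lit 0) (p (nat_lit 0x10585048402) (nat_lit 0) (p (nat_lit 0x16000c) (nat_lit 0) (p (nat_lit 0x160004) (nat_lit 0) (p (nat_lit 0x60592) (nat_lit 0) (p (nat_lit 0x48512) (nat_lit 0) (p (nat_lit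 0x50392) (nat_lit 0) (p (nat_lit 0x38312) (nat_lit 0) (p (nat_lit 0x40212) (nat_lit 0) (p (nat_lit 0x28192) (nat_lit 0) (p (nat_lit 0x30092) (nat_lit 0) (p (nat_lit 0x18012) (nat_lit 0) pn))))))))))))))))))))))))))) :=
  Cl.node (nat_lit 0xd1) (nat_lit 2) (by decide +kernel) (ClAll.succ (ClAll.succ ClAll.zero s99) s100)

def n9 : Cl (O (nat_lit 4)) (R (nat_lit 135377))
    (p (nat_lit 0xb000c) (nat_lit 0) (p (nat_lit 0xb0004) (nat_lit 0) (p (nat_lit 0x200014) (nat_lit 1) (p (nat_lit 0xc9) (nat_lit 1) (p (nat_lit 0x89) (nat_lit 1) (p (nat_lit 0xc1) (nat_lit 0) (p (nat_lit 0x101) (nat_lit 1) (p (nat_lit 0x119) (nat_lit 0) (p (nat_lit 0xd1) (nat_lit 0) (p (nat_lit 0x81) (nat_lit 0) (p (nat_lit 0x41) (nat_lit 1) (p (nat_lit 0x109080787089a) (nat_lit 0) (p (nat_lit 0x108878706861a) (nat_lit 0) (p (nat_lit 0x8000000000000080686078a) (nat_lit 0) (p (nat_lit 0x8000000000000078605850a) (nat_lit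 0) (p (nat_lit 0x10605850682) (nat_lit 0) (p (nat_lit 0x10585048402) (nat_lit 0) (p (nat_lit 0x16000c) (nat_lit 0) (p (nat_lit 0x160004) (nat_lit 0) (p (nat_lit 0x60592) (nat_lit 0) (p (nat_lit 0x48512) (nat_lit 0) (p (nat_lit 0x50392) (nat_lit 0) (p (nat_lit 0x38312) (nat_lit 0) (p (nat_lit 0x40212) (nat_lit 0) (p (nat_lit 0x28192) (nat_lit 0) (p (nat_lit 0x30092) (nat_lit 0) (p (nat_lit 0x18012) (nat_lit 0) pn))))))))))))))))))))))))))) :=
  Cl.node (nat_lit 0x109) (nat_lit 2) (by decide +kernel) (ClAll.succ (ClAll.succ ClAll.zero s108) s109)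

def n10 : Cl (O (nat_lit 4)) (R (nat_lit 135377))
    (p (nat_lit 0x109) (nat_lit 1) (p (nat_lit 0xb000c) (nat_lit 0) (p (nat_lit 0xb0004) (nat_lit 0) (p (nat_lit 0x200014) (nat_lit 1) (p (nat_lit 0x89) (nat_lit 1) (p (nat_lit 0xc1) (nat_lit 1) (p (nat_lit 0x101) (nat_lit 1) (p (nat_lit 0x119) (nat_lit 0) (p (nat_lit 0xd1) (nat_lit 0) (p (nat_lit 0x81) (nat_lit 0) (p (nat_lit 0x41) (nat_lit 1) (p (nat_lit 0x109080787089a) (nat_lit 0) (p (nat_lit 0x108878706861a) (nat_lit 0) (p (nat_lit 0x8000000000000080686078a) (nat_lit 0) (p (nat_lit 0x8000000000000078605850a) (nat_lit 0) (p (nat_lit 0x10605850682) (nat_lit 0) (p (nat_lit 0x10585048402) (nat_lit 0) (p (nat_lit 0x16000c) (nat_lit 0) (p (nat_lit 0x160004) (nat_lit 0) (p (nat_lit 0x60592) (nat_lit 0) (p (nat_lit 0x48512) (nat_lit 0) (p (nat_lit 0x50392) (nat_lit 0) (p (nat_lit 0x38312) (nat_lit 0) (p (nat_lit 0x40212) (nat_lit 0) (p (nat_lit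 0x28192) (nat_lit 0) (p (nat_lit 0x30092) (nat_lit 0) (p (nat_lit 0x18012) (nat_lit 0) pn))))))))))))))))))))))))))) :=
  Cl.node (nat_lit 0x41) (nat_lit 2) (by decide +kernel) (ClAll.succ (ClAll.succ ClAll.zero s115) s116)

def n11 : Cl (O (nat_lit 4)) (R (nat_lit 135377))
    (p (nat_lit 0xb000c) (nat_lit 0) (p (nat_lit 0xb0004) (nat_lit 0) (p (nat_lit 0x200014) (nat_lit 1) (p (nat_lit 0x109) (nat_lit 1) (p (nat_lit 0x89) (nat_lit 1) (p (nat_lit 0x101) (nat_lit 0) (p (nat_lit 0xc1) (nat_lit 1) (p (nat_lit 0x119) (nat_lit 1) (p (nat_lit 0xd1) (nat_lit 0) (p (nat_lit 0x81) (nat_lit 0) (p (nat_lit 0x41) (nat_lit 1) (p (nat_lit 0x109080787089a) (nat_lit 0) (p (nat_lit 0x108878706861a) (nat_lit 0) (p (nat_lit 0x8000000000000080686078a) (nat_lit 0) (p (nat_lit 0x8000000000000078605850a) (nat_lit 0) (p (nat_lit 0x10605850682) (nat_lit 0) (p (nat_lit 0x10585048402) (nat_lit 0) (p (nat_lit 0x16000c)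 (nat_lit 0) (p (nat_lit 0x160004) (nat_lit 0) (p (nat_lit 0x60592) (nat_lit 0) (p (nat_lit 0x48512) (nat_lit 0) (p (nat_lit 0x50392) (nat_lit 0) (p (nat_lit 0x38312) (nat_lit 0) (p (nat_lit 0x40212) (nat_lit 0) (p (nat_lit 0x28192) (nat_lit 0) (p (nat_lit 0x30092) (nat_lit 0) (p (nat_lit 0x18012) (nat_lit 0) pn))))))))))))))))))))))))))) :=
  Cl.node (nat_lit 0xc9) (nat_lit 2) (by decide +kernel) (ClAll.succ (ClAll.succ ClAll.zero s129) s130)

def n12 : Cl (O (nat_lit 4)) (R (nat_lit 135377))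
    (p (nat_lit 0xb0004) (nat_lit 0) (p (nat_lit 0x200014) (nat_lit 1) (p (nat_lit 0xc9) (nat_lit 0) (p (nat_lit 0xc1) (nat_lit 0) (p (nat_lit 0x81) (nat_lit 1) (p (nat_lit 0x101) (nat_lit 1) (p (nat_lit 0x119) (nat_lit 0) (p (nat_lit 0xd1) (nat_lit 0) (p (nat_lit 0x89) (nat_lit 0) (p (nat_lit 0x41) (nat_lit 0) (p (nat_lit 0x109080787089a) (nat_lit 0) (p (nat_lit 0x108878706861a) (nat_lit 0) (p (nat_lit 0x8000000000000080686078a) (nat_lit 0) (p (nat_lit 0x8000000000000078605850a) (nat_lit 0) (p (nat_lit 0x10605850682) (nat_lit 0) (p (nat_lit 0x10585048402) (nat_lit 0) (p (nat_lit 0x16000c) (nat_lit 0) (p (nat_lit 0x160004) (nat_lit 0) (p (nat_lit 0x60592) (nat_lit 0) (p (nat_lit 0x48512) (nat_lit 0) (p (nat_lit 0x50392) (nat_lit 0) (p (nat_lit 0x38312) (nat_lit 0) (p (nat_lit 0x40212) (nat_lit 0) (p (nat_lit 0x28192) (nat_lit 0) (p (nat_lit 0x30092) (nat_lit 0) (p (nat_lit 0x18012) (nat_lit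 0) pn)))))))))))))))))))))))))) :=
  Cl.node (nat_lit 0xb000c) (nat_lit 2) (by decide +kernel) (ClAll.succ (ClAll.succ ClAll.zero n2) s12)

def n13 : Cl (O (nat_lit 4)) (R (nat_lit 135377))
    (p (nat_lit 0xb0004) (nat_lit 0) (p (nat_lit 0x200014) (nat_lit 0) (p (nat_lit 0xc9) (nat_lit 1) (p (nat_lit 0xc1) (nat_lit 0) (p (nat_lit 0x81) (nat_lit 1) (p (nat_lit 0x101) (nat_lit 1) (p (nat_lit 0x119) (nat_lit 0) (p (nat_lit 0xd1) (nat_lit 0) (p (nat_lit 0x89) (nat_lit 0) (p (nat_lit 0x41) (nat_lit 0) (p (nat_lit 0x109080787089a) (nat_lit 0) (p (nat_lit 0x108878706861a) (nat_lit 0) (p (nat_lit 0x8000000000000080686078a) (nat_lit 0) (p (nat_lit 0x8000000000000078605850a) (nat_lit 0) (p (nat_lit 0x10605850682) (nat_lit 0) (p (nat_lit 0x10585048402) (nat_lit 0) (p (nat_lit 0x16000c) (nat_lit 0) (p (nat_lit 0x160004) (nat_lit 0) (p (nat_lit 0x60592) (nat_lit 0) (p (nat_lit 0x48512) (nat_lit 0)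 (p (nat_lit 0x50392) (nat_lit 0) (p (nat_lit 0x38312) (nat_lit 0) (p (nat_lit 0x40212) (nat_lit 0) (p (nat_lit 0x28192) (nat_lit 0) (p (nat_lit 0x30092) (nat_lit 0) (p (nat_lit 0x18012) (nat_lit 0) pn)))))))))))))))))))))))))) :=
  Cl.node (nat_lit 0xb000c) (nat_lit 2) (by decide +kernel) (ClAll.succ (ClAll.succ ClAll.zero s14) s15)

def n14 : Cl (O (nat_lit 4)) (R (nat_lit 135377))
    (p (nat_lit 0xb0004) (nat_lit 0) (p (nat_lit 0x200014) (nat_lit 1) (p (nat_lit 0xc9) (nat_lit 1) (p (nat_lit 0xc1) (nat_lit 0) (p (nat_lit 0x81) (nat_lit 1) (p (nat_lit 0x101) (nat_lit 1) (p (nat_lit 0x119) (nat_lit 0) (p (nat_lit 0xd1) (nat_lit 0) (p (nat_lit 0x89) (nat_lit 0) (p (nat_lit 0x41) (nat_lit 0) (p (nat_lit 0x109080787089a) (nat_lit 0) (p (nat_lit 0x108878706861a) (nat_lit 0) (p (nat_lit 0x8000000000000080686078a) (nat_lit 0) (p (nat_lit 0x8000000000000078605850a) (nat_lit 0) (p (nat_lit 0x10605850682)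 (nat_lit 0) (p (nat_lit 0x10585048402) (nat_lit 0) (p (nat_lit 0x16000c) (nat_lit 0) (p (nat_lit 0x160004) (nat_lit 0) (p (nat_lit 0x60592) (nat_lit 0) (p (nat_lit 0x48512) (nat_lit 0) (p (nat_lit 0x50392) (nat_lit 0) (p (nat_lit 0x38312) (nat_lit 0) (p (nat_lit 0x40212) (nat_lit 0) (p (nat_lit 0x28192) (nat_lit 0) (p (nat_lit 0x30092) (nat_lit 0) (p (nat_lit 0x18012) (nat_lit 0) pn)))))))))))))))))))))))))) :=
  Cl.node (nat_lit 0xb000c) (nat_lit 2) (by decide +kernel) (ClAll.succ (ClAll.succ ClAll.zero n3) s19)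

def n15 : Cl (O (nat_lit 4)) (R (nat_lit 135377))
    (p (nat_lit 0xb000c) (nat_lit 0) (p (nat_lit 0xb0004) (nat_lit 0) (p (nat_lit 0x200014) (nat_lit 1) (p (nat_lit 0xc1) (nat_lit 1) (p (nat_lit 0x81) (nat_lit 1) (p (nat_lit 0x101) (nat_lit 1) (p (nat_lit 0x119) (nat_lit 0) (p (nat_lit 0xd1) (nat_lit 0) (p (nat_lit 0x89) (nat_lit 0) (p (nat_lit 0x41) (nat_lit 0) (p (nat_lit 0x109080787089a) (nat_lit 0) (p (nat_lit 0x108878706861a) (nat_lit 0) (p (nat_lit 0x8000000000000080686078a) (nat_lit 0) (p (nat_lit 0x8000000000000078605850a) (nat_lit 0) (p (nat_lit 0x10605850682) (nat_lit 0) (p (nat_lit 0x10585048402) (nat_lit 0) (p (nat_lit 0x16000c) (nat_lit 0) (p (nat_lit 0x160004) (nat_lit 0) (p (nat_lit 0x60592) (nat_lit 0) (p (nat_lit 0x48512) (nat_lit 0) (p (nat_lit 0x50392) (nat_lit 0) (p (nat_lit 0x38312) (nat_lit 0) (p (nat_lit 0x40212) (nat_lit 0) (p (nat_lit 0x28192) (nat_lit 0) (p (nat_lit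 0x30092) (nat_lit 0) (p (nat_lit 0x18012) (nat_lit 0) pn)))))))))))))))))))))))))) :=
  Cl.node (nat_lit 0x109) (nat_lit 2) (by decide +kernel) (ClAll.succ (ClAll.succ ClAll.zero s22) n4)

def n16 : Cl (O (nat_lit 4)) (R (nat_lit 135377))
    (p (nat_lit 0xb0004) (nat_lit 0) (p (nat_lit 0x200014) (nat_lit 1) (p (nat_lit 0x109) (nat_lit 0) (p (nat_lit 0x101) (nat_lit 0) (p (nat_lit 0x81) (nat_lit 1) (p (nat_lit 0xc1) (nat_lit 1) (p (nat_lit 0x119) (nat_lit 1) (p (nat_lit 0xd1) (nat_lit 0) (p (nat_lit 0x89) (nat_lit 0) (p (nat_lit 0x41) (nat_lit 0) (p (nat_lit 0x109080787089a) (nat_lit 0) (p (nat_lit 0x108878706861a) (nat_lit 0) (p (nat_lit 0x8000000000000080686078a) (nat_lit 0) (p (nat_lit 0x8000000000000078605850a) (nat_lit 0) (p (nat_lit 0x10605850682) (nat_lit 0) (p (nat_lit 0x10585048402) (nat_lit 0) (p (nat_lit 0x16000c) (nat_lit 0) (p (nat_lit 0x160004) (nat_lit 0) (p (nat_lit 0x60592)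 (nat_lit 0) (p (nat_lit 0x48512) (nat_lit 0) (p (nat_lit 0x50392) (nat_lit 0) (p (nat_lit 0x38312) (nat_lit 0) (p (nat_lit 0x40212) (nat_lit 0) (p (nat_lit 0x28192) (nat_lit 0) (p (nat_lit 0x30092) (nat_lit 0) (p (nat_lit 0x18012) (nat_lit 0) pn)))))))))))))))))))))))))) :=
  Cl.node (nat_lit 0xb000c) (nat_lit 2) (by decide +kernel) (ClAll.succ (ClAll.succ ClAll.zero n5) s37)

def n17 : Cl (O (nat_lit 4)) (R (nat_lit 135377))
    (p (nat_lit 0xb0004) (nat_lit 0) (p (nat_lit 0x200014) (nat_lit 1) (p (nat_lit 0x109) (nat_lit 1) (p (nat_lit 0x101) (nat_lit 0) (p (nat_lit 0x81) (nat_lit 1) (p (nat_lit 0xc1) (nat_lit 1) (p (nat_lit 0x119) (nat_lit 1) (p (nat_lit 0xd1) (nat_lit 0) (p (nat_lit 0x89) (nat_lit 0) (p (nat_lit 0x41) (nat_lit 0) (p (nat_lit 0x109080787089a) (nat_lit 0) (p (nat_lit 0x108878706861a) (nat_lit 0) (p (nat_lit 0x8000000000000080686078a) (nat_lit 0) (p (nat_lit 0x8000000000000078605850a)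 (nat_lit 0) (p (nat_lit 0x10605850682) (nat_lit 0) (p (nat_lit 0x10585048402) (nat_lit 0) (p (nat_lit 0x16000c) (nat_lit 0) (p (nat_lit 0x160004) (nat_lit 0) (p (nat_lit 0x60592) (nat_lit 0) (p (nat_lit 0x48512) (nat_lit 0) (p (nat_lit 0x50392) (nat_lit 0) (p (nat_lit 0x38312) (nat_lit 0) (p (nat_lit 0x40212) (nat_lit 0) (p (nat_lit 0x28192) (nat_lit 0) (p (nat_lit 0x30092) (nat_lit 0) (p (nat_lit 0x18012) (nat_lit 0) pn)))))))))))))))))))))))))) :=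
  Cl.node (nat_lit 0xb000c) (nat_lit 2) (by decide +kernel) (ClAll.succ (ClAll.succ ClAll.zero n6) s43)

def n18 : Cl (O (nat_lit 4)) (R (nat_lit 135377))
    (p (nat_lit 0xb000c) (nat_lit 0) (p (nat_lit 0xb0004) (nat_lit 0) (p (nat_lit 0x200014) (nat_lit 1) (p (nat_lit 0x101) (nat_lit 1) (p (nat_lit 0x81) (nat_lit 1) (p (nat_lit 0xc1) (nat_lit 1) (p (nat_lit 0x119) (nat_lit 1) (p (nat_lit 0xd1) (nat_lit 0) (p (nat_lit 0x89) (nat_lit 0) (p (nat_lit 0x41) (nat_lit 0) (p (nat_lit 0x109080787089a) (nat_lit 0) (p (nat_lit 0x108878706861a) (nat_lit 0) (p (nat_lit 0x8000000000000080686078a) (nat_lit 0) (p (nat_lit 0x8000000000000078605850a) (nat_lit 0) (p (nat_lit 0x10605850682) (nat_lit 0) (p (nat_lit 0x10585048402) (nat_lit 0) (p (nat_lit 0x16000c) (nat_lit 0) (p (nat_lit 0x160004) (nat_lit 0) (p (nat_lit 0x60592) (nat_lit 0) (p (nat_lit 0x48512) (nat_lit 0) (p (nat_lit 0x50392) (nat_lit 0)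 (p (nat_lit 0x38312) (nat_lit 0) (p (nat_lit 0x40212) (nat_lit 0) (p (nat_lit 0x28192) (nat_lit 0) (p (nat_lit 0x30092) (nat_lit 0) (p (nat_lit 0x18012) (nat_lit 0) pn)))))))))))))))))))))))))) :=
  Cl.node (nat_lit 0xc9) (nat_lit 2) (by decide +kernel) (ClAll.succ (ClAll.succ ClAll.zero s48) n7)

def n19 : Cl (O (nat_lit 4)) (R (nat_lit 135377))
    (p (nat_lit 0xb000c) (nat_lit 0) (p (nat_lit 0xb0004) (nat_lit 0) (p (nat_lit 0x200014) (nat_lit 1) (p (nat_lit 0xd1) (nat_lit 1) (p (nat_lit 0x109) (nat_lit 1) (p (nat_lit 0x101) (nat_lit 0) (p (nat_lit 0x119) (nat_lit 0) (p (nat_lit 0xc9) (nat_lit 0) (p (nat_lit 0x89) (nat_lit 1) (p (nat_lit 0x41) (nat_lit 0) (p (nat_lit 0x109080787089a) (nat_lit 0) (p (nat_lit 0x108878706861a) (nat_lit 0) (p (nat_lit 0x8000000000000080686078a) (nat_lit 0) (p (nat_lit 0x8000000000000078605850a) (nat_lit 0) (p (nat_lit 0x10605850682) (nat_lit 0) (p (nat_lit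 0x10585048402) (nat_lit 0) (p (nat_lit 0x16000c) (nat_lit 0) (p (nat_lit 0x160004) (nat_lit 0) (p (nat_lit 0x60592) (nat_lit 0) (p (nat_lit 0x48512) (nat_lit 0) (p (nat_lit 0x50392) (nat_lit 0) (p (nat_lit 0x38312) (nat_lit 0) (p (nat_lit 0x40212) (nat_lit 0) (p (nat_lit 0x28192) (nat_lit 0) (p (nat_lit 0x30092) (nat_lit 0) (p (nat_lit 0x18012) (nat_lit 0) pn)))))))))))))))))))))))))) :=
  Cl.node (nat_lit 0x41) (nat_lit 2) (by decide +kernel) (ClAll.succ (ClAll.succ ClAll.zero s66) s67)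

def n20 : Cl (O (nat_lit 4)) (R (nat_lit 135377))
    (p (nat_lit 0xb000c) (nat_lit 0) (p (nat_lit 0xb0004) (nat_lit 0) (p (nat_lit 0x200014) (nat_lit 1) (p (nat_lit 0xd1) (nat_lit 0) (p (nat_lit 0xc1) (nat_lit 0) (p (nat_lit 0x101) (nat_lit 1) (p (nat_lit 0x119) (nat_lit 0) (p (nat_lit 0xc9) (nat_lit 0) (p (nat_lit 0x89) (nat_lit 1) (p (nat_lit 0x41) (nat_lit 0) (p (nat_lit 0x109080787089a) (nat_lit 0) (p (nat_lit 0x108878706861a) (nat_lit 0) (p (nat_lit 0x8000000000000080686078a) (nat_lit 0) (p (nat_lit 0x8000000000000078605850a) (nat_lit 0) (p (nat_lit 0x10605850682) (nat_lit 0) (p (nat_lit 0x10585048402) (nat_lit 0) (p (nat_lit 0x16000c) (nat_lit 0) (p (nat_lit 0x160004) (nat_lit 0) (p (nat_lit 0x60592) (nat_lit 0) (p (nat_lit 0x48512) (nat_lit 0) (p (nat_lit 0x50392) (nat_lit 0) (p (nat_lit 0x38312) (nat_lit 0) (p (nat_lit 0x40212) (nat_lit 0) (p (nat_lit 0x28192) (nat_lit 0) (p (nat_lit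 0x30092) (nat_lit 0) (p (nat_lit 0x18012) (nat_lit 0) pn)))))))))))))))))))))))))) :=
  Cl.node (nat_lit 0x109) (nat_lit 2) (by decide +kernel) (ClAll.succ (ClAll.succ ClAll.zero s71) s72)

def n21 : Cl (O (nat_lit 4)) (R (nat_lit 135377))
    (p (nat_lit 0xb000c) (nat_lit 0) (p (nat_lit 0xb0004) (nat_lit 0) (p (nat_lit 0x200014) (nat_lit 1) (p (nat_lit 0xd1) (nat_lit 1) (p (nat_lit 0xc1) (nat_lit 0) (p (nat_lit 0x101) (nat_lit 1) (p (nat_lit 0x119) (nat_lit 0) (p (nat_lit 0xc9) (nat_lit 0) (p (nat_lit 0x89) (nat_lit 1) (p (nat_lit 0x41) (nat_lit 0) (p (nat_lit 0x109080787089a) (nat_lit 0) (p (nat_lit 0x108878706861a) (nat_lit 0) (p (nat_lit 0x8000000000000080686078a) (nat_lit 0) (p (nat_lit 0x8000000000000078605850a) (nat_lit 0) (p (nat_lit 0x10605850682) (nat_lit 0) (p (nat_lit 0x10585048402) (nat_lit 0) (p (nat_lit 0x16000c) (nat_lit 0) (p (nat_lit 0x160004) (nat_lit 0) (p (nat_lit 0x60592)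 (nat_lit 0) (p (nat_lit 0x48512) (nat_lit 0) (p (nat_lit 0x50392) (nat_lit 0) (p (nat_lit 0x38312) (nat_lit 0) (p (nat_lit 0x40212) (nat_lit 0) (p (nat_lit 0x28192) (nat_lit 0) (p (nat_lit 0x30092) (nat_lit 0) (p (nat_lit 0x18012) (nat_lit 0) pn)))))))))))))))))))))))))) :=
  Cl.node (nat_lit 0x109) (nat_lit 2) (by decide +kernel) (ClAll.succ (ClAll.succ ClAll.zero s76) s77)

def n22 : Cl (O (nat_lit 4)) (R (nat_lit 135377))
    (p (nat_lit 0xb0004) (nat_lit 0) (p (nat_lit 0x200014) (nat_lit 1) (p (nat_lit 0xc9) (nat_lit 0) (p (nat_lit 0x89) (nat_lit 1) (p (nat_lit 0x109) (nat_lit 1) (p (nat_lit 0x101) (nat_lit 0) (p (nat_lit 0x119) (nat_lit 0) (p (nat_lit 0xd1) (nat_lit 0) (p (nat_lit 0x81) (nat_lit 0) (p (nat_lit 0x41) (nat_lit 1) (p (nat_lit 0x109080787089a) (nat_lit 0) (p (nat_lit 0x108878706861a) (nat_lit 0) (p (nat_lit 0x8000000000000080686078a) (nat_lit 0) (p (nat_lit 0x8000000000000078605850a)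 (nat_lit 0) (p (nat_lit 0x10605850682) (nat_lit 0) (p (nat_lit 0x10585048402) (nat_lit 0) (p (nat_lit 0x16000c) (nat_lit 0) (p (nat_lit 0x160004) (nat_lit 0) (p (nat_lit 0x60592) (nat_lit 0) (p (nat_lit 0x48512) (nat_lit 0) (p (nat_lit 0x50392) (nat_lit 0) (p (nat_lit 0x38312) (nat_lit 0) (p (nat_lit 0x40212) (nat_lit 0) (p (nat_lit 0x28192) (nat_lit 0) (p (nat_lit 0x30092) (nat_lit 0) (p (nat_lit 0x18012) (nat_lit 0) pn)))))))))))))))))))))))))) :=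
  Cl.node (nat_lit 0xb000c) (nat_lit 2) (by decide +kernel) (ClAll.succ (ClAll.succ ClAll.zero n8) s101)

def n23 : Cl (O (nat_lit 4)) (R (nat_lit 135377))
    (p (nat_lit 0xb0004) (nat_lit 0) (p (nat_lit 0x200014) (nat_lit 1) (p (nat_lit 0xc9) (nat_lit 1) (p (nat_lit 0x89) (nat_lit 1) (p (nat_lit 0xc1) (nat_lit 0) (p (nat_lit 0x101) (nat_lit 1) (p (nat_lit 0x119) (nat_lit 0) (p (nat_lit 0xd1) (nat_lit 0) (p (nat_lit 0x81) (nat_lit 0) (p (nat_lit 0x41) (nat_lit 1) (p (nat_lit 0x109080787089a) (nat_lit 0) (p (nat_lit 0x108878706861a) (nat_lit 0) (p (nat_lit 0x8000000000000080686078a) (nat_lit 0) (p (nat_lit 0x8000000000000078605850a) (nat_lit 0) (p (nat_lit 0x10605850682) (nat_lit 0) (p (nat_lit 0x10585048402) (nat_lit 0) (p (nat_lit 0x16000c) (nat_lit 0) (p (nat_lit 0x160004) (nat_lit 0) (p (nat_lit 0x60592) (nat_lit 0) (p (nat_lit 0x48512) (nat_lit 0) (p (nat_lit 0x50392) (nat_lit 0) (p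 (nat_lit 0x38312) (nat_lit 0) (p (nat_lit 0x40212) (nat_lit 0) (p (nat_lit 0x28192) (nat_lit 0) (p (nat_lit 0x30092) (nat_lit 0) (p (nat_lit 0x18012) (nat_lit 0) pn)))))))))))))))))))))))))) :=
  Cl.node (nat_lit 0xb000c) (nat_lit 2) (by decide +kernel) (ClAll.succ (ClAll.succ ClAll.zero n9) s110)

def n24 : Cl (O (nat_lit 4)) (R (nat_lit 135377))
    (p (nat_lit 0xb000c) (nat_lit 0) (p (nat_lit 0xb0004) (nat_lit 0) (p (nat_lit 0x200014) (nat_lit 1) (p (nat_lit 0x89) (nat_lit 1) (p (nat_lit 0xc1) (nat_lit 1) (p (nat_lit 0x101) (nat_lit 1) (p (nat_lit 0x119) (nat_lit 0) (p (nat_lit 0xd1) (nat_lit 0) (p (nat_lit 0x81) (nat_lit 0) (p (nat_lit 0x41) (nat_lit 1) (p (nat_lit 0x109080787089a) (nat_lit 0) (p (nat_lit 0x108878706861a) (nat_lit 0) (p (nat_lit 0x8000000000000080686078a) (nat_lit 0) (p (nat_lit 0x8000000000000078605850a) (nat_lit 0) (p (nat_lit 0x10605850682) (nat_lit 0) (p (nat_lit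 0x10585048402) (nat_lit 0) (p (nat_lit 0x16000c) (nat_lit 0) (p (nat_lit 0x160004) (nat_lit 0) (p (nat_lit 0x60592) (nat_lit 0) (p (nat_lit 0x48512) (nat_lit 0) (p (nat_lit 0x50392) (nat_lit 0) (p (nat_lit 0x38312) (nat_lit 0) (p (nat_lit 0x40212) (nat_lit 0) (p (nat_lit 0x28192) (nat_lit 0) (p (nat_lit 0x30092) (nat_lit 0) (p (nat_lit 0x18012) (nat_lit 0) pn)))))))))))))))))))))))))) :=
  Cl.node (nat_lit 0x109) (nat_lit 2) (by decide +kernel) (ClAll.succ (ClAll.succ ClAll.zero s114) n10)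

def n25 : Cl (O (nat_lit 4)) (R (nat_lit 135377))
    (p (nat_lit 0xb0004) (nat_lit 0) (p (nat_lit 0x200014) (nat_lit 1) (p (nat_lit 0x109) (nat_lit 1) (p (nat_lit 0x89) (nat_lit 1) (p (nat_lit 0x101) (nat_lit 0) (p (nat_lit 0xc1) (nat_lit 1) (p (nat_lit 0x119) (nat_lit 1) (p (nat_lit 0xd1) (nat_lit 0) (p (nat_lit 0x81) (nat_lit 0) (p (nat_lit 0x41) (nat_lit 1) (p (nat_lit 0x109080787089a) (nat_lit 0) (p (nat_lit 0x108878706861a) (nat_lit 0) (p (nat_lit 0x8000000000000080686078a) (nat_lit 0) (p (nat_lit 0x8000000000000078605850a) (nat_lit 0) (p (nat_lit 0x10605850682) (nat_lit 0) (p (nat_lit 0x10585048402) (nat_lit 0) (p (nat_lit 0x16000c) (nat_lit 0) (p (nat_lit 0x160004) (nat_lit 0) (p (nat_lit 0x60592) (nat_lit 0) (p (nat_lit 0x48512) (nat_lit 0) (p (nat_lit 0x50392) (nat_lit 0) (p (nat_lit 0x38312) (nat_lit 0) (p (nat_lit 0x40212) (nat_lit 0) (p (nat_lit 0x28192) (nat_lit 0) (p (nat_lit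 0x30092) (nat_lit 0) (p (nat_lit 0x18012) (nat_lit 0) pn)))))))))))))))))))))))))) :=
  Cl.node (nat_lit 0xb000c) (nat_lit 2) (by decide +kernel) (ClAll.succ (ClAll.succ ClAll.zero n11) s131)

def n26 : Cl (O (nat_lit 4)) (R (nat_lit 135377))
    (p (nat_lit 0xb000c) (nat_lit 0) (p (nat_lit 0xb0004) (nat_lit 0) (p (nat_lit 0x200014) (nat_lit 1) (p (nat_lit 0x89) (nat_lit 1) (p (nat_lit 0x101) (nat_lit 1) (p (nat_lit 0xc1) (nat_lit 1) (p (nat_lit 0x119) (nat_lit 1) (p (nat_lit 0xd1) (nat_lit 0) (p (nat_lit 0x81) (nat_lit 0) (p (nat_lit 0x41) (nat_lit 1) (p (nat_lit 0x109080787089a) (nat_lit 0) (p (nat_lit 0x108878706861a) (nat_lit 0) (p (nat_lit 0x8000000000000080686078a) (nat_lit 0) (p (nat_lit 0x8000000000000078605850a) (nat_lit 0) (p (nat_lit 0x10605850682) (nat_lit 0) (p (nat_lit 0x10585048402) (nat_lit 0) (p (nat_lit 0x16000c) (nat_lit 0) (p (nat_lit 0x160004) (nat_lit 0) (p (nat_lit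 0x60592) (nat_lit 0) (p (nat_lit 0x48512) (nat_lit 0) (p (nat_lit 0x50392) (nat_lit 0) (p (nat_lit 0x38312) (nat_lit 0) (p (nat_lit 0x40212) (nat_lit 0) (p (nat_lit 0x28192) (nat_lit 0) (p (nat_lit 0x30092) (nat_lit 0) (p (nat_lit 0x18012) (nat_lit 0) pn)))))))))))))))))))))))))) :=
  Cl.node (nat_lit 0xc9) (nat_lit 2) (by decide +kernel) (ClAll.succ (ClAll.succ ClAll.zero s137) s138)

def n27 : Cl (O (nat_lit 4)) (R (nat_lit 135377))
    (p (nat_lit 0x200014) (nat_lit 1) (p (nat_lit 0xc9) (nat_lit 0) (p (nat_lit 0xc1) (nat_lit 0) (p (nat_lit 0x81) (nat_lit 1) (p (nat_lit 0x101) (nat_lit 1) (p (nat_lit 0x119) (nat_lit 0) (p (nat_lit 0xd1) (nat_lit 0) (p (nat_lit 0x89) (nat_lit 0) (p (nat_lit 0x41) (nat_lit 0) (p (nat_lit 0x109080787089a) (nat_lit 0) (p (nat_lit 0x108878706861a) (nat_lit 0) (p (nat_lit 0x8000000000000080686078a) (nat_lit 0) (p (nat_lit 0x8000000000000078605850a) (nat_lit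 0) (p (nat_lit 0x10605850682) (nat_lit 0) (p (nat_lit 0x10585048402) (nat_lit 0) (p (nat_lit 0x16000c) (nat_lit 0) (p (nat_lit 0x160004) (nat_lit 0) (p (nat_lit 0x60592) (nat_lit 0) (p (nat_lit 0x48512) (nat_lit 0) (p (nat_lit 0x50392) (nat_lit 0) (p (nat_lit 0x38312) (nat_lit 0) (p (nat_lit 0x40212) (nat_lit 0) (p (nat_lit 0x28192) (nat_lit 0) (p (nat_lit 0x30092) (nat_lit 0) (p (nat_lit 0x18012) (nat_lit 0) pn))))))))))))))))))))))))) :=
  Cl.node (nat_lit 0xb0004) (nat_lit 2) (by decide +kernel) (ClAll.succ (ClAll.succ ClAll.zero n12) s13)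

def n28 : Cl (O (nat_lit 4)) (R (nat_lit 135377))
    (p (nat_lit 0x200014) (nat_lit 0) (p (nat_lit 0xc9) (nat_lit 1) (p (nat_lit 0xc1) (nat_lit 0) (p (nat_lit 0x81) (nat_lit 1) (p (nat_lit 0x101) (nat_lit 1) (p (nat_lit 0x119) (nat_lit 0) (p (nat_lit 0xd1) (nat_lit 0) (p (nat_lit 0x89) (nat_lit 0) (p (nat_lit 0x41) (nat_lit 0) (p (nat_lit 0x109080787089a) (nat_lit 0) (p (nat_lit 0x108878706861a) (nat_lit 0) (p (nat_lit 0x8000000000000080686078a) (nat_lit 0) (p (nat_lit 0x8000000000000078605850a) (nat_lit 0) (p (nat_lit 0x10605850682) (nat_lit 0) (p (nat_lit 0x10585048402) (nat_lit 0) (p (nat_lit 0x16000c) (nat_lit 0) (p (nat_lit 0x160004) (nat_lit 0) (p (nat_lit 0x60592) (nat_lit 0) (p (nat_lit 0x48512) (nat_lit 0) (p (nat_lit 0x50392) (nat_lit 0) (p (nat_lit 0x38312) (nat_lit 0) (p (nat_lit 0x40212) (nat_lit 0) (p (nat_lit 0x28192) (nat_lit 0) (p (nat_lit 0x30092) (nat_lit 0) (p (nat_lit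 0x18012) (nat_lit 0) pn))))))))))))))))))))))))) :=
  Cl.node (nat_lit 0xb0004) (nat_lit 2) (by decide +kernel) (ClAll.succ (ClAll.succ ClAll.zero n13) s16)

def n29 : Cl (O (nat_lit 4)) (R (nat_lit 135377))
    (p (nat_lit 0x200014) (nat_lit 1) (p (nat_lit 0xc9) (nat_lit 1) (p (nat_lit 0xc1) (nat_lit 0) (p (nat_lit 0x81) (nat_lit 1) (p (nat_lit 0x101) (nat_lit 1) (p (nat_lit 0x119) (nat_lit 0) (p (nat_lit 0xd1) (nat_lit 0) (p (nat_lit 0x89) (nat_lit 0) (p (nat_lit 0x41) (nat_lit 0) (p (nat_lit 0x109080787089a) (nat_lit 0) (p (nat_lit 0x108878706861a) (nat_lit 0) (p (nat_lit 0x8000000000000080686078a) (nat_lit 0) (p (nat_lit 0x8000000000000078605850a) (nat_lit 0) (p (nat_lit 0x10605850682) (nat_lit 0) (p (nat_lit 0x10585048402) (nat_lit 0) (p (nat_lit 0x16000c) (nat_lit 0) (p (nat_lit 0x160004) (nat_lit 0) (p (nat_lit 0x60592) (nat_lit 0) (p (nat_lit 0x48512) (nat_lit 0) (p (nat_lit 0x50392)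 (nat_lit 0) (p (nat_lit 0x38312) (nat_lit 0) (p (nat_lit 0x40212) (nat_lit 0) (p (nat_lit 0x28192) (nat_lit 0) (p (nat_lit 0x30092) (nat_lit 0) (p (nat_lit 0x18012) (nat_lit 0) pn))))))))))))))))))))))))) :=
  Cl.node (nat_lit 0xb0004) (nat_lit 2) (by decide +kernel) (ClAll.succ (ClAll.succ ClAll.zero n14) s20)

def n30 : Cl (O (nat_lit 4)) (R (nat_lit 135377))
    (p (nat_lit 0xb0004) (nat_lit 0) (p (nat_lit 0x200014) (nat_lit 1) (p (nat_lit 0xc1) (nat_lit 1) (p (nat_lit 0x81) (nat_lit 1) (p (nat_lit 0x101) (nat_lit 1) (p (nat_lit 0x119) (nat_lit 0) (p (nat_lit 0xd1) (nat_lit 0) (p (nat_lit 0x89) (nat_lit 0) (p (nat_lit 0x41) (nat_lit 0) (p (nat_lit 0x109080787089a) (nat_lit 0) (p (nat_lit 0x108878706861a) (nat_lit 0) (p (nat_lit 0x8000000000000080686078a) (nat_lit 0) (p (nat_lit 0x8000000000000078605850a) (nat_lit 0) (p (nat_lit 0x10605850682) (nat_lit 0) (p (nat_lit 0x10585048402) (nat_lit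 0) (p (nat_lit 0x16000c) (nat_lit 0) (p (nat_lit 0x160004) (nat_lit 0) (p (nat_lit 0x60592) (nat_lit 0) (p (nat_lit 0x48512) (nat_lit 0) (p (nat_lit 0x50392) (nat_lit 0) (p (nat_lit 0x38312) (nat_lit 0) (p (nat_lit 0x40212) (nat_lit 0) (p (nat_lit 0x28192) (nat_lit 0) (p (nat_lit 0x30092) (nat_lit 0) (p (nat_lit 0x18012) (nat_lit 0) pn))))))))))))))))))))))))) :=
  Cl.node (nat_lit 0xb000c) (nat_lit 2) (by decide +kernel) (ClAll.succ (ClAll.succ ClAll.zero n15) s25)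

def n31 : Cl (O (nat_lit 4)) (R (nat_lit 135377))
    (p (nat_lit 0x200014) (nat_lit 1) (p (nat_lit 0x109) (nat_lit 0) (p (nat_lit 0x101) (nat_lit 0) (p (nat_lit 0x81) (nat_lit 1) (p (nat_lit 0xc1) (nat_lit 1) (p (nat_lit 0x119) (nat_lit 1) (p (nat_lit 0xd1) (nat_lit 0) (p (nat_lit 0x89) (nat_lit 0) (p (nat_lit 0x41) (nat_lit 0) (p (nat_lit 0x109080787089a) (nat_lit 0) (p (nat_lit 0x108878706861a) (nat_lit 0) (p (nat_lit 0x8000000000000080686078a) (nat_lit 0) (p (nat_lit 0x8000000000000078605850a) (nat_lit 0) (p (nat_lit 0x10605850682) (nat_lit 0) (p (nat_lit 0x10585048402) (nat_lit 0) (p (nat_lit 0x16000c) (nat_lit 0) (p (nat_lit 0x160004) (nat_lit 0) (p (nat_lit 0x60592) (nat_lit 0) (p (nat_lit 0x48512) (nat_lit 0) (p (nat_lit 0x50392) (nat_lit 0) (p (nat_lit 0x38312) (nat_lit 0) (p (nat_lit 0x40212) (nat_lit 0) (p (nat_lit 0x28192) (nat_lit 0) (p (nat_lit 0x30092) (nat_lit 0) (p (nat_lit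 0x18012) (nat_lit 0) pn))))))))))))))))))))))))) :=
  Cl.node (nat_lit 0xb0004) (nat_lit 2) (by decide +kernel) (ClAll.succ (ClAll.succ ClAll.zero n16) s38)

def n32 : Cl (O (nat_lit 4)) (R (nat_lit 135377))
    (p (nat_lit 0x200014) (nat_lit 0) (p (nat_lit 0x109) (nat_lit 1) (p (nat_lit 0x101) (nat_lit 0) (p (nat_lit 0x81) (nat_lit 1) (p (nat_lit 0xc1) (nat_lit 1) (p (nat_lit 0x119) (nat_lit 1) (p (nat_lit 0xd1) (nat_lit 0) (p (nat_lit 0x89) (nat_lit 0) (p (nat_lit 0x41) (nat_lit 0) (p (nat_lit 0x109080787089a) (nat_lit 0) (p (nat_lit 0x108878706861a) (nat_lit 0) (p (nat_lit 0x8000000000000080686078a) (nat_lit 0) (p (nat_lit 0x8000000000000078605850a) (nat_lit 0) (p (nat_lit 0x10605850682) (nat_lit 0) (p (nat_lit 0x10585048402) (nat_lit 0) (p (nat_lit 0x16000c) (nat_lit 0) (p (nat_lit 0x160004) (nat_lit 0) (p (nat_lit 0x60592) (nat_lit 0) (p (nat_lit 0x48512) (nat_lit 0) (p (nat_lit 0x50392)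 (nat_lit 0) (p (nat_lit 0x38312) (nat_lit 0) (p (nat_lit 0x40212) (nat_lit 0) (p (nat_lit 0x28192) (nat_lit 0) (p (nat_lit 0x30092) (nat_lit 0) (p (nat_lit 0x18012) (nat_lit 0) pn))))))))))))))))))))))))) :=
  Cl.node (nat_lit 0xb0004) (nat_lit 2) (by decide +kernel) (ClAll.succ (ClAll.succ ClAll.zero s39) s40)

def n33 : Cl (O (nat_lit 4)) (R (nat_lit 135377))
    (p (nat_lit 0x200014) (nat_lit 1) (p (nat_lit 0x109) (nat_lit 1) (p (nat_lit 0x101) (nat_lit 0) (p (nat_lit 0x81) (nat_lit 1) (p (nat_lit 0xc1) (nat_lit 1) (p (nat_lit 0x119) (nat_lit 1) (p (nat_lit 0xd1) (nat_lit 0) (p (nat_lit 0x89) (nat_lit 0) (p (nat_lit 0x41) (nat_lit 0) (p (nat_lit 0x109080787089a) (nat_lit 0) (p (nat_lit 0x108878706861a) (nat_lit 0) (p (nat_lit 0x8000000000000080686078a) (nat_lit 0) (p (nat_lit 0x8000000000000078605850a) (nat_lit 0) (p (nat_lit 0x10605850682) (nat_lit 0) (p (nat_lit 0x10585048402) (nat_lit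 0) (p (nat_lit 0x16000c) (nat_lit 0) (p (nat_lit 0x160004) (nat_lit 0) (p (nat_lit 0x60592) (nat_lit 0) (p (nat_lit 0x48512) (nat_lit 0) (p (nat_lit 0x50392) (nat_lit 0) (p (nat_lit 0x38312) (nat_lit 0) (p (nat_lit 0x40212) (nat_lit 0) (p (nat_lit 0x28192) (nat_lit 0) (p (nat_lit 0x30092) (nat_lit 0) (p (nat_lit 0x18012) (nat_lit 0) pn))))))))))))))))))))))))) :=
  Cl.node (nat_lit 0xb0004) (nat_lit 2) (by decide +kernel) (ClAll.succ (ClAll.succ ClAll.zero n17) s44)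

def n34 : Cl (O (nat_lit 4)) (R (nat_lit 135377))
    (p (nat_lit 0xb0004) (nat_lit 0) (p (nat_lit 0x200014) (nat_lit 0) (p (nat_lit 0x101) (nat_lit 1) (p (nat_lit 0x81) (nat_lit 1) (p (nat_lit 0xc1) (nat_lit 1) (p (nat_lit 0x119) (nat_lit 1) (p (nat_lit 0xd1) (nat_lit 0) (p (nat_lit 0x89) (nat_lit 0) (p (nat_lit 0x41) (nat_lit 0) (p (nat_lit 0x109080787089a) (nat_lit 0) (p (nat_lit 0x108878706861a) (nat_lit 0) (p (nat_lit 0x8000000000000080686078a) (nat_lit 0) (p (nat_lit 0x8000000000000078605850a) (nat_lit 0) (p (nat_lit 0x10605850682) (nat_lit 0) (p (nat_lit 0x10585048402) (nat_lit 0) (p (nat_lit 0x16000c) (nat_lit 0) (p (nat_lit 0x160004) (nat_lit 0) (p (nat_lit 0x60592) (nat_lit 0) (p (nat_lit 0x48512) (nat_lit 0) (p (nat_lit 0x50392) (nat_lit 0) (p (nat_lit 0x38312) (nat_lit 0) (p (nat_lit 0x40212) (nat_lit 0) (p (nat_lit 0x28192) (nat_lit 0) (p (nat_lit 0x30092) (nat_lit 0) (p (nat_lit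 0x18012) (nat_lit 0) pn))))))))))))))))))))))))) :=
  Cl.node (nat_lit 0xb000c) (nat_lit 2) (by decide +kernel) (ClAll.succ (ClAll.succ ClAll.zero s45) s46)

def n35 : Cl (O (nat_lit 4)) (R (nat_lit 135377))
    (p (nat_lit 0xb0004) (nat_lit 0) (p (nat_lit 0x200014) (nat_lit 1) (p (nat_lit 0x101) (nat_lit 1) (p (nat_lit 0x81) (nat_lit 1) (p (nat_lit 0xc1) (nat_lit 1) (p (nat_lit 0x119) (nat_lit 1) (p (nat_lit 0xd1) (nat_lit 0) (p (nat_lit 0x89) (nat_lit 0) (p (nat_lit 0x41) (nat_lit 0) (p (nat_lit 0x109080787089a) (nat_lit 0) (p (nat_lit 0x108878706861a) (nat_lit 0) (p (nat_lit 0x8000000000000080686078a) (nat_lit 0) (p (nat_lit 0x8000000000000078605850a) (nat_lit 0) (p (nat_lit 0x10605850682) (nat_lit 0) (p (nat_lit 0x10585048402) (nat_lit 0) (p (nat_lit 0x16000c) (nat_lit 0) (p (nat_lit 0x160004) (nat_lit 0) (p (nat_lit 0x60592) (nat_lit 0) (p (nat_lit 0x48512) (nat_lit 0) (p (nat_lit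 0x50392) (nat_lit 0) (p (nat_lit 0x38312) (nat_lit 0) (p (nat_lit 0x40212) (nat_lit 0) (p (nat_lit 0x28192) (nat_lit 0) (p (nat_lit 0x30092) (nat_lit 0) (p (nat_lit 0x18012) (nat_lit 0) pn))))))))))))))))))))))))) :=
  Cl.node (nat_lit 0xb000c) (nat_lit 2) (by decide +kernel) (ClAll.succ (ClAll.succ ClAll.zero n18) s51)

def n36 : Cl (O (nat_lit 4)) (R (nat_lit 135377))
    (p (nat_lit 0xb0004) (nat_lit 0) (p (nat_lit 0x200014) (nat_lit 1) (p (nat_lit 0xd1) (nat_lit 1) (p (nat_lit 0x109) (nat_lit 1) (p (nat_lit 0x101) (nat_lit 0) (p (nat_lit 0x119) (nat_lit 0) (p (nat_lit 0xc9) (nat_lit 0) (p (nat_lit 0x89) (nat_lit 1) (p (nat_lit 0x41) (nat_lit 0) (p (nat_lit 0x109080787089a) (nat_lit 0) (p (nat_lit 0x108878706861a) (nat_lit 0) (p (nat_lit 0x8000000000000080686078a) (nat_lit 0) (p (nat_lit 0x8000000000000078605850a) (nat_lit 0) (p (nat_lit 0x10605850682) (nat_lit 0) (p (nat_lit 0x10585048402)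 (nat_lit 0) (p (nat_lit 0x16000c) (nat_lit 0) (p (nat_lit 0x160004) (nat_lit 0) (p (nat_lit 0x60592) (nat_lit 0) (p (nat_lit 0x48512) (nat_lit 0) (p (nat_lit 0x50392) (nat_lit 0) (p (nat_lit 0x38312) (nat_lit 0) (p (nat_lit 0x40212) (nat_lit 0) (p (nat_lit 0x28192) (nat_lit 0) (p (nat_lit 0x30092) (nat_lit 0) (p (nat_lit 0x18012) (nat_lit 0) pn))))))))))))))))))))))))) :=
  Cl.node (nat_lit 0xb000c) (nat_lit 2) (by decide +kernel) (ClAll.succ (ClAll.succ ClAll.zero n19) s68)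

def n37 : Cl (O (nat_lit 4)) (R (nat_lit 135377))
    (p (nat_lit 0xb0004) (nat_lit 0) (p (nat_lit 0x200014) (nat_lit 1) (p (nat_lit 0xd1) (nat_lit 0) (p (nat_lit 0xc1) (nat_lit 0) (p (nat_lit 0x101) (nat_lit 1) (p (nat_lit 0x119) (nat_lit 0) (p (nat_lit 0xc9) (nat_lit 0) (p (nat_lit 0x89) (nat_lit 1) (p (nat_lit 0x41) (nat_lit 0) (p (nat_lit 0x109080787089a) (nat_lit 0) (p (nat_lit 0x108878706861a) (nat_lit 0) (p (nat_lit 0x8000000000000080686078a) (nat_lit 0) (p (nat_lit 0x8000000000000078605850a) (nat_lit 0) (p (nat_lit 0x10605850682) (nat_lit 0) (p (nat_lit 0x10585048402) (nat_lit 0) (p (nat_lit 0x16000c) (nat_lit 0) (p (nat_lit 0x160004) (nat_lit 0) (p (nat_lit 0x60592) (nat_lit 0) (p (nat_lit 0x48512) (nat_lit 0) (p (nat_lit 0x50392) (nat_lit 0) (p (nat_lit 0x38312) (nat_lit 0) (p (nat_lit 0x40212) (nat_lit 0) (p (nat_lit 0x28192) (nat_lit 0) (p (nat_lit 0x30092) (nat_lit 0) (p (nat_lit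 0x18012) (nat_lit 0) pn))))))))))))))))))))))))) :=
  Cl.node (nat_lit 0xb000c) (nat_lit 2) (by decide +kernel) (ClAll.succ (ClAll.succ ClAll.zero n20) s73)

def n38 : Cl (O (nat_lit 4)) (R (nat_lit 135377))
    (p (nat_lit 0xb0004) (nat_lit 0) (p (nat_lit 0x200014) (nat_lit 1) (p (nat_lit 0xd1) (nat_lit 1) (p (nat_lit 0xc1) (nat_lit 0) (p (nat_lit 0x101) (nat_lit 1) (p (nat_lit 0x119) (nat_lit 0) (p (nat_lit 0xc9) (nat_lit 0) (p (nat_lit 0x89) (nat_lit 1) (p (nat_lit 0x41) (nat_lit 0) (p (nat_lit 0x109080787089a) (nat_lit 0) (p (nat_lit 0x108878706861a) (nat_lit 0) (p (nat_lit 0x8000000000000080686078a) (nat_lit 0) (p (nat_lit 0x8000000000000078605850a) (nat_lit 0) (p (nat_lit 0x10605850682) (nat_lit 0) (p (nat_lit 0x10585048402) (nat_lit 0) (p (nat_lit 0x16000c) (nat_lit 0) (p (nat_lit 0x160004) (nat_lit 0) (p (nat_lit 0x60592) (nat_lit 0) (p (nat_lit 0x48512) (nat_lit 0) (p (nat_lit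 0x50392) (nat_lit 0) (p (nat_lit 0x38312) (nat_lit 0) (p (nat_lit 0x40212) (nat_lit 0) (p (nat_lit 0x28192) (nat_lit 0) (p (nat_lit 0x30092) (nat_lit 0) (p (nat_lit 0x18012) (nat_lit 0) pn))))))))))))))))))))))))) :=
  Cl.node (nat_lit 0xb000c) (nat_lit 2) (by decide +kernel) (ClAll.succ (ClAll.succ ClAll.zero n21) s78)

def n39 : Cl (O (nat_lit 4)) (R (nat_lit 135377))
    (p (nat_lit 0x200014) (nat_lit 1) (p (nat_lit 0xc9) (nat_lit 0) (p (nat_lit 0x89) (nat_lit 1) (p (nat_lit 0x109) (nat_lit 1) (p (nat_lit 0x101) (nat_lit 0) (p (nat_lit 0x119) (nat_lit 0) (p (nat_lit 0xd1) (nat_lit 0) (p (nat_lit 0x81) (nat_lit 0) (p (nat_lit 0x41) (nat_lit 1) (p (nat_lit 0x109080787089a) (nat_lit 0) (p (nat_lit 0x108878706861a) (nat_lit 0) (p (nat_lit 0x8000000000000080686078a) (nat_lit 0) (p (nat_lit 0x8000000000000078605850a) (nat_lit 0) (p (nat_lit 0x10605850682) (nat_lit 0) (p (nat_lit 0x10585048402)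 (nat_lit 0) (p (nat_lit 0x16000c) (nat_lit 0) (p (nat_lit 0x160004) (nat_lit 0) (p (nat_lit 0x60592) (nat_lit 0) (p (nat_lit 0x48512) (nat_lit 0) (p (nat_lit 0x50392) (nat_lit 0) (p (nat_lit 0x38312) (nat_lit 0) (p (nat_lit 0x40212) (nat_lit 0) (p (nat_lit 0x28192) (nat_lit 0) (p (nat_lit 0x30092) (nat_lit 0) (p (nat_lit 0x18012) (nat_lit 0) pn))))))))))))))))))))))))) :=
  Cl.node (nat_lit 0xb0004) (nat_lit 2) (by decide +kernel) (ClAll.succ (ClAll.succ ClAll.zero n22) s102)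

def n40 : Cl (O (nat_lit 4)) (R (nat_lit 135377))
    (p (nat_lit 0x200014) (nat_lit 1) (p (nat_lit 0xc9) (nat_lit 1) (p (nat_lit 0x89) (nat_lit 1) (p (nat_lit 0xc1) (nat_lit 0) (p (nat_lit 0x101) (nat_lit 1) (p (nat_lit 0x119) (nat_lit 0) (p (nat_lit 0xd1) (nat_lit 0) (p (nat_lit 0x81) (nat_lit 0) (p (nat_lit 0x41) (nat_lit 1) (p (nat_lit 0x109080787089a) (nat_lit 0) (p (nat_lit 0x108878706861a) (nat_lit 0) (p (nat_lit 0x8000000000000080686078a) (nat_lit 0) (p (nat_lit 0x8000000000000078605850a) (nat_lit 0) (p (nat_lit 0x10605850682) (nat_lit 0) (p (nat_lit 0x10585048402) (nat_lit 0) (p (nat_lit 0x16000c) (nat_lit 0) (p (nat_lit 0x160004) (nat_lit 0) (p (nat_lit 0x60592) (nat_lit 0) (p (nat_lit 0x48512) (nat_lit 0) (p (nat_lit 0x50392) (nat_lit 0) (p (nat_lit 0x38312) (nat_lit 0) (p (nat_lit 0x40212) (nat_lit 0) (p (nat_lit 0x28192) (nat_lit 0) (p (nat_lit 0x30092) (nat_lit 0) (p (nat_lit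 0x18012) (nat_lit 0) pn))))))))))))))))))))))))) :=
  Cl.node (nat_lit 0xb0004) (nat_lit 2) (by decide +kernel) (ClAll.succ (ClAll.succ ClAll.zero n23) s111)

def n41 : Cl (O (nat_lit 4)) (R (nat_lit 135377))
    (p (nat_lit 0xb0004) (nat_lit 0) (p (nat_lit 0x200014) (nat_lit 1) (p (nat_lit 0x89) (nat_lit 1) (p (nat_lit 0xc1) (nat_lit 1) (p (nat_lit 0x101) (nat_lit 1) (p (nat_lit 0x119) (nat_lit 0) (p (nat_lit 0xd1) (nat_lit 0) (p (nat_lit 0x81) (nat_lit 0) (p (nat_lit 0x41) (nat_lit 1) (p (nat_lit 0x109080787089a) (nat_lit 0) (p (nat_lit 0x108878706861a) (nat_lit 0) (p (nat_lit 0x8000000000000080686078a) (nat_lit 0) (p (nat_lit 0x8000000000000078605850a) (nat_lit 0) (p (nat_lit 0x10605850682) (nat_lit 0) (p (nat_lit 0x10585048402) (nat_lit 0) (p (nat_lit 0x16000c) (nat_lit 0) (p (nat_lit 0x160004) (nat_lit 0) (p (nat_lit 0x60592) (nat_lit 0) (p (nat_lit 0x48512) (nat_lit 0) (p (nat_lit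 0x50392) (nat_lit 0) (p (nat_lit 0x38312) (nat_lit 0) (p (nat_lit 0x40212) (nat_lit 0) (p (nat_lit 0x28192) (nat_lit 0) (p (nat_lit 0x30092) (nat_lit 0) (p (nat_lit 0x18012) (nat_lit 0) pn))))))))))))))))))))))))) :=
  Cl.node (nat_lit 0xb000c) (nat_lit 2) (by decide +kernel) (ClAll.succ (ClAll.succ ClAll.zero n24) s117)

def n42 : Cl (O (nat_lit 4)) (R (nat_lit 135377))
    (p (nat_lit 0x200014) (nat_lit 0) (p (nat_lit 0x109) (nat_lit 1) (p (nat_lit 0x89) (nat_lit 1) (p (nat_lit 0xc9) (nat_lit 1) (p (nat_lit 0xc1) (nat_lit 0) (p (nat_lit 0x119) (nat_lit 1) (p (nat_lit 0xd1) (nat_lit 0) (p (nat_lit 0x81) (nat_lit 0) (p (nat_lit 0x41) (nat_lit 1) (p (nat_lit 0x109080787089a) (nat_lit 0) (p (nat_lit 0x108878706861a) (nat_lit 0) (p (nat_lit 0x8000000000000080686078a) (nat_lit 0) (p (nat_lit 0x8000000000000078605850a) (nat_lit 0) (p (nat_lit 0x10605850682) (nat_lit 0) (p (nat_lit 0x10585048402)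 (nat_lit 0) (p (nat_lit 0x16000c) (nat_lit 0) (p (nat_lit 0x160004) (nat_lit 0) (p (nat_lit 0x60592) (nat_lit 0) (p (nat_lit 0x48512) (nat_lit 0) (p (nat_lit 0x50392) (nat_lit 0) (p (nat_lit 0x38312) (nat_lit 0) (p (nat_lit 0x40212) (nat_lit 0) (p (nat_lit 0x28192) (nat_lit 0) (p (nat_lit 0x30092) (nat_lit 0) (p (nat_lit 0x18012) (nat_lit 0) pn))))))))))))))))))))))))) :=
  Cl.node (nat_lit 0xb0004) (nat_lit 2) (by decide +kernel) (ClAll.succ (ClAll.succ ClAll.zero s123) s124)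

def n43 : Cl (O (nat_lit 4)) (R (nat_lit 135377))
    (p (nat_lit 0x200014) (nat_lit 1) (p (nat_lit 0x109) (nat_lit 1) (p (nat_lit 0x89) (nat_lit 1) (p (nat_lit 0x101) (nat_lit 0) (p (nat_lit 0xc1) (nat_lit 1) (p (nat_lit 0x119) (nat_lit 1) (p (nat_lit 0xd1) (nat_lit 0) (p (nat_lit 0x81) (nat_lit 0) (p (nat_lit 0x41) (nat_lit 1) (p (nat_lit 0x109080787089a) (nat_lit 0) (p (nat_lit 0x108878706861a) (nat_lit 0) (p (nat_lit 0x8000000000000080686078a) (nat_lit 0) (p (nat_lit 0x8000000000000078605850a) (nat_lit 0) (p (nat_lit 0x10605850682) (nat_lit 0) (p (nat_lit 0x10585048402) (nat_lit 0) (p (nat_lit 0x16000c) (nat_lit 0) (p (nat_lit 0x160004) (nat_lit 0) (p (nat_lit 0x60592) (nat_lit 0) (p (nat_lit 0x48512) (nat_lit 0) (p (nat_lit 0x50392) (nat_lit 0) (p (nat_lit 0x38312) (nat_lit 0) (p (nat_lit 0x40212) (nat_lit 0) (p (nat_lit 0x28192) (nat_lit 0) (p (nat_lit 0x30092) (nat_lit 0) (p (nat_lit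 0x18012) (nat_lit 0) pn))))))))))))))))))))))))) :=
  Cl.node (nat_lit 0xb0004) (nat_lit 2) (by decide +kernel) (ClAll.succ (ClAll.succ ClAll.zero n25) s132)

def n44 : Cl (O (nat_lit 4)) (R (nat_lit 135377))
    (p (nat_lit 0xb0004) (nat_lit 0) (p (nat_lit 0x200014) (nat_lit 0) (p (nat_lit 0x89) (nat_lit 1) (p (nat_lit 0x101) (nat_lit 1) (p (nat_lit 0xc1) (nat_lit 1) (p (nat_lit 0x119) (nat_lit 1) (p (nat_lit 0xd1) (nat_lit 0) (p (nat_lit 0x81) (nat_lit 0) (p (nat_lit 0x41) (nat_lit 1) (p (nat_lit 0x109080787089a) (nat_lit 0) (p (nat_lit 0x108878706861a) (nat_lit 0) (p (nat_lit 0x8000000000000080686078a) (nat_lit 0) (p (nat_lit 0x8000000000000078605850a) (nat_lit 0) (p (nat_lit 0x10605850682) (nat_lit 0) (p (nat_lit 0x10585048402) (nat_lit 0) (p (nat_lit 0x16000c) (nat_lit 0) (p (nat_lit 0x160004) (nat_lit 0) (p (nat_lit 0x60592) (nat_lit 0) (p (nat_lit 0x48512) (nat_lit 0) (p (nat_lit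 0x50392) (nat_lit 0) (p (nat_lit 0x38312) (nat_lit 0) (p (nat_lit 0x40212) (nat_lit 0) (p (nat_lit 0x28192) (nat_lit 0) (p (nat_lit 0x30092) (nat_lit 0) (p (nat_lit 0x18012) (nat_lit 0) pn))))))))))))))))))))))))) :=
  Cl.node (nat_lit 0xb000c) (nat_lit 2) (by decide +kernel) (ClAll.succ (ClAll.succ ClAll.zero s134) s135)

def n45 : Cl (O (nat_lit 4)) (R (nat_lit 135377))
    (p (nat_lit 0xb0004) (nat_lit 0) (p (nat_lit 0x200014) (nat_lit 1) (p (nat_lit 0x89) (nat_lit 1) (p (nat_lit 0x101) (nat_lit 1) (p (nat_lit 0xc1) (nat_lit 1) (p (nat_lit 0x119) (nat_lit 1) (p (nat_lit 0xd1) (nat_lit 0) (p (nat_lit 0x81) (nat_lit 0) (p (nat_lit 0x41) (nat_lit 1) (p (nat_lit 0x109080787089a) (nat_lit 0) (p (nat_lit 0x108878706861a) (nat_lit 0) (p (nat_lit 0x8000000000000080686078a) (nat_lit 0) (p (nat_lit 0x8000000000000078605850a) (nat_lit 0) (p (nat_lit 0x10605850682) (nat_lit 0) (p (nat_lit 0x10585048402)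 (nat_lit 0) (p (nat_lit 0x16000c) (nat_lit 0) (p (nat_lit 0x160004) (nat_lit 0) (p (nat_lit 0x60592) (nat_lit 0) (p (nat_lit 0x48512) (nat_lit 0) (p (nat_lit 0x50392) (nat_lit 0) (p (nat_lit 0x38312) (nat_lit 0) (p (nat_lit 0x40212) (nat_lit 0) (p (nat_lit 0x28192) (nat_lit 0) (p (nat_lit 0x30092) (nat_lit 0) (p (nat_lit 0x18012) (nat_lit 0) pn))))))))))))))))))))))))) :=
  Cl.node (nat_lit 0xb000c) (nat_lit 2) (by decide +kernel) (ClAll.succ (ClAll.succ ClAll.zero n26) s139)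

def n46 : Cl (O (nat_lit 4)) (R (nat_lit 135377))
    (p (nat_lit 0x200014) (nat_lit 0) (p (nat_lit 0xc9) (nat_lit 1) (p (nat_lit 0x81) (nat_lit 0) (p (nat_lit 0x101) (nat_lit 1) (p (nat_lit 0x119) (nat_lit 0) (p (nat_lit 0xd1) (nat_lit 0) (p (nat_lit 0x89) (nat_lit 0) (p (nat_lit 0x41) (nat_lit 0) (p (nat_lit 0x109080787089a) (nat_lit 0) (p (nat_lit 0x108878706861a) (nat_lit 0) (p (nat_lit 0x8000000000000080686078a) (nat_lit 0) (p (nat_lit 0x8000000000000078605850a) (nat_lit 0) (p (nat_lit 0x10605850682) (nat_lit 0) (p (nat_lit 0x10585048402) (nat_lit 0) (p (nat_lit 0x16000c) (nat_lit 0) (p (nat_lit 0x160004) (nat_lit 0) (p (nat_lit 0x60592) (nat_lit 0) (p (nat_lit 0x48512) (nat_lit 0) (p (nat_lit 0x50392) (nat_lit 0) (p (nat_lit 0x38312) (nat_lit 0) (p (nat_lit 0x40212) (nat_lit 0) (p (nat_lit 0x28192) (nat_lit 0) (p (nat_lit 0x30092) (nat_lit 0) (p (nat_lit 0x18012) (nat_lit 0) pn))))))))))))))))))))))))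 :=
  Cl.node (nat_lit 0x111) (nat_lit 2) (by decide +kernel) (ClAll.succ (ClAll.succ ClAll.zero s4) s5)

def n47 : Cl (O (nat_lit 4)) (R (nat_lit 135377))
    (p (nat_lit 0xc9) (nat_lit 0) (p (nat_lit 0xc1) (nat_lit 0) (p (nat_lit 0x81) (nat_lit 1) (p (nat_lit 0x101) (nat_lit 1) (p (nat_lit 0x119) (nat_lit 0) (p (nat_lit 0xd1) (nat_lit 0) (p (nat_lit 0x89) (nat_lit 0) (p (nat_lit 0x41) (nat_lit 0) (p (nat_lit 0x109080787089a) (nat_lit 0) (p (nat_lit 0x108878706861a) (nat_lit 0) (p (nat_lit 0x8000000000000080686078a) (nat_lit 0) (p (nat_lit 0x8000000000000078605850a) (nat_lit 0) (p (nat_lit 0x10605850682) (nat_lit 0) (p (nat_lit 0x10585048402) (nat_lit 0) (p (nat_lit 0x16000c) (nat_lit 0) (p (nat_lit 0x160004) (nat_lit 0) (p (nat_lit 0x60592) (nat_lit 0) (p (nat_lit 0x48512) (nat_lit 0) (p (nat_lit 0x50392) (nat_lit 0) (p (nat_lit 0x38312) (nat_lit 0) (p (nat_lit 0x40212) (nat_lit 0) (p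 (nat_lit 0x28192) (nat_lit 0) (p (nat_lit 0x30092) (nat_lit 0) (p (nat_lit 0x18012) (nat_lit 0) pn)))))))))))))))))))))))) :=
  Cl.node (nat_lit 0x200014) (nat_lit 2) (by decide +kernel) (ClAll.succ (ClAll.succ ClAll.zero s7) n27)

def n48 : Cl (O (nat_lit 4)) (R (nat_lit 135377))
    (p (nat_lit 0xc9) (nat_lit 1) (p (nat_lit 0xc1) (nat_lit 0) (p (nat_lit 0x81) (nat_lit 1) (p (nat_lit 0x101) (nat_lit 1) (p (nat_lit 0x119) (nat_lit 0) (p (nat_lit 0xd1) (nat_lit 0) (p (nat_lit 0x89) (nat_lit 0) (p (nat_lit 0x41) (nat_lit 0) (p (nat_lit 0x109080787089a) (nat_lit 0) (p (nat_lit 0x108878706861a) (nat_lit 0) (p (nat_lit 0x8000000000000080686078a) (nat_lit 0) (p (nat_lit 0x8000000000000078605850a) (nat_lit 0) (p (nat_lit 0x10605850682) (nat_lit 0) (p (nat_lit 0x10585048402) (nat_lit 0) (p (nat_lit 0x16000c) (nat_lit 0) (p (nat_lit 0x160004) (nat_lit 0) (p (nat_lit 0x60592) (nat_lit 0) (p (nat_lit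 0x48512) (nat_lit 0) (p (nat_lit 0x50392) (nat_lit 0) (p (nat_lit 0x38312) (nat_lit 0) (p (nat_lit 0x40212) (nat_lit 0) (p (nat_lit 0x28192) (nat_lit 0) (p (nat_lit 0x30092) (nat_lit 0) (p (nat_lit 0x18012) (nat_lit 0) pn)))))))))))))))))))))))) :=
  Cl.node (nat_lit 0x200014) (nat_lit 2) (by decide +kernel) (ClAll.succ (ClAll.succ ClAll.zero n28) n29)

def n49 : Cl (O (nat_lit 4)) (R (nat_lit 135377))
    (p (nat_lit 0x200014) (nat_lit 1) (p (nat_lit 0xc1) (nat_lit 1) (p (nat_lit 0x81) (nat_lit 1) (p (nat_lit 0x101) (nat_lit 1) (p (nat_lit 0x119) (nat_lit 0) (p (nat_lit 0xd1) (nat_lit 0) (p (nat_lit 0x89) (nat_lit 0) (p (nat_lit 0x41) (nat_lit 0) (p (nat_lit 0x109080787089a) (nat_lit 0) (p (nat_lit 0x108878706861a) (nat_lit 0) (p (nat_lit 0x8000000000000080686078a) (nat_lit 0) (p (nat_lit 0x8000000000000078605850a) (nat_lit 0) (p (nat_lit 0x10605850682) (nat_lit 0) (p (nat_lit 0x10585048402)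 (nat_lit 0) (p (nat_lit 0x16000c) (nat_lit 0) (p (nat_lit 0x160004) (nat_lit 0) (p (nat_lit 0x60592) (nat_lit 0) (p (nat_lit 0x48512) (nat_lit 0) (p (nat_lit 0x50392) (nat_lit 0) (p (nat_lit 0x38312) (nat_lit 0) (p (nat_lit 0x40212) (nat_lit 0) (p (nat_lit 0x28192) (nat_lit 0) (p (nat_lit 0x30092) (nat_lit 0) (p (nat_lit 0x18012) (nat_lit 0) pn)))))))))))))))))))))))) :=
  Cl.node (nat_lit 0xb0004) (nat_lit 2) (by decide +kernel) (ClAll.succ (ClAll.succ ClAll.zero n30) s26)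

def n50 : Cl (O (nat_lit 4)) (R (nat_lit 135377))
    (p (nat_lit 0x109) (nat_lit 0) (p (nat_lit 0x101) (nat_lit 0) (p (nat_lit 0x81) (nat_lit 1) (p (nat_lit 0xc1) (nat_lit 1) (p (nat_lit 0x119) (nat_lit 1) (p (nat_lit 0xd1) (nat_lit 0) (p (nat_lit 0x89) (nat_lit 0) (p (nat_lit 0x41) (nat_lit 0) (p (nat_lit 0x109080787089a) (nat_lit 0) (p (nat_lit 0x108878706861a) (nat_lit 0) (p (nat_lit 0x8000000000000080686078a) (nat_lit 0) (p (nat_lit 0x8000000000000078605850a) (nat_lit 0) (p (nat_lit 0x10605850682) (nat_lit 0) (p (nat_lit 0x10585048402) (nat_lit 0) (p (nat_lit 0x16000c) (nat_lit 0) (p (nat_lit 0x160004) (nat_lit 0) (p (nat_lit 0x60592) (nat_lit 0) (p (nat_lit 0x48512) (nat_lit 0) (p (nat_lit 0x50392) (nat_lit 0) (p (nat_lit 0x38312) (nat_lit 0) (p (nat_lit 0x40212) (nat_lit 0) (p (nat_lit 0x28192) (nat_lit 0) (p (nat_lit 0x30092) (nat_lit 0) (p (nat_lit 0x18012) (nat_lit 0) pn))))))))))))))))))))))))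 :=
  Cl.node (nat_lit 0x200014) (nat_lit 2) (by decide +kernel) (ClAll.succ (ClAll.succ ClAll.zero s34) n31)

def n51 : Cl (O (nat_lit 4)) (R (nat_lit 135377))
    (p (nat_lit 0x109) (nat_lit 1) (p (nat_lit 0x101) (nat_lit 0) (p (nat_lit 0x81) (nat_lit 1) (p (nat_lit 0xc1) (nat_lit 1) (p (nat_lit 0x119) (nat_lit 1) (p (nat_lit 0xd1) (nat_lit 0) (p (nat_lit 0x89) (nat_lit 0) (p (nat_lit 0x41) (nat_lit 0) (p (nat_lit 0x109080787089a) (nat_lit 0) (p (nat_lit 0x108878706861a) (nat_lit 0) (p (nat_lit 0x8000000000000080686078a) (nat_lit 0) (p (nat_lit 0x8000000000000078605850a) (nat_lit 0) (p (nat_lit 0x10605850682) (nat_lit 0) (p (nat_lit 0x10585048402) (nat_lit 0) (p (nat_lit 0x16000c) (nat_lit 0) (p (nat_lit 0x160004) (nat_lit 0) (p (nat_lit 0x60592) (nat_lit 0) (p (nat_lit 0x48512) (nat_lit 0) (p (nat_lit 0x50392) (nat_lit 0) (p (nat_lit 0x38312) (nat_lit 0) (p (nat_lit 0x40212) (nat_lit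 0) (p (nat_lit 0x28192) (nat_lit 0) (p (nat_lit 0x30092) (nat_lit 0) (p (nat_lit 0x18012) (nat_lit 0) pn)))))))))))))))))))))))) :=
  Cl.node (nat_lit 0x200014) (nat_lit 2) (by decide +kernel) (ClAll.succ (ClAll.succ ClAll.zero n32) n33)

def n52 : Cl (O (nat_lit 4)) (R (nat_lit 135377))
    (p (nat_lit 0x200014) (nat_lit 0) (p (nat_lit 0x101) (nat_lit 1) (p (nat_lit 0x81) (nat_lit 1) (p (nat_lit 0xc1) (nat_lit 1) (p (nat_lit 0x119) (nat_lit 1) (p (nat_lit 0xd1) (nat_lit 0) (p (nat_lit 0x89) (nat_lit 0) (p (nat_lit 0x41) (nat_lit 0) (p (nat_lit 0x109080787089a) (nat_lit 0) (p (nat_lit 0x108878706861a) (nat_lit 0) (p (nat_lit 0x8000000000000080686078a) (nat_lit 0) (p (nat_lit 0x8000000000000078605850a) (nat_lit 0) (p (nat_lit 0x10605850682) (nat_lit 0) (p (nat_lit 0x10585048402) (nat_lit 0) (p (nat_lit 0x16000c) (nat_lit 0) (p (nat_lit 0x160004) (nat_lit 0) (p (nat_lit 0x60592) (nat_lit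 0) (p (nat_lit 0x48512) (nat_lit 0) (p (nat_lit 0x50392) (nat_lit 0) (p (nat_lit 0x38312) (nat_lit 0) (p (nat_lit 0x40212) (nat_lit 0) (p (nat_lit 0x28192) (nat_lit 0) (p (nat_lit 0x30092) (nat_lit 0) (p (nat_lit 0x18012) (nat_lit 0) pn)))))))))))))))))))))))) :=
  Cl.node (nat_lit 0xb0004) (nat_lit 2) (by decide +kernel) (ClAll.succ (ClAll.succ ClAll.zero n34) s47)

def n53 : Cl (O (nat_lit 4)) (R (nat_lit 135377))
    (p (nat_lit 0x200014) (nat_lit 1) (p (nat_lit 0x101) (nat_lit 1) (p (nat_lit 0x81) (nat_lit 1) (p (nat_lit 0xc1) (nat_lit 1) (p (nat_lit 0x119) (nat_lit 1) (p (nat_lit 0xd1) (nat_lit 0) (p (nat_lit 0x89) (nat_lit 0) (p (nat_lit 0x41) (nat_lit 0) (p (nat_lit 0x109080787089a) (nat_lit 0) (p (nat_lit 0x108878706861a) (nat_lit 0) (p (nat_lit 0x8000000000000080686078a) (nat_lit 0) (p (nat_lit 0x8000000000000078605850a) (nat_lit 0) (p (nat_lit 0x10605850682) (nat_lit 0) (p (nat_lit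 0x10585048402) (nat_lit 0) (p (nat_lit 0x16000c) (nat_lit 0) (p (nat_lit 0x160004) (nat_lit 0) (p (nat_lit 0x60592) (nat_lit 0) (p (nat_lit 0x48512) (nat_lit 0) (p (nat_lit 0x50392) (nat_lit 0) (p (nat_lit 0x38312) (nat_lit 0) (p (nat_lit 0x40212) (nat_lit 0) (p (nat_lit 0x28192) (nat_lit 0) (p (nat_lit 0x30092) (nat_lit 0) (p (nat_lit 0x18012) (nat_lit 0) pn)))))))))))))))))))))))) :=
  Cl.node (nat_lit 0xb0004) (nat_lit 2) (by decide +kernel) (ClAll.succ (ClAll.succ ClAll.zero n35) s52)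

def n54 : Cl (O (nat_lit 4)) (R (nat_lit 135377))
    (p (nat_lit 0x200014) (nat_lit 0) (p (nat_lit 0xc1) (nat_lit 0) (p (nat_lit 0x81) (nat_lit 1) (p (nat_lit 0x101) (nat_lit 1) (p (nat_lit 0x111) (nat_lit 0) (p (nat_lit 0xd1) (nat_lit 1) (p (nat_lit 0x89) (nat_lit 0) (p (nat_lit 0x41) (nat_lit 0) (p (nat_lit 0x109080787089a) (nat_lit 0) (p (nat_lit 0x108878706861a) (nat_lit 0) (p (nat_lit 0x8000000000000080686078a) (nat_lit 0) (p (nat_lit 0x8000000000000078605850a) (nat_lit 0) (p (nat_lit 0x10605850682) (nat_lit 0) (p (nat_lit 0x10585048402) (nat_lit 0) (p (nat_lit 0x16000c) (nat_lit 0) (p (nat_lit 0x160004) (nat_lit 0) (p (nat_lit 0x60592) (nat_lit 0) (p (nat_lit 0x48512) (nat_lit 0) (p (nat_lit 0x50392) (nat_lit 0) (p (nat_lit 0x38312) (nat_lit 0) (p (nat_lit 0x40212) (nat_lit 0) (p (nat_lit 0x28192) (nat_lit 0) (p (nat_lit 0x30092) (nat_lit 0) (p (nat_lit 0x18012) (nat_lit 0) pn))))))))))))))))))))))))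 :=
  Cl.node (nat_lit 0x119) (nat_lit 2) (by decide +kernel) (ClAll.succ (ClAll.succ ClAll.zero s55) s56)

def n55 : Cl (O (nat_lit 4)) (R (nat_lit 135377))
    (p (nat_lit 0x200014) (nat_lit 1) (p (nat_lit 0xd1) (nat_lit 1) (p (nat_lit 0x109) (nat_lit 1) (p (nat_lit 0x101) (nat_lit 0) (p (nat_lit 0x119) (nat_lit 0) (p (nat_lit 0xc9) (nat_lit 0) (p (nat_lit 0x89) (nat_lit 1) (p (nat_lit 0x41) (nat_lit 0) (p (nat_lit 0x109080787089a) (nat_lit 0) (p (nat_lit 0x108878706861a) (nat_lit 0) (p (nat_lit 0x8000000000000080686078a) (nat_lit 0) (p (nat_lit 0x8000000000000078605850a) (nat_lit 0) (p (nat_lit 0x10605850682) (nat_lit 0) (p (nat_lit 0x10585048402) (nat_lit 0) (p (nat_lit 0x16000c) (nat_lit 0) (p (nat_lit 0x160004) (nat_lit 0) (p (nat_lit 0x60592) (nat_lit 0) (p (nat_lit 0x48512) (nat_lit 0) (p (nat_lit 0x50392) (nat_lit 0) (p (nat_lit 0x38312) (nat_lit 0) (p (nat_lit 0x40212) (nat_lit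 0) (p (nat_lit 0x28192) (nat_lit 0) (p (nat_lit 0x30092) (nat_lit 0) (p (nat_lit 0x18012) (nat_lit 0) pn)))))))))))))))))))))))) :=
  Cl.node (nat_lit 0xb0004) (nat_lit 2) (by decide +kernel) (ClAll.succ (ClAll.succ ClAll.zero n36) s69)

def n56 : Cl (O (nat_lit 4)) (R (nat_lit 135377))
    (p (nat_lit 0x200014) (nat_lit 1) (p (nat_lit 0xd1) (nat_lit 0) (p (nat_lit 0xc1) (nat_lit 0) (p (nat_lit 0x101) (nat_lit 1) (p (nat_lit 0x119) (nat_lit 0) (p (nat_lit 0xc9) (nat_lit 0) (p (nat_lit 0x89) (nat_lit 1) (p (nat_lit 0x41) (nat_lit 0) (p (nat_lit 0x109080787089a) (nat_lit 0) (p (nat_lit 0x108878706861a) (nat_lit 0) (p (nat_lit 0x8000000000000080686078a) (nat_lit 0) (p (nat_lit 0x8000000000000078605850a) (nat_lit 0) (p (nat_lit 0x10605850682) (nat_lit 0) (p (nat_lit 0x10585048402) (nat_lit 0) (p (nat_lit 0x16000c) (nat_lit 0) (p (nat_lit 0x160004) (nat_lit 0) (p (nat_lit 0x60592) (nat_lit 0)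 (p (nat_lit 0x48512) (nat_lit 0) (p (nat_lit 0x50392) (nat_lit 0) (p (nat_lit 0x38312) (nat_lit 0) (p (nat_lit 0x40212) (nat_lit 0) (p (nat_lit 0x28192) (nat_lit 0) (p (nat_lit 0x30092) (nat_lit 0) (p (nat_lit 0x18012) (nat_lit 0) pn)))))))))))))))))))))))) :=
  Cl.node (nat_lit 0xb0004) (nat_lit 2) (by decide +kernel) (ClAll.succ (ClAll.succ ClAll.zero n37) s74)

def n57 : Cl (O (nat_lit 4)) (R (nat_lit 135377))
    (p (nat_lit 0x200014) (nat_lit 1) (p (nat_lit 0xd1) (nat_lit 1) (p (nat_lit 0xc1) (nat_lit 0) (p (nat_lit 0x101) (nat_lit 1) (p (nat_lit 0x119) (nat_lit 0) (p (nat_lit 0xc9) (nat_lit 0) (p (nat_lit 0x89) (nat_lit 1) (p (nat_lit 0x41) (nat_lit 0) (p (nat_lit 0x109080787089a) (nat_lit 0) (p (nat_lit 0x108878706861a) (nat_lit 0) (p (nat_lit 0x8000000000000080686078a) (nat_lit 0) (p (nat_lit 0x8000000000000078605850a) (nat_lit 0) (p (nat_lit 0x10605850682) (nat_lit 0) (p (nat_lit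 0x10585048402) (nat_lit 0) (p (nat_lit 0x16000c) (nat_lit 0) (p (nat_lit 0x160004) (nat_lit 0) (p (nat_lit 0x60592) (nat_lit 0) (p (nat_lit 0x48512) (nat_lit 0) (p (nat_lit 0x50392) (nat_lit 0) (p (nat_lit 0x38312) (nat_lit 0) (p (nat_lit 0x40212) (nat_lit 0) (p (nat_lit 0x28192) (nat_lit 0) (p (nat_lit 0x30092) (nat_lit 0) (p (nat_lit 0x18012) (nat_lit 0) pn)))))))))))))))))))))))) :=
  Cl.node (nat_lit 0xb0004) (nat_lit 2) (by decide +kernel) (ClAll.succ (ClAll.succ ClAll.zero n38) s79)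

def n58 : Cl (O (nat_lit 4)) (R (nat_lit 135377))
    (p (nat_lit 0xc9) (nat_lit 0) (p (nat_lit 0x89) (nat_lit 1) (p (nat_lit 0x109) (nat_lit 1) (p (nat_lit 0x101) (nat_lit 0) (p (nat_lit 0x119) (nat_lit 0) (p (nat_lit 0xd1) (nat_lit 0) (p (nat_lit 0x81) (nat_lit 0) (p (nat_lit 0x41) (nat_lit 1) (p (nat_lit 0x109080787089a) (nat_lit 0) (p (nat_lit 0x108878706861a) (nat_lit 0) (p (nat_lit 0x8000000000000080686078a) (nat_lit 0) (p (nat_lit 0x8000000000000078605850a) (nat_lit 0) (p (nat_lit 0x10605850682) (nat_lit 0) (p (nat_lit 0x10585048402) (nat_lit 0) (p (nat_lit 0x16000c) (nat_lit 0) (p (nat_lit 0x160004) (nat_lit 0) (p (nat_lit 0x60592) (nat_lit 0) (p (nat_lit 0x48512) (nat_lit 0) (p (nat_lit 0x50392) (nat_lit 0) (p (nat_lit 0x38312) (nat_lit 0) (p (nat_lit 0x40212) (nat_lit 0) (p (nat_lit 0x28192) (nat_lit 0) (p (nat_lit 0x30092) (nat_lit 0) (p (nat_lit 0x18012) (nat_lit 0) pn))))))))))))))))))))))))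 :=
  Cl.node (nat_lit 0x200014) (nat_lit 2) (by decide +kernel) (ClAll.succ (ClAll.succ ClAll.zero s98) n39)

def n59 : Cl (O (nat_lit 4)) (R (nat_lit 135377))
    (p (nat_lit 0xc9) (nat_lit 0) (p (nat_lit 0x89) (nat_lit 1) (p (nat_lit 0xc1) (nat_lit 0) (p (nat_lit 0x101) (nat_lit 1) (p (nat_lit 0x119) (nat_lit 0) (p (nat_lit 0xd1) (nat_lit 0) (p (nat_lit 0x81) (nat_lit 0) (p (nat_lit 0x41) (nat_lit 1) (p (nat_lit 0x109080787089a) (nat_lit 0) (p (nat_lit 0x108878706861a) (nat_lit 0) (p (nat_lit 0x8000000000000080686078a) (nat_lit 0) (p (nat_lit 0x8000000000000078605850a) (nat_lit 0) (p (nat_lit 0x10605850682) (nat_lit 0) (p (nat_lit 0x10585048402) (nat_lit 0) (p (nat_lit 0x16000c) (nat_lit 0) (p (nat_lit 0x160004) (nat_lit 0) (p (nat_lit 0x60592) (nat_lit 0) (p (nat_lit 0x48512) (nat_lit 0) (p (nat_lit 0x50392) (nat_lit 0) (p (nat_lit 0x38312) (nat_lit 0) (p (nat_lit 0x40212) (nat_lit 0)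 (p (nat_lit 0x28192) (nat_lit 0) (p (nat_lit 0x30092) (nat_lit 0) (p (nat_lit 0x18012) (nat_lit 0) pn)))))))))))))))))))))))) :=
  Cl.node (nat_lit 0x200014) (nat_lit 2) (by decide +kernel) (ClAll.succ (ClAll.succ ClAll.zero s105) s106)

def n60 : Cl (O (nat_lit 4)) (R (nat_lit 135377))
    (p (nat_lit 0xc9) (nat_lit 1) (p (nat_lit 0x89) (nat_lit 1) (p (nat_lit 0xc1) (nat_lit 0) (p (nat_lit 0x101) (nat_lit 1) (p (nat_lit 0x119) (nat_lit 0) (p (nat_lit 0xd1) (nat_lit 0) (p (nat_lit 0x81) (nat_lit 0) (p (nat_lit 0x41) (nat_lit 1) (p (nat_lit 0x109080787089a) (nat_lit 0) (p (nat_lit 0x108878706861a) (nat_lit 0) (p (nat_lit 0x8000000000000080686078a) (nat_lit 0) (p (nat_lit 0x8000000000000078605850a) (nat_lit 0) (p (nat_lit 0x10605850682) (nat_lit 0) (p (nat_lit 0x10585048402) (nat_lit 0) (p (nat_lit 0x16000c) (nat_lit 0) (p (nat_lit 0x160004) (nat_lit 0) (p (nat_lit 0x60592) (nat_lit 0) (p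 (nat_lit 0x48512) (nat_lit 0) (p (nat_lit 0x50392) (nat_lit 0) (p (nat_lit 0x38312) (nat_lit 0) (p (nat_lit 0x40212) (nat_lit 0) (p (nat_lit 0x28192) (nat_lit 0) (p (nat_lit 0x30092) (nat_lit 0) (p (nat_lit 0x18012) (nat_lit 0) pn)))))))))))))))))))))))) :=
  Cl.node (nat_lit 0x200014) (nat_lit 2) (by decide +kernel) (ClAll.succ (ClAll.succ ClAll.zero s107) n40)

def n61 : Cl (O (nat_lit 4)) (R (nat_lit 135377))
    (p (nat_lit 0x200014) (nat_lit 1) (p (nat_lit 0x89) (nat_lit 1) (p (nat_lit 0xc1) (nat_lit 1) (p (nat_lit 0x101) (nat_lit 1) (p (nat_lit 0x119) (nat_lit 0) (p (nat_lit 0xd1) (nat_lit 0) (p (nat_lit 0x81) (nat_lit 0) (p (nat_lit 0x41) (nat_lit 1) (p (nat_lit 0x109080787089a) (nat_lit 0) (p (nat_lit 0x108878706861a) (nat_lit 0) (p (nat_lit 0x8000000000000080686078a) (nat_lit 0) (p (nat_lit 0x8000000000000078605850a) (nat_lit 0) (p (nat_lit 0x10605850682) (nat_lit 0) (p (nat_lit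 0x10585048402) (nat_lit 0) (p (nat_lit 0x16000c) (nat_lit 0) (p (nat_lit 0x160004) (nat_lit 0) (p (nat_lit 0x60592) (nat_lit 0) (p (nat_lit 0x48512) (nat_lit 0) (p (nat_lit 0x50392) (nat_lit 0) (p (nat_lit 0x38312) (nat_lit 0) (p (nat_lit 0x40212) (nat_lit 0) (p (nat_lit 0x28192) (nat_lit 0) (p (nat_lit 0x30092) (nat_lit 0) (p (nat_lit 0x18012) (nat_lit 0) pn)))))))))))))))))))))))) :=
  Cl.node (nat_lit 0xb0004) (nat_lit 2) (by decide +kernel) (ClAll.succ (ClAll.succ ClAll.zero n41) s118)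

def n62 : Cl (O (nat_lit 4)) (R (nat_lit 135377))
    (p (nat_lit 0x109) (nat_lit 0) (p (nat_lit 0x89) (nat_lit 1) (p (nat_lit 0xc9) (nat_lit 1) (p (nat_lit 0xc1) (nat_lit 0) (p (nat_lit 0x119) (nat_lit 1) (p (nat_lit 0xd1) (nat_lit 0) (p (nat_lit 0x81) (nat_lit 0) (p (nat_lit 0x41) (nat_lit 1) (p (nat_lit 0x109080787089a) (nat_lit 0) (p (nat_lit 0x108878706861a) (nat_lit 0) (p (nat_lit 0x8000000000000080686078a) (nat_lit 0) (p (nat_lit 0x8000000000000078605850a) (nat_lit 0) (p (nat_lit 0x10605850682) (nat_lit 0) (p (nat_lit 0x10585048402) (nat_lit 0) (p (nat_lit 0x16000c) (nat_lit 0) (p (nat_lit 0x160004) (nat_lit 0) (p (nat_lit 0x60592) (nat_lit 0) (p (nat_lit 0x48512) (nat_lit 0) (p (nat_lit 0x50392) (nat_lit 0) (p (nat_lit 0x38312) (nat_lit 0) (p (nat_lit 0x40212) (nat_lit 0) (p (nat_lit 0x28192) (nat_lit 0) (p (nat_lit 0x30092) (nat_lit 0) (p (nat_lit 0x18012) (nat_lit 0) pn))))))))))))))))))))))))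 :=
  Cl.node (nat_lit 0x200014) (nat_lit 2) (by decide +kernel) (ClAll.succ (ClAll.succ ClAll.zero s121) s122)

def n63 : Cl (O (nat_lit 4)) (R (nat_lit 135377))
    (p (nat_lit 0x109) (nat_lit 1) (p (nat_lit 0x89) (nat_lit 1) (p (nat_lit 0xc9) (nat_lit 1) (p (nat_lit 0xc1) (nat_lit 0) (p (nat_lit 0x119) (nat_lit 1) (p (nat_lit 0xd1) (nat_lit 0) (p (nat_lit 0x81) (nat_lit 0) (p (nat_lit 0x41) (nat_lit 1) (p (nat_lit 0x109080787089a) (nat_lit 0) (p (nat_lit 0x108878706861a) (nat_lit 0) (p (nat_lit 0x8000000000000080686078a) (nat_lit 0) (p (nat_lit 0x8000000000000078605850a) (nat_lit 0) (p (nat_lit 0x10605850682) (nat_lit 0) (p (nat_lit 0x10585048402) (nat_lit 0) (p (nat_lit 0x16000c) (nat_lit 0) (p (nat_lit 0x160004) (nat_lit 0) (p (nat_lit 0x60592) (nat_lit 0) (p (nat_lit 0x48512) (nat_lit 0) (p (nat_lit 0x50392) (nat_lit 0) (p (nat_lit 0x38312) (nat_lit 0) (p (nat_lit 0x40212) (nat_lit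 0) (p (nat_lit 0x28192) (nat_lit 0) (p (nat_lit 0x30092) (nat_lit 0) (p (nat_lit 0x18012) (nat_lit 0) pn)))))))))))))))))))))))) :=
  Cl.node (nat_lit 0x200014) (nat_lit 2) (by decide +kernel) (ClAll.succ (ClAll.succ ClAll.zero n42) s125)

def n64 : Cl (O (nat_lit 4)) (R (nat_lit 135377))
    (p (nat_lit 0x109) (nat_lit 1) (p (nat_lit 0x89) (nat_lit 1) (p (nat_lit 0x101) (nat_lit 0) (p (nat_lit 0xc1) (nat_lit 1) (p (nat_lit 0x119) (nat_lit 1) (p (nat_lit 0xd1) (nat_lit 0) (p (nat_lit 0x81) (nat_lit 0) (p (nat_lit 0x41) (nat_lit 1) (p (nat_lit 0x109080787089a) (nat_lit 0) (p (nat_lit 0x108878706861a) (nat_lit 0) (p (nat_lit 0x8000000000000080686078a) (nat_lit 0) (p (nat_lit 0x8000000000000078605850a) (nat_lit 0) (p (nat_lit 0x10605850682) (nat_lit 0) (p (nat_lit 0x10585048402) (nat_lit 0) (p (nat_lit 0x16000c) (nat_lit 0) (p (nat_lit 0x160004) (nat_lit 0) (p (nat_lit 0x60592) (nat_lit 0)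 (p (nat_lit 0x48512) (nat_lit 0) (p (nat_lit 0x50392) (nat_lit 0) (p (nat_lit 0x38312) (nat_lit 0) (p (nat_lit 0x40212) (nat_lit 0) (p (nat_lit 0x28192) (nat_lit 0) (p (nat_lit 0x30092) (nat_lit 0) (p (nat_lit 0x18012) (nat_lit 0) pn)))))))))))))))))))))))) :=
  Cl.node (nat_lit 0x200014) (nat_lit 2) (by decide +kernel) (ClAll.succ (ClAll.succ ClAll.zero s128) n43)

def n65 : Cl (O (nat_lit 4)) (R (nat_lit 135377))
    (p (nat_lit 0x200014) (nat_lit 0) (p (nat_lit 0x89) (nat_lit 1) (p (nat_lit 0x101) (nat_lit 1) (p (nat_lit 0xc1) (nat_lit 1) (p (nat_lit 0x119) (nat_lit 1) (p (nat_lit 0xd1) (nat_lit 0) (p (nat_lit 0x81) (nat_lit 0) (p (nat_lit 0x41) (nat_lit 1) (p (nat_lit 0x109080787089a) (nat_lit 0) (p (nat_lit 0x108878706861a) (nat_lit 0) (p (nat_lit 0x8000000000000080686078a) (nat_lit 0) (p (nat_lit 0x8000000000000078605850a) (nat_lit 0) (p (nat_lit 0x10605850682) (nat_lit 0) (p (nat_lit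 0x10585048402) (nat_lit 0) (p (nat_lit 0x16000c) (nat_lit 0) (p (nat_lit 0x160004) (nat_lit 0) (p (nat_lit 0x60592) (nat_lit 0) (p (nat_lit 0x48512) (nat_lit 0) (p (nat_lit 0x50392) (nat_lit 0) (p (nat_lit 0x38312) (nat_lit 0) (p (nat_lit 0x40212) (nat_lit 0) (p (nat_lit 0x28192) (nat_lit 0) (p (nat_lit 0x30092) (nat_lit 0) (p (nat_lit 0x18012) (nat_lit 0) pn)))))))))))))))))))))))) :=
  Cl.node (nat_lit 0xb0004) (nat_lit 2) (by decide +kernel) (ClAll.succ (ClAll.succ ClAll.zero n44) s136)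

def n66 : Cl (O (nat_lit 4)) (R (nat_lit 135377))
    (p (nat_lit 0x200014) (nat_lit 1) (p (nat_lit 0x89) (nat_lit 1) (p (nat_lit 0x101) (nat_lit 1) (p (nat_lit 0xc1) (nat_lit 1) (p (nat_lit 0x119) (nat_lit 1) (p (nat_lit 0xd1) (nat_lit 0) (p (nat_lit 0x81) (nat_lit 0) (p (nat_lit 0x41) (nat_lit 1) (p (nat_lit 0x109080787089a) (nat_lit 0) (p (nat_lit 0x108878706861a) (nat_lit 0) (p (nat_lit 0x8000000000000080686078a) (nat_lit 0) (p (nat_lit 0x8000000000000078605850a) (nat_lit 0) (p (nat_lit 0x10605850682) (nat_lit 0) (p (nat_lit 0x10585048402) (nat_lit 0) (p (nat_lit 0x16000c) (nat_lit 0) (p (nat_lit 0x160004) (nat_lit 0) (p (nat_lit 0x60592) (nat_lit 0) (p (nat_lit 0x48512) (nat_lit 0) (p (nat_lit 0x50392) (nat_lit 0) (p (nat_lit 0x38312) (nat_lit 0) (p (nat_lit 0x40212) (nat_lit 0) (p (nat_lit 0x28192) (nat_lit 0) (p (nat_lit 0x30092) (nat_lit 0) (p (nat_lit 0x18012) (nat_lit 0) pn))))))))))))))))))))))))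 :=
  Cl.node (nat_lit 0xb0004) (nat_lit 2) (by decide +kernel) (ClAll.succ (ClAll.succ ClAll.zero n45) s140)

def n67 : Cl (O (nat_lit 4)) (R (nat_lit 135377))
    (p (nat_lit 0xc9) (nat_lit 0) (p (nat_lit 0x89) (nat_lit 1) (p (nat_lit 0x109) (nat_lit 1) (p (nat_lit 0x101) (nat_lit 0) (p (nat_lit 0x111) (nat_lit 0) (p (nat_lit 0xd1) (nat_lit 1) (p (nat_lit 0x81) (nat_lit 0) (p (nat_lit 0x41) (nat_lit 1) (p (nat_lit 0x109080787089a) (nat_lit 0) (p (nat_lit 0x108878706861a) (nat_lit 0) (p (nat_lit 0x8000000000000080686078a) (nat_lit 0) (p (nat_lit 0x8000000000000078605850a) (nat_lit 0) (p (nat_lit 0x10605850682) (nat_lit 0) (p (nat_lit 0x10585048402) (nat_lit 0) (p (nat_lit 0x16000c) (nat_lit 0) (p (nat_lit 0x160004) (nat_lit 0) (p (nat_lit 0x60592) (nat_lit 0) (p (nat_lit 0x48512) (nat_lit 0) (p (nat_lit 0x50392) (nat_lit 0) (p (nat_lit 0x38312) (nat_lit 0) (p (nat_lit 0x40212) (nat_lit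 0) (p (nat_lit 0x28192) (nat_lit 0) (p (nat_lit 0x30092) (nat_lit 0) (p (nat_lit 0x18012) (nat_lit 0) pn)))))))))))))))))))))))) :=
  Cl.node (nat_lit 0x200014) (nat_lit 2) (by decide +kernel) (ClAll.succ (ClAll.succ ClAll.zero s143) s144)

def n68 : Cl (O (nat_lit 4)) (R (nat_lit 135377))
    (p (nat_lit 0x200014) (nat_lit 0) (p (nat_lit 0x109) (nat_lit 1) (p (nat_lit 0xc9) (nat_lit 1) (p (nat_lit 0x89) (nat_lit 1) (p (nat_lit 0x111) (nat_lit 1) (p (nat_lit 0xd1) (nat_lit 1) (p (nat_lit 0x81) (nat_lit 0) (p (nat_lit 0x41) (nat_lit 1) (p (nat_lit 0x109080787089a) (nat_lit 0) (p (nat_lit 0x108878706861a) (nat_lit 0) (p (nat_lit 0x8000000000000080686078a) (nat_lit 0) (p (nat_lit 0x8000000000000078605850a) (nat_lit 0) (p (nat_lit 0x10605850682) (nat_lit 0) (p (nat_lit 0x10585048402) (nat_lit 0) (p (nat_lit 0x16000c) (nat_lit 0) (p (nat_lit 0x160004) (nat_lit 0) (p (nat_lit 0x60592) (nat_lit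 0) (p (nat_lit 0x48512) (nat_lit 0) (p (nat_lit 0x50392) (nat_lit 0) (p (nat_lit 0x38312) (nat_lit 0) (p (nat_lit 0x40212) (nat_lit 0) (p (nat_lit 0x28192) (nat_lit 0) (p (nat_lit 0x30092) (nat_lit 0) (p (nat_lit 0x18012) (nat_lit 0) pn)))))))))))))))))))))))) :=
  Cl.node (nat_lit 0xb0004) (nat_lit 2) (by decide +kernel) (ClAll.succ (ClAll.succ ClAll.zero s152) s153)

def n69 : Cl (O (nat_lit 4)) (R (nat_lit 135377))
    (p (nat_lit 0xc9) (nat_lit 0) (p (nat_lit 0x81) (nat_lit 0) (p (nat_lit 0x101) (nat_lit 1) (p (nat_lit 0x119) (nat_lit 0) (p (nat_lit 0xd1) (nat_lit 0) (p (nat_lit 0x89) (nat_lit 0) (p (nat_lit 0x41) (nat_lit 0) (p (nat_lit 0x109080787089a) (nat_lit 0) (p (nat_lit 0x108878706861a) (nat_lit 0) (p (nat_lit 0x8000000000000080686078a) (nat_lit 0) (p (nat_lit 0x8000000000000078605850a) (nat_lit 0) (p (nat_lit 0x10605850682) (nat_lit 0) (p (nat_lit 0x10585048402) (nat_lit 0)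 (p (nat_lit 0x16000c) (nat_lit 0) (p (nat_lit 0x160004) (nat_lit 0) (p (nat_lit 0x60592) (nat_lit 0) (p (nat_lit 0x48512) (nat_lit 0) (p (nat_lit 0x50392) (nat_lit 0) (p (nat_lit 0x38312) (nat_lit 0) (p (nat_lit 0x40212) (nat_lit 0) (p (nat_lit 0x28192) (nat_lit 0) (p (nat_lit 0x30092) (nat_lit 0) (p (nat_lit 0x18012) (nat_lit 0) pn))))))))))))))))))))))) :=
  Cl.node (nat_lit 0x200014) (nat_lit 2) (by decide +kernel) (ClAll.succ (ClAll.succ ClAll.zero s2) s3)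

def n70 : Cl (O (nat_lit 4)) (R (nat_lit 135377))
    (p (nat_lit 0xc9) (nat_lit 1) (p (nat_lit 0x81) (nat_lit 0) (p (nat_lit 0x101) (nat_lit 1) (p (nat_lit 0x119) (nat_lit 0) (p (nat_lit 0xd1) (nat_lit 0) (p (nat_lit 0x89) (nat_lit 0) (p (nat_lit 0x41) (nat_lit 0) (p (nat_lit 0x109080787089a) (nat_lit 0) (p (nat_lit 0x108878706861a) (nat_lit 0) (p (nat_lit 0x8000000000000080686078a) (nat_lit 0) (p (nat_lit 0x8000000000000078605850a) (nat_lit 0) (p (nat_lit 0x10605850682) (nat_lit 0) (p (nat_lit 0x10585048402) (nat_lit 0) (p (nat_lit 0x16000c) (nat_lit 0) (p (nat_lit 0x160004) (nat_lit 0) (p (nat_lit 0x60592) (nat_lit 0) (p (nat_lit 0x48512) (nat_lit 0) (p (nat_lit 0x50392) (nat_lit 0) (p (nat_lit 0x38312) (nat_lit 0) (p (nat_lit 0x40212) (nat_lit 0) (p (nat_lit 0x28192) (nat_lit 0) (p (nat_lit 0x30092) (nat_lit 0) (p (nat_lit 0x18012) (nat_lit 0) pn))))))))))))))))))))))) :=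
  Cl.node (nat_lit 0x200014) (nat_lit 2) (by decide +kernel) (ClAll.succ (ClAll.succ ClAll.zero n46) s6)

def n71 : Cl (O (nat_lit 4)) (R (nat_lit 135377))
    (p (nat_lit 0xc1) (nat_lit 0) (p (nat_lit 0x81) (nat_lit 1) (p (nat_lit 0x101) (nat_lit 1) (p (nat_lit 0x119) (nat_lit 0) (p (nat_lit 0xd1) (nat_lit 0) (p (nat_lit 0x89) (nat_lit 0) (p (nat_lit 0x41) (nat_lit 0) (p (nat_lit 0x109080787089a) (nat_lit 0) (p (nat_lit 0x108878706861a) (nat_lit 0) (p (nat_lit 0x8000000000000080686078a) (nat_lit 0) (p (nat_lit 0x8000000000000078605850a) (nat_lit 0) (p (nat_lit 0x10605850682) (nat_lit 0) (p (nat_lit 0x10585048402) (nat_lit 0) (p (nat_lit 0x16000c) (nat_lit 0) (p (nat_lit 0x160004) (nat_lit 0) (p (nat_lit 0x60592) (nat_lit 0) (p (nat_lit 0x48512) (nat_lit 0) (p (nat_lit 0x50392) (nat_lit 0) (p (nat_lit 0x38312) (nat_lit 0) (p (nat_lit 0x40212) (nat_lit 0) (p (nat_lit 0x28192) (nat_lit 0)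 (p (nat_lit 0x30092) (nat_lit 0) (p (nat_lit 0x18012) (nat_lit 0) pn))))))))))))))))))))))) :=
  Cl.node (nat_lit 0xc9) (nat_lit 2) (by decide +kernel) (ClAll.succ (ClAll.succ ClAll.zero n47) n48)

def n72 : Cl (O (nat_lit 4)) (R (nat_lit 135377))
    (p (nat_lit 0xc1) (nat_lit 1) (p (nat_lit 0x81) (nat_lit 1) (p (nat_lit 0x101) (nat_lit 1) (p (nat_lit 0x119) (nat_lit 0) (p (nat_lit 0xd1) (nat_lit 0) (p (nat_lit 0x89) (nat_lit 0) (p (nat_lit 0x41) (nat_lit 0) (p (nat_lit 0x109080787089a) (nat_lit 0) (p (nat_lit 0x108878706861a) (nat_lit 0) (p (nat_lit 0x8000000000000080686078a) (nat_lit 0) (p (nat_lit 0x8000000000000078605850a) (nat_lit 0) (p (nat_lit 0x10605850682) (nat_lit 0) (p (nat_lit 0x10585048402) (nat_lit 0) (p (nat_lit 0x16000c) (nat_lit 0) (p (nat_lit 0x160004) (nat_lit 0) (p (nat_lit 0x60592) (nat_lit 0) (p (nat_lit 0x48512) (nat_lit 0) (p (nat_lit 0x50392) (nat_lit 0) (p (nat_lit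 0x38312) (nat_lit 0) (p (nat_lit 0x40212) (nat_lit 0) (p (nat_lit 0x28192) (nat_lit 0) (p (nat_lit 0x30092) (nat_lit 0) (p (nat_lit 0x18012) (nat_lit 0) pn))))))))))))))))))))))) :=
  Cl.node (nat_lit 0x200014) (nat_lit 2) (by decide +kernel) (ClAll.succ (ClAll.succ ClAll.zero s21) n49)

def n73 : Cl (O (nat_lit 4)) (R (nat_lit 135377))
    (p (nat_lit 0x109) (nat_lit 1) (p (nat_lit 0xc9) (nat_lit 1) (p (nat_lit 0xc1) (nat_lit 0) (p (nat_lit 0x119) (nat_lit 1) (p (nat_lit 0xd1) (nat_lit 0) (p (nat_lit 0x89) (nat_lit 0) (p (nat_lit 0x41) (nat_lit 0) (p (nat_lit 0x109080787089a) (nat_lit 0) (p (nat_lit 0x108878706861a) (nat_lit 0) (p (nat_lit 0x8000000000000080686078a) (nat_lit 0) (p (nat_lit 0x8000000000000078605850a) (nat_lit 0) (p (nat_lit 0x10605850682) (nat_lit 0) (p (nat_lit 0x10585048402) (nat_lit 0) (p (nat_lit 0x16000c) (nat_lit 0) (p (nat_lit 0x160004) (nat_lit 0) (p (nat_lit 0x60592)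 (nat_lit 0) (p (nat_lit 0x48512) (nat_lit 0) (p (nat_lit 0x50392) (nat_lit 0) (p (nat_lit 0x38312) (nat_lit 0) (p (nat_lit 0x40212) (nat_lit 0) (p (nat_lit 0x28192) (nat_lit 0) (p (nat_lit 0x30092) (nat_lit 0) (p (nat_lit 0x18012) (nat_lit 0) pn))))))))))))))))))))))) :=
  Cl.node (nat_lit 0x200014) (nat_lit 2) (by decide +kernel) (ClAll.succ (ClAll.succ ClAll.zero s29) s30)

def n74 : Cl (O (nat_lit 4)) (R (nat_lit 135377))
    (p (nat_lit 0x109) (nat_lit 1) (p (nat_lit 0x81) (nat_lit 0) (p (nat_lit 0xc1) (nat_lit 1) (p (nat_lit 0x119) (nat_lit 1) (p (nat_lit 0xd1) (nat_lit 0) (p (nat_lit 0x89) (nat_lit 0) (p (nat_lit 0x41) (nat_lit 0) (p (nat_lit 0x109080787089a) (nat_lit 0) (p (nat_lit 0x108878706861a) (nat_lit 0) (p (nat_lit 0x8000000000000080686078a) (nat_lit 0) (p (nat_lit 0x8000000000000078605850a) (nat_lit 0) (p (nat_lit 0x10605850682) (nat_lit 0) (p (nat_lit 0x10585048402) (nat_lit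 0) (p (nat_lit 0x16000c) (nat_lit 0) (p (nat_lit 0x160004) (nat_lit 0) (p (nat_lit 0x60592) (nat_lit 0) (p (nat_lit 0x48512) (nat_lit 0) (p (nat_lit 0x50392) (nat_lit 0) (p (nat_lit 0x38312) (nat_lit 0) (p (nat_lit 0x40212) (nat_lit 0) (p (nat_lit 0x28192) (nat_lit 0) (p (nat_lit 0x30092) (nat_lit 0) (p (nat_lit 0x18012) (nat_lit 0) pn))))))))))))))))))))))) :=
  Cl.node (nat_lit 0x200014) (nat_lit 2) (by decide +kernel) (ClAll.succ (ClAll.succ ClAll.zero s32) s33)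

def n75 : Cl (O (nat_lit 4)) (R (nat_lit 135377))
    (p (nat_lit 0x101) (nat_lit 0) (p (nat_lit 0x81) (nat_lit 1) (p (nat_lit 0xc1) (nat_lit 1) (p (nat_lit 0x119) (nat_lit 1) (p (nat_lit 0xd1) (nat_lit 0) (p (nat_lit 0x89) (nat_lit 0) (p (nat_lit 0x41) (nat_lit 0) (p (nat_lit 0x109080787089a) (nat_lit 0) (p (nat_lit 0x108878706861a) (nat_lit 0) (p (nat_lit 0x8000000000000080686078a) (nat_lit 0) (p (nat_lit 0x8000000000000078605850a) (nat_lit 0) (p (nat_lit 0x10605850682) (nat_lit 0) (p (nat_lit 0x10585048402) (nat_lit 0) (p (nat_lit 0x16000c) (nat_lit 0) (p (nat_lit 0x160004) (nat_lit 0) (p (nat_lit 0x60592) (nat_lit 0) (p (nat_lit 0x48512) (nat_lit 0) (p (nat_lit 0x50392) (nat_lit 0) (p (nat_lit 0x38312) (nat_lit 0) (p (nat_lit 0x40212) (nat_lit 0) (p (nat_lit 0x28192) (nat_lit 0) (p (nat_lit 0x30092) (nat_lit 0) (p (nat_lit 0x18012) (nat_lit 0) pn))))))))))))))))))))))) :=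
  Cl.node (nat_lit 0x109) (nat_lit 2) (by decide +kernel) (ClAll.succ (ClAll.succ ClAll.zero n50) n51)

def n76 : Cl (O (nat_lit 4)) (R (nat_lit 135377))
    (p (nat_lit 0x101) (nat_lit 1) (p (nat_lit 0x81) (nat_lit 1) (p (nat_lit 0xc1) (nat_lit 1) (p (nat_lit 0x119) (nat_lit 1) (p (nat_lit 0xd1) (nat_lit 0) (p (nat_lit 0x89) (nat_lit 0) (p (nat_lit 0x41) (nat_lit 0) (p (nat_lit 0x109080787089a) (nat_lit 0) (p (nat_lit 0x108878706861a) (nat_lit 0) (p (nat_lit 0x8000000000000080686078a) (nat_lit 0) (p (nat_lit 0x8000000000000078605850a) (nat_lit 0) (p (nat_lit 0x10605850682) (nat_lit 0) (p (nat_lit 0x10585048402) (nat_lit 0) (p (nat_lit 0x16000c) (nat_lit 0) (p (nat_lit 0x160004) (nat_lit 0) (p (nat_lit 0x60592) (nat_lit 0) (p (nat_lit 0x48512) (nat_lit 0) (p (nat_lit 0x50392) (nat_lit 0) (p (nat_lit 0x38312) (nat_lit 0) (p (nat_lit 0x40212) (nat_lit 0) (p (nat_lit 0x28192) (nat_lit 0) (p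 (nat_lit 0x30092) (nat_lit 0) (p (nat_lit 0x18012) (nat_lit 0) pn))))))))))))))))))))))) :=
  Cl.node (nat_lit 0x200014) (nat_lit 2) (by decide +kernel) (ClAll.succ (ClAll.succ ClAll.zero n52) n53)

def n77 : Cl (O (nat_lit 4)) (R (nat_lit 135377))
    (p (nat_lit 0xc1) (nat_lit 0) (p (nat_lit 0x81) (nat_lit 1) (p (nat_lit 0x101) (nat_lit 1) (p (nat_lit 0x111) (nat_lit 0) (p (nat_lit 0xd1) (nat_lit 1) (p (nat_lit 0x89) (nat_lit 0) (p (nat_lit 0x41) (nat_lit 0) (p (nat_lit 0x109080787089a) (nat_lit 0) (p (nat_lit 0x108878706861a) (nat_lit 0) (p (nat_lit 0x8000000000000080686078a) (nat_lit 0) (p (nat_lit 0x8000000000000078605850a) (nat_lit 0) (p (nat_lit 0x10605850682) (nat_lit 0) (p (nat_lit 0x10585048402) (nat_lit 0) (p (nat_lit 0x16000c) (nat_lit 0) (p (nat_lit 0x160004) (nat_lit 0) (p (nat_lit 0x60592) (nat_lit 0) (p (nat_lit 0x48512) (nat_lit 0) (p (nat_lit 0x50392) (nat_lit 0) (p (nat_lit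 0x38312) (nat_lit 0) (p (nat_lit 0x40212) (nat_lit 0) (p (nat_lit 0x28192) (nat_lit 0) (p (nat_lit 0x30092) (nat_lit 0) (p (nat_lit 0x18012) (nat_lit 0) pn))))))))))))))))))))))) :=
  Cl.node (nat_lit 0x200014) (nat_lit 2) (by decide +kernel) (ClAll.succ (ClAll.succ ClAll.zero n54) s57)

def n78 : Cl (O (nat_lit 4)) (R (nat_lit 135377))
    (p (nat_lit 0xd1) (nat_lit 0) (p (nat_lit 0x109) (nat_lit 1) (p (nat_lit 0x101) (nat_lit 0) (p (nat_lit 0x119) (nat_lit 0) (p (nat_lit 0xc9) (nat_lit 0) (p (nat_lit 0x89) (nat_lit 1) (p (nat_lit 0x41) (nat_lit 0) (p (nat_lit 0x109080787089a) (nat_lit 0) (p (nat_lit 0x108878706861a) (nat_lit 0) (p (nat_lit 0x8000000000000080686078a) (nat_lit 0) (p (nat_lit 0x8000000000000078605850a) (nat_lit 0) (p (nat_lit 0x10605850682) (nat_lit 0) (p (nat_lit 0x10585048402) (nat_lit 0) (p (nat_lit 0x16000c) (nat_lit 0) (p (nat_lit 0x160004) (nat_lit 0) (p (nat_lit 0x60592)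 (nat_lit 0) (p (nat_lit 0x48512) (nat_lit 0) (p (nat_lit 0x50392) (nat_lit 0) (p (nat_lit 0x38312) (nat_lit 0) (p (nat_lit 0x40212) (nat_lit 0) (p (nat_lit 0x28192) (nat_lit 0) (p (nat_lit 0x30092) (nat_lit 0) (p (nat_lit 0x18012) (nat_lit 0) pn))))))))))))))))))))))) :=
  Cl.node (nat_lit 0x200014) (nat_lit 2) (by decide +kernel) (ClAll.succ (ClAll.succ ClAll.zero s63) s64)

def n79 : Cl (O (nat_lit 4)) (R (nat_lit 135377))
    (p (nat_lit 0xd1) (nat_lit 1) (p (nat_lit 0x109) (nat_lit 1) (p (nat_lit 0x101) (nat_lit 0) (p (nat_lit 0x119) (nat_lit 0) (p (nat_lit 0xc9) (nat_lit 0) (p (nat_lit 0x89) (nat_lit 1) (p (nat_lit 0x41) (nat_lit 0) (p (nat_lit 0x109080787089a) (nat_lit 0) (p (nat_lit 0x108878706861a) (nat_lit 0) (p (nat_lit 0x8000000000000080686078a) (nat_lit 0) (p (nat_lit 0x8000000000000078605850a) (nat_lit 0) (p (nat_lit 0x10605850682) (nat_lit 0) (p (nat_lit 0x10585048402) (nat_lit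 0) (p (nat_lit 0x16000c) (nat_lit 0) (p (nat_lit 0x160004) (nat_lit 0) (p (nat_lit 0x60592) (nat_lit 0) (p (nat_lit 0x48512) (nat_lit 0) (p (nat_lit 0x50392) (nat_lit 0) (p (nat_lit 0x38312) (nat_lit 0) (p (nat_lit 0x40212) (nat_lit 0) (p (nat_lit 0x28192) (nat_lit 0) (p (nat_lit 0x30092) (nat_lit 0) (p (nat_lit 0x18012) (nat_lit 0) pn))))))))))))))))))))))) :=
  Cl.node (nat_lit 0x200014) (nat_lit 2) (by decide +kernel) (ClAll.succ (ClAll.succ ClAll.zero s65) n55)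

def n80 : Cl (O (nat_lit 4)) (R (nat_lit 135377))
    (p (nat_lit 0xd1) (nat_lit 0) (p (nat_lit 0xc1) (nat_lit 0) (p (nat_lit 0x101) (nat_lit 1) (p (nat_lit 0x119) (nat_lit 0) (p (nat_lit 0xc9) (nat_lit 0) (p (nat_lit 0x89) (nat_lit 1) (p (nat_lit 0x41) (nat_lit 0) (p (nat_lit 0x109080787089a) (nat_lit 0) (p (nat_lit 0x108878706861a) (nat_lit 0) (p (nat_lit 0x8000000000000080686078a) (nat_lit 0) (p (nat_lit 0x8000000000000078605850a) (nat_lit 0) (p (nat_lit 0x10605850682) (nat_lit 0) (p (nat_lit 0x10585048402) (nat_lit 0) (p (nat_lit 0x16000c) (nat_lit 0) (p (nat_lit 0x160004) (nat_lit 0) (p (nat_lit 0x60592) (nat_lit 0) (p (nat_lit 0x48512) (nat_lit 0) (p (nat_lit 0x50392) (nat_lit 0) (p (nat_lit 0x38312) (nat_lit 0) (p (nat_lit 0x40212) (nat_lit 0) (p (nat_lit 0x28192) (nat_lit 0) (p (nat_lit 0x30092) (nat_lit 0) (p (nat_lit 0x18012) (nat_lit 0) pn))))))))))))))))))))))) :=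
  Cl.node (nat_lit 0x200014) (nat_lit 2) (by decide +kernel) (ClAll.succ (ClAll.succ ClAll.zero s70) n56)

def n81 : Cl (O (nat_lit 4)) (R (nat_lit 135377))
    (p (nat_lit 0xd1) (nat_lit 1) (p (nat_lit 0xc1) (nat_lit 0) (p (nat_lit 0x101) (nat_lit 1) (p (nat_lit 0x119) (nat_lit 0) (p (nat_lit 0xc9) (nat_lit 0) (p (nat_lit 0x89) (nat_lit 1) (p (nat_lit 0x41) (nat_lit 0) (p (nat_lit 0x109080787089a) (nat_lit 0) (p (nat_lit 0x108878706861a) (nat_lit 0) (p (nat_lit 0x8000000000000080686078a) (nat_lit 0) (p (nat_lit 0x8000000000000078605850a) (nat_lit 0) (p (nat_lit 0x10605850682) (nat_lit 0) (p (nat_lit 0x10585048402) (nat_lit 0) (p (nat_lit 0x16000c) (nat_lit 0) (p (nat_lit 0x160004) (nat_lit 0) (p (nat_lit 0x60592) (nat_lit 0) (p (nat_lit 0x48512) (nat_lit 0) (p (nat_lit 0x50392) (nat_lit 0) (p (nat_lit 0x38312) (nat_lit 0) (p (nat_lit 0x40212) (nat_lit 0) (p (nat_lit 0x28192) (nat_lit 0)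 (p (nat_lit 0x30092) (nat_lit 0) (p (nat_lit 0x18012) (nat_lit 0) pn))))))))))))))))))))))) :=
  Cl.node (nat_lit 0x200014) (nat_lit 2) (by decide +kernel) (ClAll.succ (ClAll.succ ClAll.zero s75) n57)

def n82 : Cl (O (nat_lit 4)) (R (nat_lit 135377))
    (p (nat_lit 0x111) (nat_lit 1) (p (nat_lit 0xd1) (nat_lit 1) (p (nat_lit 0xc1) (nat_lit 0) (p (nat_lit 0x119) (nat_lit 1) (p (nat_lit 0xc9) (nat_lit 0) (p (nat_lit 0x89) (nat_lit 1) (p (nat_lit 0x41) (nat_lit 0) (p (nat_lit 0x109080787089a) (nat_lit 0) (p (nat_lit 0x108878706861a) (nat_lit 0) (p (nat_lit 0x8000000000000080686078a) (nat_lit 0) (p (nat_lit 0x8000000000000078605850a) (nat_lit 0) (p (nat_lit 0x10605850682) (nat_lit 0) (p (nat_lit 0x10585048402) (nat_lit 0) (p (nat_lit 0x16000c) (nat_lit 0) (p (nat_lit 0x160004) (nat_lit 0) (p (nat_lit 0x60592) (nat_lit 0) (p (nat_lit 0x48512) (nat_lit 0) (p (nat_lit 0x50392) (nat_lit 0) (p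 (nat_lit 0x38312) (nat_lit 0) (p (nat_lit 0x40212) (nat_lit 0) (p (nat_lit 0x28192) (nat_lit 0) (p (nat_lit 0x30092) (nat_lit 0) (p (nat_lit 0x18012) (nat_lit 0) pn))))))))))))))))))))))) :=
  Cl.node (nat_lit 0x200014) (nat_lit 2) (by decide +kernel) (ClAll.succ (ClAll.succ ClAll.zero s83) s84)

def n83 : Cl (O (nat_lit 4)) (R (nat_lit 135377))
    (p (nat_lit 0x111) (nat_lit 1) (p (nat_lit 0x101) (nat_lit 0) (p (nat_lit 0xc1) (nat_lit 1) (p (nat_lit 0x119) (nat_lit 1) (p (nat_lit 0xc9) (nat_lit 0) (p (nat_lit 0x89) (nat_lit 1) (p (nat_lit 0x41) (nat_lit 0) (p (nat_lit 0x109080787089a) (nat_lit 0) (p (nat_lit 0x108878706861a) (nat_lit 0) (p (nat_lit 0x8000000000000080686078a) (nat_lit 0) (p (nat_lit 0x8000000000000078605850a) (nat_lit 0) (p (nat_lit 0x10605850682) (nat_lit 0) (p (nat_lit 0x10585048402) (nat_lit 0) (p (nat_lit 0x16000c) (nat_lit 0) (p (nat_lit 0x160004) (nat_lit 0) (p (nat_lit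 0x60592) (nat_lit 0) (p (nat_lit 0x48512) (nat_lit 0) (p (nat_lit 0x50392) (nat_lit 0) (p (nat_lit 0x38312) (nat_lit 0) (p (nat_lit 0x40212) (nat_lit 0) (p (nat_lit 0x28192) (nat_lit 0) (p (nat_lit 0x30092) (nat_lit 0) (p (nat_lit 0x18012) (nat_lit 0) pn))))))))))))))))))))))) :=
  Cl.node (nat_lit 0x200014) (nat_lit 2) (by decide +kernel) (ClAll.succ (ClAll.succ ClAll.zero s86) s87)

def n84 : Cl (O (nat_lit 4)) (R (nat_lit 135377))
    (p (nat_lit 0x89) (nat_lit 0) (p (nat_lit 0x109) (nat_lit 1) (p (nat_lit 0x101) (nat_lit 0) (p (nat_lit 0x119) (nat_lit 0) (p (nat_lit 0xd1) (nat_lit 0) (p (nat_lit 0x81) (nat_lit 0) (p (nat_lit 0x41) (nat_lit 1) (p (nat_lit 0x109080787089a) (nat_lit 0) (p (nat_lit 0x108878706861a) (nat_lit 0) (p (nat_lit 0x8000000000000080686078a) (nat_lit 0) (p (nat_lit 0x8000000000000078605850a) (nat_lit 0) (p (nat_lit 0x10605850682) (nat_lit 0) (p (nat_lit 0x10585048402)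 (nat_lit 0) (p (nat_lit 0x16000c) (nat_lit 0) (p (nat_lit 0x160004) (nat_lit 0) (p (nat_lit 0x60592) (nat_lit 0) (p (nat_lit 0x48512) (nat_lit 0) (p (nat_lit 0x50392) (nat_lit 0) (p (nat_lit 0x38312) (nat_lit 0) (p (nat_lit 0x40212) (nat_lit 0) (p (nat_lit 0x28192) (nat_lit 0) (p (nat_lit 0x30092) (nat_lit 0) (p (nat_lit 0x18012) (nat_lit 0) pn))))))))))))))))))))))) :=
  Cl.node (nat_lit 0x200014) (nat_lit 2) (by decide +kernel) (ClAll.succ (ClAll.succ ClAll.zero s96) s97)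

def n85 : Cl (O (nat_lit 4)) (R (nat_lit 135377))
    (p (nat_lit 0x89) (nat_lit 1) (p (nat_lit 0x109) (nat_lit 1) (p (nat_lit 0x101) (nat_lit 0) (p (nat_lit 0x119) (nat_lit 0) (p (nat_lit 0xd1) (nat_lit 0) (p (nat_lit 0x81) (nat_lit 0) (p (nat_lit 0x41) (nat_lit 1) (p (nat_lit 0x109080787089a) (nat_lit 0) (p (nat_lit 0x108878706861a) (nat_lit 0) (p (nat_lit 0x8000000000000080686078a) (nat_lit 0) (p (nat_lit 0x8000000000000078605850a) (nat_lit 0) (p (nat_lit 0x10605850682) (nat_lit 0) (p (nat_lit 0x10585048402) (nat_lit 0) (p (nat_lit 0x16000c) (nat_lit 0) (p (nat_lit 0x160004) (nat_lit 0) (p (nat_lit 0x60592) (nat_lit 0) (p (nat_lit 0x48512) (nat_lit 0) (p (nat_lit 0x50392) (nat_lit 0) (p (nat_lit 0x38312) (nat_lit 0) (p (nat_lit 0x40212) (nat_lit 0) (p (nat_lit 0x28192) (nat_lit 0) (p (nat_lit 0x30092) (nat_lit 0) (p (nat_lit 0x18012) (nat_lit 0) pn))))))))))))))))))))))) :=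
  Cl.node (nat_lit 0xc9) (nat_lit 2) (by decide +kernel) (ClAll.succ (ClAll.succ ClAll.zero n58) s103)

def n86 : Cl (O (nat_lit 4)) (R (nat_lit 135377))
    (p (nat_lit 0x89) (nat_lit 1) (p (nat_lit 0xc1) (nat_lit 0) (p (nat_lit 0x101) (nat_lit 1) (p (nat_lit 0x119) (nat_lit 0) (p (nat_lit 0xd1) (nat_lit 0) (p (nat_lit 0x81) (nat_lit 0) (p (nat_lit 0x41) (nat_lit 1) (p (nat_lit 0x109080787089a) (nat_lit 0) (p (nat_lit 0x108878706861a) (nat_lit 0) (p (nat_lit 0x8000000000000080686078a) (nat_lit 0) (p (nat_lit 0x8000000000000078605850a) (nat_lit 0) (p (nat_lit 0x10605850682) (nat_lit 0) (p (nat_lit 0x10585048402) (nat_lit 0) (p (nat_lit 0x16000c) (nat_lit 0) (p (nat_lit 0x160004) (nat_lit 0) (p (nat_lit 0x60592) (nat_lit 0) (p (nat_lit 0x48512) (nat_lit 0) (p (nat_lit 0x50392) (nat_lit 0) (p (nat_lit 0x38312) (nat_lit 0) (p (nat_lit 0x40212) (nat_lit 0) (p (nat_lit 0x28192) (nat_lit 0) (p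 (nat_lit 0x30092) (nat_lit 0) (p (nat_lit 0x18012) (nat_lit 0) pn))))))))))))))))))))))) :=
  Cl.node (nat_lit 0xc9) (nat_lit 2) (by decide +kernel) (ClAll.succ (ClAll.succ ClAll.zero n59) n60)

def n87 : Cl (O (nat_lit 4)) (R (nat_lit 135377))
    (p (nat_lit 0x89) (nat_lit 1) (p (nat_lit 0xc1) (nat_lit 1) (p (nat_lit 0x101) (nat_lit 1) (p (nat_lit 0x119) (nat_lit 0) (p (nat_lit 0xd1) (nat_lit 0) (p (nat_lit 0x81) (nat_lit 0) (p (nat_lit 0x41) (nat_lit 1) (p (nat_lit 0x109080787089a) (nat_lit 0) (p (nat_lit 0x108878706861a) (nat_lit 0) (p (nat_lit 0x8000000000000080686078a) (nat_lit 0) (p (nat_lit 0x8000000000000078605850a) (nat_lit 0) (p (nat_lit 0x10605850682) (nat_lit 0) (p (nat_lit 0x10585048402) (nat_lit 0) (p (nat_lit 0x16000c) (nat_lit 0) (p (nat_lit 0x160004) (nat_lit 0) (p (nat_lit 0x60592) (nat_lit 0) (p (nat_lit 0x48512) (nat_lit 0) (p (nat_lit 0x50392) (nat_lit 0) (p (nat_lit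 0x38312) (nat_lit 0) (p (nat_lit 0x40212) (nat_lit 0) (p (nat_lit 0x28192) (nat_lit 0) (p (nat_lit 0x30092) (nat_lit 0) (p (nat_lit 0x18012) (nat_lit 0) pn))))))))))))))))))))))) :=
  Cl.node (nat_lit 0x200014) (nat_lit 2) (by decide +kernel) (ClAll.succ (ClAll.succ ClAll.zero s113) n61)

def n88 : Cl (O (nat_lit 4)) (R (nat_lit 135377))
    (p (nat_lit 0x89) (nat_lit 1) (p (nat_lit 0xc9) (nat_lit 1) (p (nat_lit 0xc1) (nat_lit 0) (p (nat_lit 0x119) (nat_lit 1) (p (nat_lit 0xd1) (nat_lit 0) (p (nat_lit 0x81) (nat_lit 0) (p (nat_lit 0x41) (nat_lit 1) (p (nat_lit 0x109080787089a) (nat_lit 0) (p (nat_lit 0x108878706861a) (nat_lit 0) (p (nat_lit 0x8000000000000080686078a) (nat_lit 0) (p (nat_lit 0x8000000000000078605850a) (nat_lit 0) (p (nat_lit 0x10605850682) (nat_lit 0) (p (nat_lit 0x10585048402) (nat_lit 0) (p (nat_lit 0x16000c) (nat_lit 0) (p (nat_lit 0x160004) (nat_lit 0) (p (nat_lit 0x60592)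 (nat_lit 0) (p (nat_lit 0x48512) (nat_lit 0) (p (nat_lit 0x50392) (nat_lit 0) (p (nat_lit 0x38312) (nat_lit 0) (p (nat_lit 0x40212) (nat_lit 0) (p (nat_lit 0x28192) (nat_lit 0) (p (nat_lit 0x30092) (nat_lit 0) (p (nat_lit 0x18012) (nat_lit 0) pn))))))))))))))))))))))) :=
  Cl.node (nat_lit 0x109) (nat_lit 2) (by decide +kernel) (ClAll.succ (ClAll.succ ClAll.zero n62) n63)

def n89 : Cl (O (nat_lit 4)) (R (nat_lit 135377))
    (p (nat_lit 0x89) (nat_lit 1) (p (nat_lit 0x101) (nat_lit 0) (p (nat_lit 0xc1) (nat_lit 1) (p (nat_lit 0x119) (nat_lit 1) (p (nat_lit 0xd1) (nat_lit 0) (p (nat_lit 0x81) (nat_lit 0) (p (nat_lit 0x41) (nat_lit 1) (p (nat_lit 0x109080787089a) (nat_lit 0) (p (nat_lit 0x108878706861a) (nat_lit 0) (p (nat_lit 0x8000000000000080686078a) (nat_lit 0) (p (nat_lit 0x8000000000000078605850a) (nat_lit 0) (p (nat_lit 0x10605850682) (nat_lit 0) (p (nat_lit 0x10585048402) (nat_lit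 0) (p (nat_lit 0x16000c) (nat_lit 0) (p (nat_lit 0x160004) (nat_lit 0) (p (nat_lit 0x60592) (nat_lit 0) (p (nat_lit 0x48512) (nat_lit 0) (p (nat_lit 0x50392) (nat_lit 0) (p (nat_lit 0x38312) (nat_lit 0) (p (nat_lit 0x40212) (nat_lit 0) (p (nat_lit 0x28192) (nat_lit 0) (p (nat_lit 0x30092) (nat_lit 0) (p (nat_lit 0x18012) (nat_lit 0) pn))))))))))))))))))))))) :=
  Cl.node (nat_lit 0x109) (nat_lit 2) (by decide +kernel) (ClAll.succ (ClAll.succ ClAll.zero s127) n64)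

def n90 : Cl (O (nat_lit 4)) (R (nat_lit 135377))
    (p (nat_lit 0x89) (nat_lit 1) (p (nat_lit 0x101) (nat_lit 1) (p (nat_lit 0xc1) (nat_lit 1) (p (nat_lit 0x119) (nat_lit 1) (p (nat_lit 0xd1) (nat_lit 0) (p (nat_lit 0x81) (nat_lit 0) (p (nat_lit 0x41) (nat_lit 1) (p (nat_lit 0x109080787089a) (nat_lit 0) (p (nat_lit 0x108878706861a) (nat_lit 0) (p (nat_lit 0x8000000000000080686078a) (nat_lit 0) (p (nat_lit 0x8000000000000078605850a) (nat_lit 0) (p (nat_lit 0x10605850682) (nat_lit 0) (p (nat_lit 0x10585048402) (nat_lit 0) (p (nat_lit 0x16000c) (nat_lit 0) (p (nat_lit 0x160004) (nat_lit 0) (p (nat_lit 0x60592) (nat_lit 0) (p (nat_lit 0x48512) (nat_lit 0) (p (nat_lit 0x50392) (nat_lit 0) (p (nat_lit 0x38312) (nat_lit 0) (p (nat_lit 0x40212) (nat_lit 0) (p (nat_lit 0x28192) (nat_lit 0) (p (nat_lit 0x30092) (nat_lit 0) (p (nat_lit 0x18012) (nat_lit 0) pn))))))))))))))))))))))) :=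
  Cl.node (nat_lit 0x200014) (nat_lit 2) (by decide +kernel) (ClAll.succ (ClAll.succ ClAll.zero n65) n66)

def n91 : Cl (O (nat_lit 4)) (R (nat_lit 135377))
    (p (nat_lit 0x89) (nat_lit 1) (p (nat_lit 0x109) (nat_lit 1) (p (nat_lit 0x101) (nat_lit 0) (p (nat_lit 0x111) (nat_lit 0) (p (nat_lit 0xd1) (nat_lit 1) (p (nat_lit 0x81) (nat_lit 0) (p (nat_lit 0x41) (nat_lit 1) (p (nat_lit 0x109080787089a) (nat_lit 0) (p (nat_lit 0x108878706861a) (nat_lit 0) (p (nat_lit 0x8000000000000080686078a) (nat_lit 0) (p (nat_lit 0x8000000000000078605850a) (nat_lit 0) (p (nat_lit 0x10605850682) (nat_lit 0) (p (nat_lit 0x10585048402) (nat_lit 0) (p (nat_lit 0x16000c) (nat_lit 0) (p (nat_lit 0x160004) (nat_lit 0) (p (nat_lit 0x60592) (nat_lit 0) (p (nat_lit 0x48512) (nat_lit 0) (p (nat_lit 0x50392) (nat_lit 0) (p (nat_lit 0x38312) (nat_lit 0) (p (nat_lit 0x40212) (nat_lit 0) (p (nat_lit 0x28192) (nat_lit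 0) (p (nat_lit 0x30092) (nat_lit 0) (p (nat_lit 0x18012) (nat_lit 0) pn))))))))))))))))))))))) :=
  Cl.node (nat_lit 0xc9) (nat_lit 2) (by decide +kernel) (ClAll.succ (ClAll.succ ClAll.zero n67) s145)

def n92 : Cl (O (nat_lit 4)) (R (nat_lit 135377))
    (p (nat_lit 0x109) (nat_lit 1) (p (nat_lit 0xc9) (nat_lit 1) (p (nat_lit 0x89) (nat_lit 1) (p (nat_lit 0x111) (nat_lit 1) (p (nat_lit 0xd1) (nat_lit 1) (p (nat_lit 0x81) (nat_lit 0) (p (nat_lit 0x41) (nat_lit 1) (p (nat_lit 0x109080787089a) (nat_lit 0) (p (nat_lit 0x108878706861a) (nat_lit 0) (p (nat_lit 0x8000000000000080686078a) (nat_lit 0) (p (nat_lit 0x8000000000000078605850a) (nat_lit 0) (p (nat_lit 0x10605850682) (nat_lit 0) (p (nat_lit 0x10585048402) (nat_lit 0) (p (nat_lit 0x16000c) (nat_lit 0) (p (nat_lit 0x160004) (nat_lit 0) (p (nat_lit 0x60592) (nat_lit 0) (p (nat_lit 0x48512) (nat_lit 0) (p (nat_lit 0x50392) (nat_lit 0) (p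 (nat_lit 0x38312) (nat_lit 0) (p (nat_lit 0x40212) (nat_lit 0) (p (nat_lit 0x28192) (nat_lit 0) (p (nat_lit 0x30092) (nat_lit 0) (p (nat_lit 0x18012) (nat_lit 0) pn))))))))))))))))))))))) :=
  Cl.node (nat_lit 0x200014) (nat_lit 2) (by decide +kernel) (ClAll.succ (ClAll.succ ClAll.zero n68) s154)

def n93 : Cl (O (nat_lit 4)) (R (nat_lit 135377))
    (p (nat_lit 0xc9) (nat_lit 0) (p (nat_lit 0x109) (nat_lit 1) (p (nat_lit 0x101) (nat_lit 0) (p (nat_lit 0x119) (nat_lit 0) (p (nat_lit 0xc1) (nat_lit 0) (p (nat_lit 0x81) (nat_lit 1) (p (nat_lit 0x41) (nat_lit 1) (p (nat_lit 0x109080787089a) (nat_lit 0) (p (nat_lit 0x108878706861a) (nat_lit 0) (p (nat_lit 0x8000000000000080686078a) (nat_lit 0) (p (nat_lit 0x8000000000000078605850a) (nat_lit 0) (p (nat_lit 0x10605850682) (nat_lit 0) (p (nat_lit 0x10585048402) (nat_lit 0) (p (nat_lit 0x16000c) (nat_lit 0) (p (nat_lit 0x160004) (nat_lit 0) (p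 (nat_lit 0x60592) (nat_lit 0) (p (nat_lit 0x48512) (nat_lit 0) (p (nat_lit 0x50392) (nat_lit 0) (p (nat_lit 0x38312) (nat_lit 0) (p (nat_lit 0x40212) (nat_lit 0) (p (nat_lit 0x28192) (nat_lit 0) (p (nat_lit 0x30092) (nat_lit 0) (p (nat_lit 0x18012) (nat_lit 0) pn))))))))))))))))))))))) :=
  Cl.node (nat_lit 0xd1) (nat_lit 2) (by decide +kernel) (ClAll.succ (ClAll.succ ClAll.zero s156) s157)

def n94 : Cl (O (nat_lit 4)) (R (nat_lit 135377))
    (p (nat_lit 0x111) (nat_lit 1) (p (nat_lit 0xd1) (nat_lit 1) (p (nat_lit 0xc9) (nat_lit 0) (p (nat_lit 0x119) (nat_lit 1) (p (nat_lit 0xc1) (nat_lit 0) (p (nat_lit 0x81) (nat_lit 1) (p (nat_lit 0x41) (nat_lit 1) (p (nat_lit 0x109080787089a) (nat_lit 0) (p (nat_lit 0x108878706861a) (nat_lit 0) (p (nat_lit 0x8000000000000080686078a) (nat_lit 0) (p (nat_lit 0x8000000000000078605850a) (nat_lit 0) (p (nat_lit 0x10605850682) (nat_lit 0) (p (nat_lit 0x10585048402)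 (nat_lit 0) (p (nat_lit 0x16000c) (nat_lit 0) (p (nat_lit 0x160004) (nat_lit 0) (p (nat_lit 0x60592) (nat_lit 0) (p (nat_lit 0x48512) (nat_lit 0) (p (nat_lit 0x50392) (nat_lit 0) (p (nat_lit 0x38312) (nat_lit 0) (p (nat_lit 0x40212) (nat_lit 0) (p (nat_lit 0x28192) (nat_lit 0) (p (nat_lit 0x30092) (nat_lit 0) (p (nat_lit 0x18012) (nat_lit 0) pn))))))))))))))))))))))) :=
  Cl.node (nat_lit 0x200014) (nat_lit 2) (by decide +kernel) (ClAll.succ (ClAll.succ ClAll.zero s164) s165)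

def n95 : Cl (O (nat_lit 4)) (R (nat_lit 135377))
    (p (nat_lit 0x111) (nat_lit 1) (p (nat_lit 0x109) (nat_lit 0) (p (nat_lit 0xc9) (nat_lit 1) (p (nat_lit 0x119) (nat_lit 1) (p (nat_lit 0xc1) (nat_lit 0) (p (nat_lit 0x81) (nat_lit 1) (p (nat_lit 0x41) (nat_lit 1) (p (nat_lit 0x109080787089a) (nat_lit 0) (p (nat_lit 0x108878706861a) (nat_lit 0) (p (nat_lit 0x8000000000000080686078a) (nat_lit 0) (p (nat_lit 0x8000000000000078605850a) (nat_lit 0) (p (nat_lit 0x10605850682) (nat_lit 0) (p (nat_lit 0x10585048402) (nat_lit 0) (p (nat_lit 0x16000c) (nat_lit 0) (p (nat_lit 0x160004) (nat_lit 0) (p (nat_lit 0x60592) (nat_lit 0) (p (nat_lit 0x48512) (nat_lit 0) (p (nat_lit 0x50392) (nat_lit 0) (p (nat_lit 0x38312) (nat_lit 0) (p (nat_lit 0x40212) (nat_lit 0) (p (nat_lit 0x28192) (nat_lit 0) (p (nat_lit 0x30092) (nat_lit 0) (p (nat_lit 0x18012) (nat_lit 0) pn))))))))))))))))))))))) :=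
  Cl.node (nat_lit 0x200014) (nat_lit 2) (by decide +kernel) (ClAll.succ (ClAll.succ ClAll.zero s167) s168)

def n96 : Cl (O (nat_lit 4)) (R (nat_lit 135377))
    (p (nat_lit 0x81) (nat_lit 0) (p (nat_lit 0x101) (nat_lit 1) (p (nat_lit 0x119) (nat_lit 0) (p (nat_lit 0xd1) (nat_lit 0) (p (nat_lit 0x89) (nat_lit 0) (p (nat_lit 0x41) (nat_lit 0) (p (nat_lit 0x109080787089a) (nat_lit 0) (p (nat_lit 0x108878706861a) (nat_lit 0) (p (nat_lit 0x8000000000000080686078a) (nat_lit 0) (p (nat_lit 0x8000000000000078605850a) (nat_lit 0) (p (nat_lit 0x10605850682) (nat_lit 0) (p (nat_lit 0x10585048402) (nat_lit 0) (p (nat_lit 0x16000c) (nat_lit 0) (p (nat_lit 0x160004) (nat_lit 0) (p (nat_lit 0x60592) (nat_lit 0) (p (nat_lit 0x48512) (nat_lit 0) (p (nat_lit 0x50392) (nat_lit 0) (p (nat_lit 0x38312) (nat_lit 0) (p (nat_lit 0x40212) (nat_lit 0) (p (nat_lit 0x28192) (nat_lit 0) (p (nat_lit 0x30092) (nat_lit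 0) (p (nat_lit 0x18012) (nat_lit 0) pn)))))))))))))))))))))) :=
  Cl.node (nat_lit 0xc9) (nat_lit 2) (by decide +kernel) (ClAll.succ (ClAll.succ ClAll.zero n69) n70)

def n97 : Cl (O (nat_lit 4)) (R (nat_lit 135377))
    (p (nat_lit 0x81) (nat_lit 1) (p (nat_lit 0x101) (nat_lit 1) (p (nat_lit 0x119) (nat_lit 0) (p (nat_lit 0xd1) (nat_lit 0) (p (nat_lit 0x89) (nat_lit 0) (p (nat_lit 0x41) (nat_lit 0) (p (nat_lit 0x109080787089a) (nat_lit 0) (p (nat_lit 0x108878706861a) (nat_lit 0) (p (nat_lit 0x8000000000000080686078a) (nat_lit 0) (p (nat_lit 0x8000000000000078605850a) (nat_lit 0) (p (nat_lit 0x10605850682) (nat_lit 0) (p (nat_lit 0x10585048402) (nat_lit 0) (p (nat_lit 0x16000c) (nat_lit 0) (p (nat_lit 0x160004) (nat_lit 0) (p (nat_lit 0x60592) (nat_lit 0) (p (nat_lit 0x48512) (nat_lit 0) (p (nat_lit 0x50392) (nat_lit 0) (p (nat_lit 0x38312) (nat_lit 0) (p (nat_lit 0x40212) (nat_lit 0) (p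 (nat_lit 0x28192) (nat_lit 0) (p (nat_lit 0x30092) (nat_lit 0) (p (nat_lit 0x18012) (nat_lit 0) pn)))))))))))))))))))))) :=
  Cl.node (nat_lit 0xc1) (nat_lit 2) (by decide +kernel) (ClAll.succ (ClAll.succ ClAll.zero n71) n72)

def n98 : Cl (O (nat_lit 4)) (R (nat_lit 135377))
    (p (nat_lit 0xc9) (nat_lit 1) (p (nat_lit 0xc1) (nat_lit 0) (p (nat_lit 0x119) (nat_lit 1) (p (nat_lit 0xd1) (nat_lit 0) (p (nat_lit 0x89) (nat_lit 0) (p (nat_lit 0x41) (nat_lit 0) (p (nat_lit 0x109080787089a) (nat_lit 0) (p (nat_lit 0x108878706861a) (nat_lit 0) (p (nat_lit 0x8000000000000080686078a) (nat_lit 0) (p (nat_lit 0x8000000000000078605850a) (nat_lit 0) (p (nat_lit 0x10605850682) (nat_lit 0) (p (nat_lit 0x10585048402) (nat_lit 0) (p (nat_lit 0x16000c) (nat_lit 0) (p (nat_lit 0x160004) (nat_lit 0) (p (nat_lit 0x60592) (nat_lit 0) (p (nat_lit 0x48512) (nat_lit 0) (p (nat_lit 0x50392) (nat_lit 0) (p (nat_lit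 0x38312) (nat_lit 0) (p (nat_lit 0x40212) (nat_lit 0) (p (nat_lit 0x28192) (nat_lit 0) (p (nat_lit 0x30092) (nat_lit 0) (p (nat_lit 0x18012) (nat_lit 0) pn)))))))))))))))))))))) :=
  Cl.node (nat_lit 0x109) (nat_lit 2) (by decide +kernel) (ClAll.succ (ClAll.succ ClAll.zero s28) n73)

def n99 : Cl (O (nat_lit 4)) (R (nat_lit 135377))
    (p (nat_lit 0x81) (nat_lit 0) (p (nat_lit 0xc1) (nat_lit 1) (p (nat_lit 0x119) (nat_lit 1) (p (nat_lit 0xd1) (nat_lit 0) (p (nat_lit 0x89) (nat_lit 0) (p (nat_lit 0x41) (nat_lit 0) (p (nat_lit 0x109080787089a) (nat_lit 0) (p (nat_lit 0x108878706861a) (nat_lit 0) (p (nat_lit 0x8000000000000080686078a) (nat_lit 0) (p (nat_lit 0x8000000000000078605850a) (nat_lit 0) (p (nat_lit 0x10605850682) (nat_lit 0) (p (nat_lit 0x10585048402) (nat_lit 0) (p (nat_lit 0x16000c) (nat_lit 0) (p (nat_lit 0x160004) (nat_lit 0) (p (nat_lit 0x60592) (nat_lit 0) (p (nat_lit 0x48512)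 (nat_lit 0) (p (nat_lit 0x50392) (nat_lit 0) (p (nat_lit 0x38312) (nat_lit 0) (p (nat_lit 0x40212) (nat_lit 0) (p (nat_lit 0x28192) (nat_lit 0) (p (nat_lit 0x30092) (nat_lit 0) (p (nat_lit 0x18012) (nat_lit 0) pn)))))))))))))))))))))) :=
  Cl.node (nat_lit 0x109) (nat_lit 2) (by decide +kernel) (ClAll.succ (ClAll.succ ClAll.zero s31) n74)

def n100 : Cl (O (nat_lit 4)) (R (nat_lit 135377))
    (p (nat_lit 0x81) (nat_lit 1) (p (nat_lit 0xc1) (nat_lit 1) (p (nat_lit 0x119) (nat_lit 1) (p (nat_lit 0xd1) (nat_lit 0) (p (nat_lit 0x89) (nat_lit 0) (p (nat_lit 0x41) (nat_lit 0) (p (nat_lit 0x109080787089a) (nat_lit 0) (p (nat_lit 0x108878706861a) (nat_lit 0) (p (nat_lit 0x8000000000000080686078a) (nat_lit 0) (p (nat_lit 0x8000000000000078605850a) (nat_lit 0) (p (nat_lit 0x10605850682) (nat_lit 0) (p (nat_lit 0x10585048402) (nat_lit 0) (p (nat_lit 0x16000c) (nat_lit 0) (p (nat_lit 0x160004) (nat_lit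 0) (p (nat_lit 0x60592) (nat_lit 0) (p (nat_lit 0x48512) (nat_lit 0) (p (nat_lit 0x50392) (nat_lit 0) (p (nat_lit 0x38312) (nat_lit 0) (p (nat_lit 0x40212) (nat_lit 0) (p (nat_lit 0x28192) (nat_lit 0) (p (nat_lit 0x30092) (nat_lit 0) (p (nat_lit 0x18012) (nat_lit 0) pn)))))))))))))))))))))) :=
  Cl.node (nat_lit 0x101) (nat_lit 2) (by decide +kernel) (ClAll.succ (ClAll.succ ClAll.zero n75) n76)

def n101 : Cl (O (nat_lit 4)) (R (nat_lit 135377))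
    (p (nat_lit 0x81) (nat_lit 1) (p (nat_lit 0x101) (nat_lit 1) (p (nat_lit 0x111) (nat_lit 0) (p (nat_lit 0xd1) (nat_lit 1) (p (nat_lit 0x89) (nat_lit 0) (p (nat_lit 0x41) (nat_lit 0) (p (nat_lit 0x109080787089a) (nat_lit 0) (p (nat_lit 0x108878706861a) (nat_lit 0) (p (nat_lit 0x8000000000000080686078a) (nat_lit 0) (p (nat_lit 0x8000000000000078605850a) (nat_lit 0) (p (nat_lit 0x10605850682) (nat_lit 0) (p (nat_lit 0x10585048402) (nat_lit 0) (p (nat_lit 0x16000c) (nat_lit 0) (p (nat_lit 0x160004) (nat_lit 0) (p (nat_lit 0x60592) (nat_lit 0) (p (nat_lit 0x48512) (nat_lit 0) (p (nat_lit 0x50392) (nat_lit 0) (p (nat_lit 0x38312) (nat_lit 0) (p (nat_lit 0x40212) (nat_lit 0) (p (nat_lit 0x28192) (nat_lit 0) (p (nat_lit 0x30092) (nat_lit 0) (p (nat_lit 0x18012) (nat_lit 0) pn)))))))))))))))))))))) :=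
  Cl.node (nat_lit 0xc1) (nat_lit 2) (by decide +kernel) (ClAll.succ (ClAll.succ ClAll.zero n77) s58)

def n102 : Cl (O (nat_lit 4)) (R (nat_lit 135377))
    (p (nat_lit 0x109) (nat_lit 1) (p (nat_lit 0x101) (nat_lit 0) (p (nat_lit 0x119) (nat_lit 0) (p (nat_lit 0xc9) (nat_lit 0) (p (nat_lit 0x89) (nat_lit 1) (p (nat_lit 0x41) (nat_lit 0) (p (nat_lit 0x109080787089a) (nat_lit 0) (p (nat_lit 0x108878706861a) (nat_lit 0) (p (nat_lit 0x8000000000000080686078a) (nat_lit 0) (p (nat_lit 0x8000000000000078605850a) (nat_lit 0) (p (nat_lit 0x10605850682) (nat_lit 0) (p (nat_lit 0x10585048402) (nat_lit 0) (p (nat_lit 0x16000c) (nat_lit 0) (p (nat_lit 0x160004) (nat_lit 0) (p (nat_lit 0x60592) (nat_lit 0) (p (nat_lit 0x48512) (nat_lit 0) (p (nat_lit 0x50392) (nat_lit 0) (p (nat_lit 0x38312) (nat_lit 0) (p (nat_lit 0x40212) (nat_lit 0) (p (nat_lit 0x28192) (nat_lit 0) (p (nat_lit 0x30092) (nat_lit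 0) (p (nat_lit 0x18012) (nat_lit 0) pn)))))))))))))))))))))) :=
  Cl.node (nat_lit 0xd1) (nat_lit 2) (by decide +kernel) (ClAll.succ (ClAll.succ ClAll.zero n78) n79)

def n103 : Cl (O (nat_lit 4)) (R (nat_lit 135377))
    (p (nat_lit 0xc1) (nat_lit 0) (p (nat_lit 0x101) (nat_lit 1) (p (nat_lit 0x119) (nat_lit 0) (p (nat_lit 0xc9) (nat_lit 0) (p (nat_lit 0x89) (nat_lit 1) (p (nat_lit 0x41) (nat_lit 0) (p (nat_lit 0x109080787089a) (nat_lit 0) (p (nat_lit 0x108878706861a) (nat_lit 0) (p (nat_lit 0x8000000000000080686078a) (nat_lit 0) (p (nat_lit 0x8000000000000078605850a) (nat_lit 0) (p (nat_lit 0x10605850682) (nat_lit 0) (p (nat_lit 0x10585048402) (nat_lit 0) (p (nat_lit 0x16000c) (nat_lit 0) (p (nat_lit 0x160004) (nat_lit 0) (p (nat_lit 0x60592) (nat_lit 0) (p (nat_lit 0x48512) (nat_lit 0) (p (nat_lit 0x50392) (nat_lit 0) (p (nat_lit 0x38312) (nat_lit 0) (p (nat_lit 0x40212) (nat_lit 0)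 (p (nat_lit 0x28192) (nat_lit 0) (p (nat_lit 0x30092) (nat_lit 0) (p (nat_lit 0x18012) (nat_lit 0) pn)))))))))))))))))))))) :=
  Cl.node (nat_lit 0xd1) (nat_lit 2) (by decide +kernel) (ClAll.succ (ClAll.succ ClAll.zero n80) n81)

def n104 : Cl (O (nat_lit 4)) (R (nat_lit 135377))
    (p (nat_lit 0xd1) (nat_lit 1) (p (nat_lit 0xc1) (nat_lit 0) (p (nat_lit 0x119) (nat_lit 1) (p (nat_lit 0xc9) (nat_lit 0) (p (nat_lit 0x89) (nat_lit 1) (p (nat_lit 0x41) (nat_lit 0) (p (nat_lit 0x109080787089a) (nat_lit 0) (p (nat_lit 0x108878706861a) (nat_lit 0) (p (nat_lit 0x8000000000000080686078a) (nat_lit 0) (p (nat_lit 0x8000000000000078605850a) (nat_lit 0) (p (nat_lit 0x10605850682) (nat_lit 0) (p (nat_lit 0x10585048402) (nat_lit 0) (p (nat_lit 0x16000c) (nat_lit 0) (p (nat_lit 0x160004) (nat_lit 0) (p (nat_lit 0x60592) (nat_lit 0) (p (nat_lit 0x48512) (nat_lit 0) (p (nat_lit 0x50392) (nat_lit 0) (p (nat_lit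 0x38312) (nat_lit 0) (p (nat_lit 0x40212) (nat_lit 0) (p (nat_lit 0x28192) (nat_lit 0) (p (nat_lit 0x30092) (nat_lit 0) (p (nat_lit 0x18012) (nat_lit 0) pn)))))))))))))))))))))) :=
  Cl.node (nat_lit 0x111) (nat_lit 2) (by decide +kernel) (ClAll.succ (ClAll.succ ClAll.zero s82) n82)

def n105 : Cl (O (nat_lit 4)) (R (nat_lit 135377))
    (p (nat_lit 0x101) (nat_lit 0) (p (nat_lit 0xc1) (nat_lit 1) (p (nat_lit 0x119) (nat_lit 1) (p (nat_lit 0xc9) (nat_lit 0) (p (nat_lit 0x89) (nat_lit 1) (p (nat_lit 0x41) (nat_lit 0) (p (nat_lit 0x109080787089a) (nat_lit 0) (p (nat_lit 0x108878706861a) (nat_lit 0) (p (nat_lit 0x8000000000000080686078a) (nat_lit 0) (p (nat_lit 0x8000000000000078605850a) (nat_lit 0) (p (nat_lit 0x10605850682) (nat_lit 0) (p (nat_lit 0x10585048402) (nat_lit 0) (p (nat_lit 0x16000c) (nat_lit 0) (p (nat_lit 0x160004) (nat_lit 0) (p (nat_lit 0x60592) (nat_lit 0) (p (nat_lit 0x48512)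 (nat_lit 0) (p (nat_lit 0x50392) (nat_lit 0) (p (nat_lit 0x38312) (nat_lit 0) (p (nat_lit 0x40212) (nat_lit 0) (p (nat_lit 0x28192) (nat_lit 0) (p (nat_lit 0x30092) (nat_lit 0) (p (nat_lit 0x18012) (nat_lit 0) pn)))))))))))))))))))))) :=
  Cl.node (nat_lit 0x111) (nat_lit 2) (by decide +kernel) (ClAll.succ (ClAll.succ ClAll.zero s85) n83)

def n106 : Cl (O (nat_lit 4)) (R (nat_lit 135377))
    (p (nat_lit 0x101) (nat_lit 1) (p (nat_lit 0xc1) (nat_lit 1) (p (nat_lit 0x119) (nat_lit 1) (p (nat_lit 0xc9) (nat_lit 0) (p (nat_lit 0x89) (nat_lit 1) (p (nat_lit 0x41) (nat_lit 0) (p (nat_lit 0x109080787089a) (nat_lit 0) (p (nat_lit 0x108878706861a) (nat_lit 0) (p (nat_lit 0x8000000000000080686078a) (nat_lit 0) (p (nat_lit 0x8000000000000078605850a) (nat_lit 0) (p (nat_lit 0x10605850682) (nat_lit 0) (p (nat_lit 0x10585048402) (nat_lit 0) (p (nat_lit 0x16000c) (nat_lit 0) (p (nat_lit 0x160004) (nat_lit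 0) (p (nat_lit 0x60592) (nat_lit 0) (p (nat_lit 0x48512) (nat_lit 0) (p (nat_lit 0x50392) (nat_lit 0) (p (nat_lit 0x38312) (nat_lit 0) (p (nat_lit 0x40212) (nat_lit 0) (p (nat_lit 0x28192) (nat_lit 0) (p (nat_lit 0x30092) (nat_lit 0) (p (nat_lit 0x18012) (nat_lit 0) pn)))))))))))))))))))))) :=
  Cl.node (nat_lit 0x200014) (nat_lit 2) (by decide +kernel) (ClAll.succ (ClAll.succ ClAll.zero s88) s89)

def n107 : Cl (O (nat_lit 4)) (R (nat_lit 135377))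
    (p (nat_lit 0x111) (nat_lit 0) (p (nat_lit 0x101) (nat_lit 0) (p (nat_lit 0x109) (nat_lit 0) (p (nat_lit 0xc9) (nat_lit 1) (p (nat_lit 0x89) (nat_lit 1) (p (nat_lit 0x41) (nat_lit 0) (p (nat_lit 0x109080787089a) (nat_lit 0) (p (nat_lit 0x108878706861a) (nat_lit 0) (p (nat_lit 0x8000000000000080686078a) (nat_lit 0) (p (nat_lit 0x8000000000000078605850a) (nat_lit 0) (p (nat_lit 0x10605850682) (nat_lit 0) (p (nat_lit 0x10585048402) (nat_lit 0) (p (nat_lit 0x16000c) (nat_lit 0) (p (nat_lit 0x160004) (nat_lit 0) (p (nat_lit 0x60592) (nat_lit 0) (p (nat_lit 0x48512) (nat_lit 0) (p (nat_lit 0x50392) (nat_lit 0) (p (nat_lit 0x38312) (nat_lit 0) (p (nat_lit 0x40212) (nat_lit 0) (p (nat_lit 0x28192) (nat_lit 0) (p (nat_lit 0x30092) (nat_lit 0) (p (nat_lit 0x18012) (nat_lit 0) pn)))))))))))))))))))))) :=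
  Cl.node (nat_lit 0x119) (nat_lit 2) (by decide +kernel) (ClAll.succ (ClAll.succ ClAll.zero s90) s91)

def n108 : Cl (O (nat_lit 4)) (R (nat_lit 135377))
    (p (nat_lit 0x109) (nat_lit 1) (p (nat_lit 0x101) (nat_lit 0) (p (nat_lit 0x119) (nat_lit 0) (p (nat_lit 0xd1) (nat_lit 0) (p (nat_lit 0x81) (nat_lit 0) (p (nat_lit 0x41) (nat_lit 1) (p (nat_lit 0x109080787089a) (nat_lit 0) (p (nat_lit 0x108878706861a) (nat_lit 0) (p (nat_lit 0x8000000000000080686078a) (nat_lit 0) (p (nat_lit 0x8000000000000078605850a) (nat_lit 0) (p (nat_lit 0x10605850682) (nat_lit 0) (p (nat_lit 0x10585048402) (nat_lit 0) (p (nat_lit 0x16000c) (nat_lit 0) (p (nat_lit 0x160004) (nat_lit 0) (p (nat_lit 0x60592) (nat_lit 0) (p (nat_lit 0x48512) (nat_lit 0) (p (nat_lit 0x50392) (nat_lit 0) (p (nat_lit 0x38312) (nat_lit 0) (p (nat_lit 0x40212) (nat_lit 0) (p (nat_lit 0x28192) (nat_lit 0) (p (nat_lit 0x30092) (nat_lit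 0) (p (nat_lit 0x18012) (nat_lit 0) pn)))))))))))))))))))))) :=
  Cl.node (nat_lit 0x89) (nat_lit 2) (by decide +kernel) (ClAll.succ (ClAll.succ ClAll.zero n84) n85)

def n109 : Cl (O (nat_lit 4)) (R (nat_lit 135377))
    (p (nat_lit 0xc1) (nat_lit 0) (p (nat_lit 0x101) (nat_lit 1) (p (nat_lit 0x119) (nat_lit 0) (p (nat_lit 0xd1) (nat_lit 0) (p (nat_lit 0x81) (nat_lit 0) (p (nat_lit 0x41) (nat_lit 1) (p (nat_lit 0x109080787089a) (nat_lit 0) (p (nat_lit 0x108878706861a) (nat_lit 0) (p (nat_lit 0x8000000000000080686078a) (nat_lit 0) (p (nat_lit 0x8000000000000078605850a) (nat_lit 0) (p (nat_lit 0x10605850682) (nat_lit 0) (p (nat_lit 0x10585048402) (nat_lit 0) (p (nat_lit 0x16000c) (nat_lit 0) (p (nat_lit 0x160004) (nat_lit 0) (p (nat_lit 0x60592) (nat_lit 0) (p (nat_lit 0x48512) (nat_lit 0) (p (nat_lit 0x50392) (nat_lit 0) (p (nat_lit 0x38312) (nat_lit 0) (p (nat_lit 0x40212) (nat_lit 0)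 (p (nat_lit 0x28192) (nat_lit 0) (p (nat_lit 0x30092) (nat_lit 0) (p (nat_lit 0x18012) (nat_lit 0) pn)))))))))))))))))))))) :=
  Cl.node (nat_lit 0x89) (nat_lit 2) (by decide +kernel) (ClAll.succ (ClAll.succ ClAll.zero s104) n86)

def n110 : Cl (O (nat_lit 4)) (R (nat_lit 135377))
    (p (nat_lit 0xc1) (nat_lit 1) (p (nat_lit 0x101) (nat_lit 1) (p (nat_lit 0x119) (nat_lit 0) (p (nat_lit 0xd1) (nat_lit 0) (p (nat_lit 0x81) (nat_lit 0) (p (nat_lit 0x41) (nat_lit 1) (p (nat_lit 0x109080787089a) (nat_lit 0) (p (nat_lit 0x108878706861a) (nat_lit 0) (p (nat_lit 0x8000000000000080686078a) (nat_lit 0) (p (nat_lit 0x8000000000000078605850a) (nat_lit 0) (p (nat_lit 0x10605850682) (nat_lit 0) (p (nat_lit 0x10585048402) (nat_lit 0) (p (nat_lit 0x16000c) (nat_lit 0) (p (nat_lit 0x160004) (nat_lit 0) (p (nat_lit 0x60592) (nat_lit 0) (p (nat_lit 0x48512) (nat_lit 0) (p (nat_lit 0x50392) (nat_lit 0) (p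 (nat_lit 0x38312) (nat_lit 0) (p (nat_lit 0x40212) (nat_lit 0) (p (nat_lit 0x28192) (nat_lit 0) (p (nat_lit 0x30092) (nat_lit 0) (p (nat_lit 0x18012) (nat_lit 0) pn)))))))))))))))))))))) :=
  Cl.node (nat_lit 0x89) (nat_lit 2) (by decide +kernel) (ClAll.succ (ClAll.succ ClAll.zero s112) n87)

def n111 : Cl (O (nat_lit 4)) (R (nat_lit 135377))
    (p (nat_lit 0xc9) (nat_lit 1) (p (nat_lit 0xc1) (nat_lit 0) (p (nat_lit 0x119) (nat_lit 1) (p (nat_lit 0xd1) (nat_lit 0) (p (nat_lit 0x81) (nat_lit 0) (p (nat_lit 0x41) (nat_lit 1) (p (nat_lit 0x109080787089a) (nat_lit 0) (p (nat_lit 0x108878706861a) (nat_lit 0) (p (nat_lit 0x8000000000000080686078a) (nat_lit 0) (p (nat_lit 0x8000000000000078605850a) (nat_lit 0) (p (nat_lit 0x10605850682) (nat_lit 0) (p (nat_lit 0x10585048402) (nat_lit 0) (p (nat_lit 0x16000c) (nat_lit 0) (p (nat_lit 0x160004) (nat_lit 0) (p (nat_lit 0x60592) (nat_lit 0) (p (nat_lit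 0x48512) (nat_lit 0) (p (nat_lit 0x50392) (nat_lit 0) (p (nat_lit 0x38312) (nat_lit 0) (p (nat_lit 0x40212) (nat_lit 0) (p (nat_lit 0x28192) (nat_lit 0) (p (nat_lit 0x30092) (nat_lit 0) (p (nat_lit 0x18012) (nat_lit 0) pn)))))))))))))))))))))) :=
  Cl.node (nat_lit 0x89) (nat_lit 2) (by decide +kernel) (ClAll.succ (ClAll.succ ClAll.zero s120) n88)

def n112 : Cl (O (nat_lit 4)) (R (nat_lit 135377))
    (p (nat_lit 0x101) (nat_lit 0) (p (nat_lit 0xc1) (nat_lit 1) (p (nat_lit 0x119) (nat_lit 1) (p (nat_lit 0xd1) (nat_lit 0) (p (nat_lit 0x81) (nat_lit 0) (p (nat_lit 0x41) (nat_lit 1) (p (nat_lit 0x109080787089a) (nat_lit 0) (p (nat_lit 0x108878706861a) (nat_lit 0) (p (nat_lit 0x8000000000000080686078a) (nat_lit 0) (p (nat_lit 0x8000000000000078605850a) (nat_lit 0) (p (nat_lit 0x10605850682) (nat_lit 0) (p (nat_lit 0x10585048402) (nat_lit 0) (p (nat_lit 0x16000c) (nat_lit 0) (p (nat_lit 0x160004)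 (nat_lit 0) (p (nat_lit 0x60592) (nat_lit 0) (p (nat_lit 0x48512) (nat_lit 0) (p (nat_lit 0x50392) (nat_lit 0) (p (nat_lit 0x38312) (nat_lit 0) (p (nat_lit 0x40212) (nat_lit 0) (p (nat_lit 0x28192) (nat_lit 0) (p (nat_lit 0x30092) (nat_lit 0) (p (nat_lit 0x18012) (nat_lit 0) pn)))))))))))))))))))))) :=
  Cl.node (nat_lit 0x89) (nat_lit 2) (by decide +kernel) (ClAll.succ (ClAll.succ ClAll.zero s126) n89)

def n113 : Cl (O (nat_lit 4)) (R (nat_lit 135377))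
    (p (nat_lit 0x101) (nat_lit 1) (p (nat_lit 0xc1) (nat_lit 1) (p (nat_lit 0x119) (nat_lit 1) (p (nat_lit 0xd1) (nat_lit 0) (p (nat_lit 0x81) (nat_lit 0) (p (nat_lit 0x41) (nat_lit 1) (p (nat_lit 0x109080787089a) (nat_lit 0) (p (nat_lit 0x108878706861a) (nat_lit 0) (p (nat_lit 0x8000000000000080686078a) (nat_lit 0) (p (nat_lit 0x8000000000000078605850a) (nat_lit 0) (p (nat_lit 0x10605850682) (nat_lit 0) (p (nat_lit 0x10585048402) (nat_lit 0) (p (nat_lit 0x16000c) (nat_lit 0) (p (nat_lit 0x160004) (nat_lit 0) (p (nat_lit 0x60592) (nat_lit 0) (p (nat_lit 0x48512) (nat_lit 0) (p (nat_lit 0x50392) (nat_lit 0) (p (nat_lit 0x38312) (nat_lit 0) (p (nat_lit 0x40212) (nat_lit 0) (p (nat_lit 0x28192) (nat_lit 0) (p (nat_lit 0x30092) (nat_lit 0) (p (nat_lit 0x18012) (nat_lit 0) pn)))))))))))))))))))))) :=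
  Cl.node (nat_lit 0x89) (nat_lit 2) (by decide +kernel) (ClAll.succ (ClAll.succ ClAll.zero s133) n90)

def n114 : Cl (O (nat_lit 4)) (R (nat_lit 135377))
    (p (nat_lit 0x109) (nat_lit 1) (p (nat_lit 0x101) (nat_lit 0) (p (nat_lit 0x111) (nat_lit 0) (p (nat_lit 0xd1) (nat_lit 1) (p (nat_lit 0x81) (nat_lit 0) (p (nat_lit 0x41) (nat_lit 1) (p (nat_lit 0x109080787089a) (nat_lit 0) (p (nat_lit 0x108878706861a) (nat_lit 0) (p (nat_lit 0x8000000000000080686078a) (nat_lit 0) (p (nat_lit 0x8000000000000078605850a) (nat_lit 0) (p (nat_lit 0x10605850682) (nat_lit 0) (p (nat_lit 0x10585048402) (nat_lit 0) (p (nat_lit 0x16000c) (nat_lit 0) (p (nat_lit 0x160004) (nat_lit 0) (p (nat_lit 0x60592) (nat_lit 0) (p (nat_lit 0x48512) (nat_lit 0) (p (nat_lit 0x50392) (nat_lit 0) (p (nat_lit 0x38312) (nat_lit 0) (p (nat_lit 0x40212) (nat_lit 0) (p (nat_lit 0x28192) (nat_lit 0) (p (nat_lit 0x30092) (nat_lit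 0) (p (nat_lit 0x18012) (nat_lit 0) pn)))))))))))))))))))))) :=
  Cl.node (nat_lit 0x89) (nat_lit 2) (by decide +kernel) (ClAll.succ (ClAll.succ ClAll.zero s142) n91)

def n115 : Cl (O (nat_lit 4)) (R (nat_lit 135377))
    (p (nat_lit 0x89) (nat_lit 1) (p (nat_lit 0x101) (nat_lit 1) (p (nat_lit 0x111) (nat_lit 0) (p (nat_lit 0xd1) (nat_lit 1) (p (nat_lit 0x81) (nat_lit 0) (p (nat_lit 0x41) (nat_lit 1) (p (nat_lit 0x109080787089a) (nat_lit 0) (p (nat_lit 0x108878706861a) (nat_lit 0) (p (nat_lit 0x8000000000000080686078a) (nat_lit 0) (p (nat_lit 0x8000000000000078605850a) (nat_lit 0) (p (nat_lit 0x10605850682) (nat_lit 0) (p (nat_lit 0x10585048402) (nat_lit 0) (p (nat_lit 0x16000c) (nat_lit 0) (p (nat_lit 0x160004) (nat_lit 0) (p (nat_lit 0x60592) (nat_lit 0) (p (nat_lit 0x48512) (nat_lit 0) (p (nat_lit 0x50392) (nat_lit 0) (p (nat_lit 0x38312) (nat_lit 0) (p (nat_lit 0x40212) (nat_lit 0)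 (p (nat_lit 0x28192) (nat_lit 0) (p (nat_lit 0x30092) (nat_lit 0) (p (nat_lit 0x18012) (nat_lit 0) pn)))))))))))))))))))))) :=
  Cl.node (nat_lit 0xc9) (nat_lit 2) (by decide +kernel) (ClAll.succ (ClAll.succ ClAll.zero s147) s148)

def n116 : Cl (O (nat_lit 4)) (R (nat_lit 135377))
    (p (nat_lit 0xc9) (nat_lit 1) (p (nat_lit 0x89) (nat_lit 1) (p (nat_lit 0x111) (nat_lit 1) (p (nat_lit 0xd1) (nat_lit 1) (p (nat_lit 0x81) (nat_lit 0) (p (nat_lit 0x41) (nat_lit 1) (p (nat_lit 0x109080787089a) (nat_lit 0) (p (nat_lit 0x108878706861a) (nat_lit 0) (p (nat_lit 0x8000000000000080686078a) (nat_lit 0) (p (nat_lit 0x8000000000000078605850a) (nat_lit 0) (p (nat_lit 0x10605850682) (nat_lit 0) (p (nat_lit 0x10585048402) (nat_lit 0) (p (nat_lit 0x16000c) (nat_lit 0) (p (nat_lit 0x160004) (nat_lit 0) (p (nat_lit 0x60592) (nat_lit 0) (p (nat_lit 0x48512) (nat_lit 0) (p (nat_lit 0x50392) (nat_lit 0) (p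 (nat_lit 0x38312) (nat_lit 0) (p (nat_lit 0x40212) (nat_lit 0) (p (nat_lit 0x28192) (nat_lit 0) (p (nat_lit 0x30092) (nat_lit 0) (p (nat_lit 0x18012) (nat_lit 0) pn)))))))))))))))))))))) :=
  Cl.node (nat_lit 0x109) (nat_lit 2) (by decide +kernel) (ClAll.succ (ClAll.succ ClAll.zero s151) n92)

def n117 : Cl (O (nat_lit 4)) (R (nat_lit 135377))
    (p (nat_lit 0x109) (nat_lit 1) (p (nat_lit 0x101) (nat_lit 0) (p (nat_lit 0x119) (nat_lit 0) (p (nat_lit 0xc1) (nat_lit 0) (p (nat_lit 0x81) (nat_lit 1) (p (nat_lit 0x41) (nat_lit 1) (p (nat_lit 0x109080787089a) (nat_lit 0) (p (nat_lit 0x108878706861a) (nat_lit 0) (p (nat_lit 0x8000000000000080686078a) (nat_lit 0) (p (nat_lit 0x8000000000000078605850a) (nat_lit 0) (p (nat_lit 0x10605850682) (nat_lit 0) (p (nat_lit 0x10585048402) (nat_lit 0) (p (nat_lit 0x16000c) (nat_lit 0) (p (nat_lit 0x160004) (nat_lit 0) (p (nat_lit 0x60592) (nat_lit 0) (p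 (nat_lit 0x48512) (nat_lit 0) (p (nat_lit 0x50392) (nat_lit 0) (p (nat_lit 0x38312) (nat_lit 0) (p (nat_lit 0x40212) (nat_lit 0) (p (nat_lit 0x28192) (nat_lit 0) (p (nat_lit 0x30092) (nat_lit 0) (p (nat_lit 0x18012) (nat_lit 0) pn)))))))))))))))))))))) :=
  Cl.node (nat_lit 0xc9) (nat_lit 2) (by decide +kernel) (ClAll.succ (ClAll.succ ClAll.zero n93) s158)

def n118 : Cl (O (nat_lit 4)) (R (nat_lit 135377))
    (p (nat_lit 0xc9) (nat_lit 0) (p (nat_lit 0x101) (nat_lit 1) (p (nat_lit 0x119) (nat_lit 0) (p (nat_lit 0xc1) (nat_lit 0) (p (nat_lit 0x81) (nat_lit 1) (p (nat_lit 0x41) (nat_lit 1) (p (nat_lit 0x109080787089a) (nat_lit 0) (p (nat_lit 0x108878706861a) (nat_lit 0) (p (nat_lit 0x8000000000000080686078a) (nat_lit 0) (p (nat_lit 0x8000000000000078605850a) (nat_lit 0) (p (nat_lit 0x10605850682) (nat_lit 0) (p (nat_lit 0x10585048402) (nat_lit 0) (p (nat_lit 0x16000c) (nat_lit 0) (p (nat_lit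 0x160004) (nat_lit 0) (p (nat_lit 0x60592) (nat_lit 0) (p (nat_lit 0x48512) (nat_lit 0) (p (nat_lit 0x50392) (nat_lit 0) (p (nat_lit 0x38312) (nat_lit 0) (p (nat_lit 0x40212) (nat_lit 0) (p (nat_lit 0x28192) (nat_lit 0) (p (nat_lit 0x30092) (nat_lit 0) (p (nat_lit 0x18012) (nat_lit 0) pn)))))))))))))))))))))) :=
  Cl.node (nat_lit 0xd1) (nat_lit 2) (by decide +kernel) (ClAll.succ (ClAll.succ ClAll.zero s159) s160)

def n119 : Cl (O (nat_lit 4)) (R (nat_lit 135377))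
    (p (nat_lit 0xd1) (nat_lit 1) (p (nat_lit 0xc9) (nat_lit 0) (p (nat_lit 0x119) (nat_lit 1) (p (nat_lit 0xc1) (nat_lit 0) (p (nat_lit 0x81) (nat_lit 1) (p (nat_lit 0x41) (nat_lit 1) (p (nat_lit 0x109080787089a) (nat_lit 0) (p (nat_lit 0x108878706861a) (nat_lit 0) (p (nat_lit 0x8000000000000080686078a) (nat_lit 0) (p (nat_lit 0x8000000000000078605850a) (nat_lit 0) (p (nat_lit 0x10605850682) (nat_lit 0) (p (nat_lit 0x10585048402) (nat_lit 0) (p (nat_lit 0x16000c) (nat_lit 0) (p (nat_lit 0x160004) (nat_lit 0) (p (nat_lit 0x60592) (nat_lit 0) (p (nat_lit 0x48512) (nat_lit 0) (p (nat_lit 0x50392) (nat_lit 0) (p (nat_lit 0x38312) (nat_lit 0) (p (nat_lit 0x40212) (nat_lit 0) (p (nat_lit 0x28192) (nat_lit 0) (p (nat_lit 0x30092) (nat_lit 0) (p (nat_lit 0x18012) (nat_lit 0) pn)))))))))))))))))))))) :=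
  Cl.node (nat_lit 0x111) (nat_lit 2) (by decide +kernel) (ClAll.succ (ClAll.succ ClAll.zero s163) n94)

def n120 : Cl (O (nat_lit 4)) (R (nat_lit 135377))
    (p (nat_lit 0x109) (nat_lit 0) (p (nat_lit 0xc9) (nat_lit 1) (p (nat_lit 0x119) (nat_lit 1) (p (nat_lit 0xc1) (nat_lit 0) (p (nat_lit 0x81) (nat_lit 1) (p (nat_lit 0x41) (nat_lit 1) (p (nat_lit 0x109080787089a) (nat_lit 0) (p (nat_lit 0x108878706861a) (nat_lit 0) (p (nat_lit 0x8000000000000080686078a) (nat_lit 0) (p (nat_lit 0x8000000000000078605850a) (nat_lit 0) (p (nat_lit 0x10605850682) (nat_lit 0) (p (nat_lit 0x10585048402) (nat_lit 0) (p (nat_lit 0x16000c) (nat_lit 0) (p (nat_lit 0x160004) (nat_lit 0) (p (nat_lit 0x60592) (nat_lit 0) (p (nat_lit 0x48512) (nat_lit 0) (p (nat_lit 0x50392) (nat_lit 0) (p (nat_lit 0x38312) (nat_lit 0) (p (nat_lit 0x40212) (nat_lit 0) (p (nat_lit 0x28192) (nat_lit 0) (p (nat_lit 0x30092) (nat_lit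 0) (p (nat_lit 0x18012) (nat_lit 0) pn)))))))))))))))))))))) :=
  Cl.node (nat_lit 0x111) (nat_lit 2) (by decide +kernel) (ClAll.succ (ClAll.succ ClAll.zero s166) n95)

def n121 : Cl (O (nat_lit 4)) (R (nat_lit 135377))
    (p (nat_lit 0x111) (nat_lit 0) (p (nat_lit 0x109) (nat_lit 0) (p (nat_lit 0x101) (nat_lit 0) (p (nat_lit 0xc1) (nat_lit 1) (p (nat_lit 0x81) (nat_lit 1) (p (nat_lit 0x41) (nat_lit 1) (p (nat_lit 0x109080787089a) (nat_lit 0) (p (nat_lit 0x108878706861a) (nat_lit 0) (p (nat_lit 0x8000000000000080686078a) (nat_lit 0) (p (nat_lit 0x8000000000000078605850a) (nat_lit 0) (p (nat_lit 0x10605850682) (nat_lit 0) (p (nat_lit 0x10585048402) (nat_lit 0) (p (nat_lit 0x16000c) (nat_lit 0) (p (nat_lit 0x160004) (nat_lit 0) (p (nat_lit 0x60592) (nat_lit 0) (p (nat_lit 0x48512) (nat_lit 0) (p (nat_lit 0x50392) (nat_lit 0) (p (nat_lit 0x38312) (nat_lit 0) (p (nat_lit 0x40212) (nat_lit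 0) (p (nat_lit 0x28192) (nat_lit 0) (p (nat_lit 0x30092) (nat_lit 0) (p (nat_lit 0x18012) (nat_lit 0) pn)))))))))))))))))))))) :=
  Cl.node (nat_lit 0x119) (nat_lit 2) (by decide +kernel) (ClAll.succ (ClAll.succ ClAll.zero s170) s171)

def n122 : Cl (O (nat_lit 4)) (R (nat_lit 135377))
    (p (nat_lit 0x101) (nat_lit 0) (p (nat_lit 0x119) (nat_lit 0) (p (nat_lit 0xd1) (nat_lit 0) (p (nat_lit 0x89) (nat_lit 0) (p (nat_lit 0x41) (nat_lit 0) (p (nat_lit 0x109080787089a) (nat_lit 0) (p (nat_lit 0x108878706861a) (nat_lit 0) (p (nat_lit 0x8000000000000080686078a) (nat_lit 0) (p (nat_lit 0x8000000000000078605850a) (nat_lit 0) (p (nat_lit 0x10605850682) (nat_lit 0) (p (nat_lit 0x10585048402) (nat_lit 0) (p (nat_lit 0x16000c) (nat_lit 0) (p (nat_lit 0x160004) (nat_lit 0) (p (nat_lit 0x60592) (nat_lit 0) (p (nat_lit 0x48512) (nat_lit 0) (p (nat_lit 0x50392) (nat_lit 0) (p (nat_lit 0x38312) (nat_lit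 0) (p (nat_lit 0x40212) (nat_lit 0) (p (nat_lit 0x28192) (nat_lit 0) (p (nat_lit 0x30092) (nat_lit 0) (p (nat_lit 0x18012) (nat_lit 0) pn))))))))))))))))))))) :=
  Cl.node (nat_lit 0x109) (nat_lit 2) (by decide +kernel) (ClAll.succ (ClAll.succ ClAll.zero s0) s1)

def n123 : Cl (O (nat_lit 4)) (R (nat_lit 135377))
    (p (nat_lit 0x101) (nat_lit 1) (p (nat_lit 0x119) (nat_lit 0) (p (nat_lit 0xd1) (nat_lit 0) (p (nat_lit 0x89) (nat_lit 0) (p (nat_lit 0x41) (nat_lit 0) (p (nat_lit 0x109080787089a) (nat_lit 0) (p (nat_lit 0x108878706861a) (nat_lit 0) (p (nat_lit 0x8000000000000080686078a) (nat_lit 0) (p (nat_lit 0x8000000000000078605850a) (nat_lit 0) (p (nat_lit 0x10605850682) (nat_lit 0) (p (nat_lit 0x10585048402) (nat_lit 0) (p (nat_lit 0x16000c) (nat_lit 0) (p (nat_lit 0x160004) (nat_lit 0) (p (nat_lit 0x60592) (nat_lit 0) (p (nat_lit 0x48512) (nat_lit 0) (p (nat_lit 0x50392) (nat_lit 0)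 (p (nat_lit 0x38312) (nat_lit 0) (p (nat_lit 0x40212) (nat_lit 0) (p (nat_lit 0x28192) (nat_lit 0) (p (nat_lit 0x30092) (nat_lit 0) (p (nat_lit 0x18012) (nat_lit 0) pn))))))))))))))))))))) :=
  Cl.node (nat_lit 0x81) (nat_lit 2) (by decide +kernel) (ClAll.succ (ClAll.succ ClAll.zero n96) n97)

def n124 : Cl (O (nat_lit 4)) (R (nat_lit 135377))
    (p (nat_lit 0xc1) (nat_lit 0) (p (nat_lit 0x119) (nat_lit 1) (p (nat_lit 0xd1) (nat_lit 0) (p (nat_lit 0x89) (nat_lit 0) (p (nat_lit 0x41) (nat_lit 0) (p (nat_lit 0x109080787089a) (nat_lit 0) (p (nat_lit 0x108878706861a) (nat_lit 0) (p (nat_lit 0x8000000000000080686078a) (nat_lit 0) (p (nat_lit 0x8000000000000078605850a) (nat_lit 0) (p (nat_lit 0x10605850682) (nat_lit 0) (p (nat_lit 0x10585048402) (nat_lit 0) (p (nat_lit 0x16000c) (nat_lit 0) (p (nat_lit 0x160004) (nat_lit 0) (p (nat_lit 0x60592) (nat_lit 0) (p (nat_lit 0x48512) (nat_lit 0) (p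 (nat_lit 0x50392) (nat_lit 0) (p (nat_lit 0x38312) (nat_lit 0) (p (nat_lit 0x40212) (nat_lit 0) (p (nat_lit 0x28192) (nat_lit 0) (p (nat_lit 0x30092) (nat_lit 0) (p (nat_lit 0x18012) (nat_lit 0) pn))))))))))))))))))))) :=
  Cl.node (nat_lit 0xc9) (nat_lit 2) (by decide +kernel) (ClAll.succ (ClAll.succ ClAll.zero s27) n98)

def n125 : Cl (O (nat_lit 4)) (R (nat_lit 135377))
    (p (nat_lit 0xc1) (nat_lit 1) (p (nat_lit 0x119) (nat_lit 1) (p (nat_lit 0xd1) (nat_lit 0) (p (nat_lit 0x89) (nat_lit 0) (p (nat_lit 0x41) (nat_lit 0) (p (nat_lit 0x109080787089a) (nat_lit 0) (p (nat_lit 0x108878706861a) (nat_lit 0) (p (nat_lit 0x8000000000000080686078a) (nat_lit 0) (p (nat_lit 0x8000000000000078605850a) (nat_lit 0) (p (nat_lit 0x10605850682) (nat_lit 0) (p (nat_lit 0x10585048402) (nat_lit 0) (p (nat_lit 0x16000c) (nat_lit 0) (p (nat_lit 0x160004) (nat_lit 0) (p (nat_lit 0x60592) (nat_lit 0) (p (nat_lit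 0x48512) (nat_lit 0) (p (nat_lit 0x50392) (nat_lit 0) (p (nat_lit 0x38312) (nat_lit 0) (p (nat_lit 0x40212) (nat_lit 0) (p (nat_lit 0x28192) (nat_lit 0) (p (nat_lit 0x30092) (nat_lit 0) (p (nat_lit 0x18012) (nat_lit 0) pn))))))))))))))))))))) :=
  Cl.node (nat_lit 0x81) (nat_lit 2) (by decide +kernel) (ClAll.succ (ClAll.succ ClAll.zero n99) n100)

def n126 : Cl (O (nat_lit 4)) (R (nat_lit 135377))
    (p (nat_lit 0x101) (nat_lit 1) (p (nat_lit 0x111) (nat_lit 0) (p (nat_lit 0xd1) (nat_lit 1) (p (nat_lit 0x89) (nat_lit 0) (p (nat_lit 0x41) (nat_lit 0) (p (nat_lit 0x109080787089a) (nat_lit 0) (p (nat_lit 0x108878706861a) (nat_lit 0) (p (nat_lit 0x8000000000000080686078a) (nat_lit 0) (p (nat_lit 0x8000000000000078605850a) (nat_lit 0) (p (nat_lit 0x10605850682) (nat_lit 0) (p (nat_lit 0x10585048402) (nat_lit 0) (p (nat_lit 0x16000c) (nat_lit 0) (p (nat_lit 0x160004) (nat_lit 0) (p (nat_lit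 0x60592) (nat_lit 0) (p (nat_lit 0x48512) (nat_lit 0) (p (nat_lit 0x50392) (nat_lit 0) (p (nat_lit 0x38312) (nat_lit 0) (p (nat_lit 0x40212) (nat_lit 0) (p (nat_lit 0x28192) (nat_lit 0) (p (nat_lit 0x30092) (nat_lit 0) (p (nat_lit 0x18012) (nat_lit 0) pn))))))))))))))))))))) :=
  Cl.node (nat_lit 0x81) (nat_lit 2) (by decide +kernel) (ClAll.succ (ClAll.succ ClAll.zero s54) n101)

def n127 : Cl (O (nat_lit 4)) (R (nat_lit 135377))
    (p (nat_lit 0x81) (nat_lit 1) (p (nat_lit 0x111) (nat_lit 1) (p (nat_lit 0xd1) (nat_lit 1) (p (nat_lit 0x89) (nat_lit 0) (p (nat_lit 0x41) (nat_lit 0) (p (nat_lit 0x109080787089a) (nat_lit 0) (p (nat_lit 0x108878706861a) (nat_lit 0) (p (nat_lit 0x8000000000000080686078a) (nat_lit 0) (p (nat_lit 0x8000000000000078605850a) (nat_lit 0) (p (nat_lit 0x10605850682) (nat_lit 0) (p (nat_lit 0x10585048402) (nat_lit 0) (p (nat_lit 0x16000c) (nat_lit 0) (p (nat_lit 0x160004)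 (nat_lit 0) (p (nat_lit 0x60592) (nat_lit 0) (p (nat_lit 0x48512) (nat_lit 0) (p (nat_lit 0x50392) (nat_lit 0) (p (nat_lit 0x38312) (nat_lit 0) (p (nat_lit 0x40212) (nat_lit 0) (p (nat_lit 0x28192) (nat_lit 0) (p (nat_lit 0x30092) (nat_lit 0) (p (nat_lit 0x18012) (nat_lit 0) pn))))))))))))))))))))) :=
  Cl.node (nat_lit 0xc1) (nat_lit 2) (by decide +kernel) (ClAll.succ (ClAll.succ ClAll.zero s60) s61)

def n128 : Cl (O (nat_lit 4)) (R (nat_lit 135377))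
    (p (nat_lit 0x101) (nat_lit 0) (p (nat_lit 0x119) (nat_lit 0) (p (nat_lit 0xc9) (nat_lit 0) (p (nat_lit 0x89) (nat_lit 1) (p (nat_lit 0x41) (nat_lit 0) (p (nat_lit 0x109080787089a) (nat_lit 0) (p (nat_lit 0x108878706861a) (nat_lit 0) (p (nat_lit 0x8000000000000080686078a) (nat_lit 0) (p (nat_lit 0x8000000000000078605850a) (nat_lit 0) (p (nat_lit 0x10605850682) (nat_lit 0) (p (nat_lit 0x10585048402) (nat_lit 0) (p (nat_lit 0x16000c) (nat_lit 0) (p (nat_lit 0x160004) (nat_lit 0) (p (nat_lit 0x60592) (nat_lit 0) (p (nat_lit 0x48512) (nat_lit 0) (p (nat_lit 0x50392) (nat_lit 0) (p (nat_lit 0x38312) (nat_lit 0) (p (nat_lit 0x40212) (nat_lit 0) (p (nat_lit 0x28192) (nat_lit 0) (p (nat_lit 0x30092) (nat_lit 0) (p (nat_lit 0x18012) (nat_lit 0) pn))))))))))))))))))))) :=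
  Cl.node (nat_lit 0x109) (nat_lit 2) (by decide +kernel) (ClAll.succ (ClAll.succ ClAll.zero s62) n102)

def n129 : Cl (O (nat_lit 4)) (R (nat_lit 135377))
    (p (nat_lit 0x101) (nat_lit 1) (p (nat_lit 0x119) (nat_lit 0) (p (nat_lit 0xc9) (nat_lit 0) (p (nat_lit 0x89) (nat_lit 1) (p (nat_lit 0x41) (nat_lit 0) (p (nat_lit 0x109080787089a) (nat_lit 0) (p (nat_lit 0x108878706861a) (nat_lit 0) (p (nat_lit 0x8000000000000080686078a) (nat_lit 0) (p (nat_lit 0x8000000000000078605850a) (nat_lit 0) (p (nat_lit 0x10605850682) (nat_lit 0) (p (nat_lit 0x10585048402) (nat_lit 0) (p (nat_lit 0x16000c) (nat_lit 0) (p (nat_lit 0x160004) (nat_lit 0) (p (nat_lit 0x60592) (nat_lit 0) (p (nat_lit 0x48512) (nat_lit 0) (p (nat_lit 0x50392) (nat_lit 0) (p (nat_lit 0x38312) (nat_lit 0) (p (nat_lit 0x40212) (nat_lit 0) (p (nat_lit 0x28192) (nat_lit 0) (p (nat_lit 0x30092) (nat_lit 0) (p (nat_lit 0x18012) (nat_lit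 0) pn))))))))))))))))))))) :=
  Cl.node (nat_lit 0xc1) (nat_lit 2) (by decide +kernel) (ClAll.succ (ClAll.succ ClAll.zero n103) s80)

def n130 : Cl (O (nat_lit 4)) (R (nat_lit 135377))
    (p (nat_lit 0xc1) (nat_lit 0) (p (nat_lit 0x119) (nat_lit 1) (p (nat_lit 0xc9) (nat_lit 0) (p (nat_lit 0x89) (nat_lit 1) (p (nat_lit 0x41) (nat_lit 0) (p (nat_lit 0x109080787089a) (nat_lit 0) (p (nat_lit 0x108878706861a) (nat_lit 0) (p (nat_lit 0x8000000000000080686078a) (nat_lit 0) (p (nat_lit 0x8000000000000078605850a) (nat_lit 0) (p (nat_lit 0x10605850682) (nat_lit 0) (p (nat_lit 0x10585048402) (nat_lit 0) (p (nat_lit 0x16000c) (nat_lit 0) (p (nat_lit 0x160004) (nat_lit 0) (p (nat_lit 0x60592) (nat_lit 0) (p (nat_lit 0x48512) (nat_lit 0) (p (nat_lit 0x50392) (nat_lit 0) (p (nat_lit 0x38312) (nat_lit 0) (p (nat_lit 0x40212) (nat_lit 0) (p (nat_lit 0x28192) (nat_lit 0) (p (nat_lit 0x30092) (nat_lit 0)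 (p (nat_lit 0x18012) (nat_lit 0) pn))))))))))))))))))))) :=
  Cl.node (nat_lit 0xd1) (nat_lit 2) (by decide +kernel) (ClAll.succ (ClAll.succ ClAll.zero s81) n104)

def n131 : Cl (O (nat_lit 4)) (R (nat_lit 135377))
    (p (nat_lit 0xc1) (nat_lit 1) (p (nat_lit 0x119) (nat_lit 1) (p (nat_lit 0xc9) (nat_lit 0) (p (nat_lit 0x89) (nat_lit 1) (p (nat_lit 0x41) (nat_lit 0) (p (nat_lit 0x109080787089a) (nat_lit 0) (p (nat_lit 0x108878706861a) (nat_lit 0) (p (nat_lit 0x8000000000000080686078a) (nat_lit 0) (p (nat_lit 0x8000000000000078605850a) (nat_lit 0) (p (nat_lit 0x10605850682) (nat_lit 0) (p (nat_lit 0x10585048402) (nat_lit 0) (p (nat_lit 0x16000c) (nat_lit 0) (p (nat_lit 0x160004) (nat_lit 0) (p (nat_lit 0x60592) (nat_lit 0) (p (nat_lit 0x48512) (nat_lit 0) (p (nat_lit 0x50392) (nat_lit 0) (p (nat_lit 0x38312) (nat_lit 0) (p (nat_lit 0x40212) (nat_lit 0) (p (nat_lit 0x28192) (nat_lit 0) (p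 (nat_lit 0x30092) (nat_lit 0) (p (nat_lit 0x18012) (nat_lit 0) pn))))))))))))))))))))) :=
  Cl.node (nat_lit 0x101) (nat_lit 2) (by decide +kernel) (ClAll.succ (ClAll.succ ClAll.zero n105) n106)

def n132 : Cl (O (nat_lit 4)) (R (nat_lit 135377))
    (p (nat_lit 0x101) (nat_lit 0) (p (nat_lit 0x109) (nat_lit 0) (p (nat_lit 0xc9) (nat_lit 1) (p (nat_lit 0x89) (nat_lit 1) (p (nat_lit 0x41) (nat_lit 0) (p (nat_lit 0x109080787089a) (nat_lit 0) (p (nat_lit 0x108878706861a) (nat_lit 0) (p (nat_lit 0x8000000000000080686078a) (nat_lit 0) (p (nat_lit 0x8000000000000078605850a) (nat_lit 0) (p (nat_lit 0x10605850682) (nat_lit 0) (p (nat_lit 0x10585048402) (nat_lit 0) (p (nat_lit 0x16000c) (nat_lit 0) (p (nat_lit 0x160004) (nat_lit 0) (p (nat_lit 0x60592) (nat_lit 0) (p (nat_lit 0x48512) (nat_lit 0) (p (nat_lit 0x50392) (nat_lit 0) (p (nat_lit 0x38312) (nat_lit 0) (p (nat_lit 0x40212) (nat_lit 0) (p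 (nat_lit 0x28192) (nat_lit 0) (p (nat_lit 0x30092) (nat_lit 0) (p (nat_lit 0x18012) (nat_lit 0) pn))))))))))))))))))))) :=
  Cl.node (nat_lit 0x111) (nat_lit 2) (by decide +kernel) (ClAll.succ (ClAll.succ ClAll.zero n107) s92)

def n133 : Cl (O (nat_lit 4)) (R (nat_lit 135377))
    (p (nat_lit 0x101) (nat_lit 0) (p (nat_lit 0x119) (nat_lit 0) (p (nat_lit 0xd1) (nat_lit 0) (p (nat_lit 0x81) (nat_lit 0) (p (nat_lit 0x41) (nat_lit 1) (p (nat_lit 0x109080787089a) (nat_lit 0) (p (nat_lit 0x108878706861a) (nat_lit 0) (p (nat_lit 0x8000000000000080686078a) (nat_lit 0) (p (nat_lit 0x8000000000000078605850a) (nat_lit 0) (p (nat_lit 0x10605850682) (nat_lit 0) (p (nat_lit 0x10585048402) (nat_lit 0) (p (nat_lit 0x16000c) (nat_lit 0) (p (nat_lit 0x160004) (nat_lit 0) (p (nat_lit 0x60592) (nat_lit 0) (p (nat_lit 0x48512) (nat_lit 0) (p (nat_lit 0x50392) (nat_lit 0) (p (nat_lit 0x38312) (nat_lit 0) (p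 (nat_lit 0x40212) (nat_lit 0) (p (nat_lit 0x28192) (nat_lit 0) (p (nat_lit 0x30092) (nat_lit 0) (p (nat_lit 0x18012) (nat_lit 0) pn))))))))))))))))))))) :=
  Cl.node (nat_lit 0x109) (nat_lit 2) (by decide +kernel) (ClAll.succ (ClAll.succ ClAll.zero s95) n108)

def n134 : Cl (O (nat_lit 4)) (R (nat_lit 135377))
    (p (nat_lit 0x101) (nat_lit 1) (p (nat_lit 0x119) (nat_lit 0) (p (nat_lit 0xd1) (nat_lit 0) (p (nat_lit 0x81) (nat_lit 0) (p (nat_lit 0x41) (nat_lit 1) (p (nat_lit 0x109080787089a) (nat_lit 0) (p (nat_lit 0x108878706861a) (nat_lit 0) (p (nat_lit 0x8000000000000080686078a) (nat_lit 0) (p (nat_lit 0x8000000000000078605850a) (nat_lit 0) (p (nat_lit 0x10605850682) (nat_lit 0) (p (nat_lit 0x10585048402) (nat_lit 0) (p (nat_lit 0x16000c) (nat_lit 0) (p (nat_lit 0x160004) (nat_lit 0) (p (nat_lit 0x60592) (nat_lit 0) (p (nat_lit 0x48512) (nat_lit 0) (p (nat_lit 0x50392) (nat_lit 0) (p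 (nat_lit 0x38312) (nat_lit 0) (p (nat_lit 0x40212) (nat_lit 0) (p (nat_lit 0x28192) (nat_lit 0) (p (nat_lit 0x30092) (nat_lit 0) (p (nat_lit 0x18012) (nat_lit 0) pn))))))))))))))))))))) :=
  Cl.node (nat_lit 0xc1) (nat_lit 2) (by decide +kernel) (ClAll.succ (ClAll.succ ClAll.zero n109) n110)

def n135 : Cl (O (nat_lit 4)) (R (nat_lit 135377))
    (p (nat_lit 0xc1) (nat_lit 0) (p (nat_lit 0x119) (nat_lit 1) (p (nat_lit 0xd1) (nat_lit 0) (p (nat_lit 0x81) (nat_lit 0) (p (nat_lit 0x41) (nat_lit 1) (p (nat_lit 0x109080787089a) (nat_lit 0) (p (nat_lit 0x108878706861a) (nat_lit 0) (p (nat_lit 0x8000000000000080686078a) (nat_lit 0) (p (nat_lit 0x8000000000000078605850a) (nat_lit 0) (p (nat_lit 0x10605850682) (nat_lit 0) (p (nat_lit 0x10585048402) (nat_lit 0) (p (nat_lit 0x16000c) (nat_lit 0) (p (nat_lit 0x160004) (nat_lit 0) (p (nat_lit 0x60592) (nat_lit 0) (p (nat_lit 0x48512) (nat_lit 0) (p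 (nat_lit 0x50392) (nat_lit 0) (p (nat_lit 0x38312) (nat_lit 0) (p (nat_lit 0x40212) (nat_lit 0) (p (nat_lit 0x28192) (nat_lit 0) (p (nat_lit 0x30092) (nat_lit 0) (p (nat_lit 0x18012) (nat_lit 0) pn))))))))))))))))))))) :=
  Cl.node (nat_lit 0xc9) (nat_lit 2) (by decide +kernel) (ClAll.succ (ClAll.succ ClAll.zero s119) n111)

def n136 : Cl (O (nat_lit 4)) (R (nat_lit 135377))
    (p (nat_lit 0xc1) (nat_lit 1) (p (nat_lit 0x119) (nat_lit 1) (p (nat_lit 0xd1) (nat_lit 0) (p (nat_lit 0x81) (nat_lit 0) (p (nat_lit 0x41) (nat_lit 1) (p (nat_lit 0x109080787089a) (nat_lit 0) (p (nat_lit 0x108878706861a) (nat_lit 0) (p (nat_lit 0x8000000000000080686078a) (nat_lit 0) (p (nat_lit 0x8000000000000078605850a) (nat_lit 0) (p (nat_lit 0x10605850682) (nat_lit 0) (p (nat_lit 0x10585048402) (nat_lit 0) (p (nat_lit 0x16000c) (nat_lit 0) (p (nat_lit 0x160004) (nat_lit 0) (p (nat_lit 0x60592) (nat_lit 0) (p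 (nat_lit 0x48512) (nat_lit 0) (p (nat_lit 0x50392) (nat_lit 0) (p (nat_lit 0x38312) (nat_lit 0) (p (nat_lit 0x40212) (nat_lit 0) (p (nat_lit 0x28192) (nat_lit 0) (p (nat_lit 0x30092) (nat_lit 0) (p (nat_lit 0x18012) (nat_lit 0) pn))))))))))))))))))))) :=
  Cl.node (nat_lit 0x101) (nat_lit 2) (by decide +kernel) (ClAll.succ (ClAll.succ ClAll.zero n112) n113)

def n137 : Cl (O (nat_lit 4)) (R (nat_lit 135377))
    (p (nat_lit 0x101) (nat_lit 0) (p (nat_lit 0x111) (nat_lit 0) (p (nat_lit 0xd1) (nat_lit 1) (p (nat_lit 0x81) (nat_lit 0) (p (nat_lit 0x41) (nat_lit 1) (p (nat_lit 0x109080787089a) (nat_lit 0) (p (nat_lit 0x108878706861a) (nat_lit 0) (p (nat_lit 0x8000000000000080686078a) (nat_lit 0) (p (nat_lit 0x8000000000000078605850a) (nat_lit 0) (p (nat_lit 0x10605850682) (nat_lit 0) (p (nat_lit 0x10585048402) (nat_lit 0) (p (nat_lit 0x16000c) (nat_lit 0) (p (nat_lit 0x160004) (nat_lit 0) (p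 (nat_lit 0x60592) (nat_lit 0) (p (nat_lit 0x48512) (nat_lit 0) (p (nat_lit 0x50392) (nat_lit 0) (p (nat_lit 0x38312) (nat_lit 0) (p (nat_lit 0x40212) (nat_lit 0) (p (nat_lit 0x28192) (nat_lit 0) (p (nat_lit 0x30092) (nat_lit 0) (p (nat_lit 0x18012) (nat_lit 0) pn))))))))))))))))))))) :=
  Cl.node (nat_lit 0x109) (nat_lit 2) (by decide +kernel) (ClAll.succ (ClAll.succ ClAll.zero s141) n114)

def n138 : Cl (O (nat_lit 4)) (R (nat_lit 135377))
    (p (nat_lit 0x101) (nat_lit 1) (p (nat_lit 0x111) (nat_lit 0) (p (nat_lit 0xd1) (nat_lit 1) (p (nat_lit 0x81) (nat_lit 0) (p (nat_lit 0x41) (nat_lit 1) (p (nat_lit 0x109080787089a) (nat_lit 0) (p (nat_lit 0x108878706861a) (nat_lit 0) (p (nat_lit 0x8000000000000080686078a) (nat_lit 0) (p (nat_lit 0x8000000000000078605850a) (nat_lit 0) (p (nat_lit 0x10605850682) (nat_lit 0) (p (nat_lit 0x10585048402) (nat_lit 0) (p (nat_lit 0x16000c) (nat_lit 0) (p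 (nat_lit 0x160004) (nat_lit 0) (p (nat_lit 0x60592) (nat_lit 0) (p (nat_lit 0x48512) (nat_lit 0) (p (nat_lit 0x50392) (nat_lit 0) (p (nat_lit 0x38312) (nat_lit 0) (p (nat_lit 0x40212) (nat_lit 0) (p (nat_lit 0x28192) (nat_lit 0) (p (nat_lit 0x30092) (nat_lit 0) (p (nat_lit 0x18012) (nat_lit 0) pn))))))))))))))))))))) :=
  Cl.node (nat_lit 0x89) (nat_lit 2) (by decide +kernel) (ClAll.succ (ClAll.succ ClAll.zero s146) n115)

def n139 : Cl (O (nat_lit 4)) (R (nat_lit 135377))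
    (p (nat_lit 0x89) (nat_lit 1) (p (nat_lit 0x111) (nat_lit 1) (p (nat_lit 0xd1) (nat_lit 1) (p (nat_lit 0x81) (nat_lit 0) (p (nat_lit 0x41) (nat_lit 1) (p (nat_lit 0x109080787089a) (nat_lit 0) (p (nat_lit 0x108878706861a) (nat_lit 0) (p (nat_lit 0x8000000000000080686078a) (nat_lit 0) (p (nat_lit 0x8000000000000078605850a) (nat_lit 0) (p (nat_lit 0x10605850682) (nat_lit 0) (p (nat_lit 0x10585048402) (nat_lit 0) (p (nat_lit 0x16000c) (nat_lit 0) (p (nat_lit 0x160004) (nat_lit 0) (p (nat_lit 0x60592) (nat_lit 0) (p (nat_lit 0x48512) (nat_lit 0) (p (nat_lit 0x50392) (nat_lit 0) (p (nat_lit 0x38312) (nat_lit 0) (p (nat_lit 0x40212) (nat_lit 0) (p (nat_lit 0x28192) (nat_lit 0) (p (nat_lit 0x30092) (nat_lit 0) (p (nat_lit 0x18012) (nat_lit 0) pn))))))))))))))))))))) :=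
  Cl.node (nat_lit 0xc9) (nat_lit 2) (by decide +kernel) (ClAll.succ (ClAll.succ ClAll.zero s150) n116)

def n140 : Cl (O (nat_lit 4)) (R (nat_lit 135377))
    (p (nat_lit 0x101) (nat_lit 0) (p (nat_lit 0x119) (nat_lit 0) (p (nat_lit 0xc1) (nat_lit 0) (p (nat_lit 0x81) (nat_lit 1) (p (nat_lit 0x41) (nat_lit 1) (p (nat_lit 0x109080787089a) (nat_lit 0) (p (nat_lit 0x108878706861a) (nat_lit 0) (p (nat_lit 0x8000000000000080686078a) (nat_lit 0) (p (nat_lit 0x8000000000000078605850a) (nat_lit 0) (p (nat_lit 0x10605850682) (nat_lit 0) (p (nat_lit 0x10585048402) (nat_lit 0) (p (nat_lit 0x16000c) (nat_lit 0) (p (nat_lit 0x160004) (nat_lit 0) (p (nat_lit 0x60592) (nat_lit 0) (p (nat_lit 0x48512) (nat_lit 0) (p (nat_lit 0x50392) (nat_lit 0) (p (nat_lit 0x38312) (nat_lit 0) (p (nat_lit 0x40212) (nat_lit 0) (p (nat_lit 0x28192) (nat_lit 0) (p (nat_lit 0x30092) (nat_lit 0) (p (nat_lit 0x18012) (nat_lit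 0) pn))))))))))))))))))))) :=
  Cl.node (nat_lit 0x109) (nat_lit 2) (by decide +kernel) (ClAll.succ (ClAll.succ ClAll.zero s155) n117)

def n141 : Cl (O (nat_lit 4)) (R (nat_lit 135377))
    (p (nat_lit 0x101) (nat_lit 1) (p (nat_lit 0x119) (nat_lit 0) (p (nat_lit 0xc1) (nat_lit 0) (p (nat_lit 0x81) (nat_lit 1) (p (nat_lit 0x41) (nat_lit 1) (p (nat_lit 0x109080787089a) (nat_lit 0) (p (nat_lit 0x108878706861a) (nat_lit 0) (p (nat_lit 0x8000000000000080686078a) (nat_lit 0) (p (nat_lit 0x8000000000000078605850a) (nat_lit 0) (p (nat_lit 0x10605850682) (nat_lit 0) (p (nat_lit 0x10585048402) (nat_lit 0) (p (nat_lit 0x16000c) (nat_lit 0) (p (nat_lit 0x160004) (nat_lit 0) (p (nat_lit 0x60592) (nat_lit 0) (p (nat_lit 0x48512) (nat_lit 0) (p (nat_lit 0x50392) (nat_lit 0) (p (nat_lit 0x38312) (nat_lit 0) (p (nat_lit 0x40212) (nat_lit 0) (p (nat_lit 0x28192) (nat_lit 0) (p (nat_lit 0x30092) (nat_lit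 0) (p (nat_lit 0x18012) (nat_lit 0) pn))))))))))))))))))))) :=
  Cl.node (nat_lit 0xc9) (nat_lit 2) (by decide +kernel) (ClAll.succ (ClAll.succ ClAll.zero n118) s161)

def n142 : Cl (O (nat_lit 4)) (R (nat_lit 135377))
    (p (nat_lit 0xc9) (nat_lit 0) (p (nat_lit 0x119) (nat_lit 1) (p (nat_lit 0xc1) (nat_lit 0) (p (nat_lit 0x81) (nat_lit 1) (p (nat_lit 0x41) (nat_lit 1) (p (nat_lit 0x109080787089a) (nat_lit 0) (p (nat_lit 0x108878706861a) (nat_lit 0) (p (nat_lit 0x8000000000000080686078a) (nat_lit 0) (p (nat_lit 0x8000000000000078605850a) (nat_lit 0) (p (nat_lit 0x10605850682) (nat_lit 0) (p (nat_lit 0x10585048402) (nat_lit 0) (p (nat_lit 0x16000c) (nat_lit 0) (p (nat_lit 0x160004) (nat_lit 0) (p (nat_lit 0x60592) (nat_lit 0) (p (nat_lit 0x48512) (nat_lit 0) (p (nat_lit 0x50392) (nat_lit 0) (p (nat_lit 0x38312) (nat_lit 0) (p (nat_lit 0x40212) (nat_lit 0) (p (nat_lit 0x28192) (nat_lit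 0) (p (nat_lit 0x30092) (nat_lit 0) (p (nat_lit 0x18012) (nat_lit 0) pn))))))))))))))))))))) :=
  Cl.node (nat_lit 0xd1) (nat_lit 2) (by decide +kernel) (ClAll.succ (ClAll.succ ClAll.zero s162) n119)

def n143 : Cl (O (nat_lit 4)) (R (nat_lit 135377))
    (p (nat_lit 0xc9) (nat_lit 1) (p (nat_lit 0x119) (nat_lit 1) (p (nat_lit 0xc1) (nat_lit 0) (p (nat_lit 0x81) (nat_lit 1) (p (nat_lit 0x41) (nat_lit 1) (p (nat_lit 0x109080787089a) (nat_lit 0) (p (nat_lit 0x108878706861a) (nat_lit 0) (p (nat_lit 0x8000000000000080686078a) (nat_lit 0) (p (nat_lit 0x8000000000000078605850a) (nat_lit 0) (p (nat_lit 0x10605850682) (nat_lit 0) (p (nat_lit 0x10585048402) (nat_lit 0) (p (nat_lit 0x16000c) (nat_lit 0) (p (nat_lit 0x160004) (nat_lit 0) (p (nat_lit 0x60592) (nat_lit 0) (p (nat_lit 0x48512) (nat_lit 0) (p (nat_lit 0x50392) (nat_lit 0) (p (nat_lit 0x38312) (nat_lit 0) (p (nat_lit 0x40212) (nat_lit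 0) (p (nat_lit 0x28192) (nat_lit 0) (p (nat_lit 0x30092) (nat_lit 0) (p (nat_lit 0x18012) (nat_lit 0) pn))))))))))))))))))))) :=
  Cl.node (nat_lit 0x109) (nat_lit 2) (by decide +kernel) (ClAll.succ (ClAll.succ ClAll.zero n120) s169)

def n144 : Cl (O (nat_lit 4)) (R (nat_lit 135377))
    (p (nat_lit 0x109) (nat_lit 0) (p (nat_lit 0x101) (nat_lit 0) (p (nat_lit 0xc1) (nat_lit 1) (p (nat_lit 0x81) (nat_lit 1) (p (nat_lit 0x41) (nat_lit 1) (p (nat_lit 0x109080787089a) (nat_lit 0) (p (nat_lit 0x108878706861a) (nat_lit 0) (p (nat_lit 0x8000000000000080686078a) (nat_lit 0) (p (nat_lit 0x8000000000000078605850a) (nat_lit 0) (p (nat_lit 0x10605850682) (nat_lit 0) (p (nat_lit 0x10585048402) (nat_lit 0) (p (nat_lit 0x16000c) (nat_lit 0) (p (nat_lit 0x160004) (nat_lit 0) (p (nat_lit 0x60592) (nat_lit 0) (p (nat_lit 0x48512) (nat_lit 0) (p (nat_lit 0x50392) (nat_lit 0) (p (nat_lit 0x38312) (nat_lit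 0) (p (nat_lit 0x40212) (nat_lit 0) (p (nat_lit 0x28192) (nat_lit 0) (p (nat_lit 0x30092) (nat_lit 0) (p (nat_lit 0x18012) (nat_lit 0) pn))))))))))))))))))))) :=
  Cl.node (nat_lit 0x111) (nat_lit 2) (by decide +kernel) (ClAll.succ (ClAll.succ ClAll.zero n121) s172)

def n145 : Cl (O (nat_lit 4)) (R (nat_lit 135377))
    (p (nat_lit 0x119) (nat_lit 0) (p (nat_lit 0xd1) (nat_lit 0) (p (nat_lit 0x89) (nat_lit 0) (p (nat_lit 0x41) (nat_lit 0) (p (nat_lit 0x109080787089a) (nat_lit 0) (p (nat_lit 0x108878706861a) (nat_lit 0) (p (nat_lit 0x8000000000000080686078a) (nat_lit 0) (p (nat_lit 0x8000000000000078605850a) (nat_lit 0) (p (nat_lit 0x10605850682) (nat_lit 0) (p (nat_lit 0x10585048402) (nat_lit 0) (p (nat_lit 0x16000c) (nat_lit 0) (p (nat_lit 0x160004) (nat_lit 0) (p (nat_lit 0x60592) (nat_lit 0) (p (nat_lit 0x48512) (nat_lit 0) (p (nat_lit 0x50392) (nat_lit 0) (p (nat_lit 0x38312) (nat_lit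 0) (p (nat_lit 0x40212) (nat_lit 0) (p (nat_lit 0x28192) (nat_lit 0) (p (nat_lit 0x30092) (nat_lit 0) (p (nat_lit 0x18012) (nat_lit 0) pn)))))))))))))))))))) :=
  Cl.node (nat_lit 0x101) (nat_lit 2) (by decide +kernel) (ClAll.succ (ClAll.succ ClAll.zero n122) n123)

def n146 : Cl (O (nat_lit 4)) (R (nat_lit 135377))
    (p (nat_lit 0x119) (nat_lit 1) (p (nat_lit 0xd1) (nat_lit 0) (p (nat_lit 0x89) (nat_lit 0) (p (nat_lit 0x41) (nat_lit 0) (p (nat_lit 0x109080787089a) (nat_lit 0) (p (nat_lit 0x108878706861a) (nat_lit 0) (p (nat_lit 0x8000000000000080686078a) (nat_lit 0) (p (nat_lit 0x8000000000000078605850a) (nat_lit 0) (p (nat_lit 0x10605850682) (nat_lit 0) (p (nat_lit 0x10585048402) (nat_lit 0) (p (nat_lit 0x16000c) (nat_lit 0) (p (nat_lit 0x160004) (nat_lit 0) (p (nat_lit 0x60592) (nat_lit 0) (p (nat_lit 0x48512) (nat_lit 0) (p (nat_lit 0x50392) (nat_lit 0) (p (nat_lit 0x38312) (nat_lit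 0) (p (nat_lit 0x40212) (nat_lit 0) (p (nat_lit 0x28192) (nat_lit 0) (p (nat_lit 0x30092) (nat_lit 0) (p (nat_lit 0x18012) (nat_lit 0) pn)))))))))))))))))))) :=
  Cl.node (nat_lit 0xc1) (nat_lit 2) (by decide +kernel) (ClAll.succ (ClAll.succ ClAll.zero n124) n125)

def n147 : Cl (O (nat_lit 4)) (R (nat_lit 135377))
    (p (nat_lit 0x111) (nat_lit 0) (p (nat_lit 0xd1) (nat_lit 1) (p (nat_lit 0x89) (nat_lit 0) (p (nat_lit 0x41) (nat_lit 0) (p (nat_lit 0x109080787089a) (nat_lit 0) (p (nat_lit 0x108878706861a) (nat_lit 0) (p (nat_lit 0x8000000000000080686078a) (nat_lit 0) (p (nat_lit 0x8000000000000078605850a) (nat_lit 0) (p (nat_lit 0x10605850682) (nat_lit 0) (p (nat_lit 0x10585048402) (nat_lit 0) (p (nat_lit 0x16000c) (nat_lit 0) (p (nat_lit 0x160004) (nat_lit 0) (p (nat_lit 0x60592) (nat_lit 0) (p (nat_lit 0x48512) (nat_lit 0) (p (nat_lit 0x50392) (nat_lit 0) (p (nat_lit 0x38312) (nat_lit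 0) (p (nat_lit 0x40212) (nat_lit 0) (p (nat_lit 0x28192) (nat_lit 0) (p (nat_lit 0x30092) (nat_lit 0) (p (nat_lit 0x18012) (nat_lit 0) pn)))))))))))))))))))) :=
  Cl.node (nat_lit 0x101) (nat_lit 2) (by decide +kernel) (ClAll.succ (ClAll.succ ClAll.zero s53) n126)

def n148 : Cl (O (nat_lit 4)) (R (nat_lit 135377))
    (p (nat_lit 0x111) (nat_lit 1) (p (nat_lit 0xd1) (nat_lit 1) (p (nat_lit 0x89) (nat_lit 0) (p (nat_lit 0x41) (nat_lit 0) (p (nat_lit 0x109080787089a) (nat_lit 0) (p (nat_lit 0x108878706861a) (nat_lit 0) (p (nat_lit 0x8000000000000080686078a) (nat_lit 0) (p (nat_lit 0x8000000000000078605850a) (nat_lit 0) (p (nat_lit 0x10605850682) (nat_lit 0) (p (nat_lit 0x10585048402) (nat_lit 0) (p (nat_lit 0x16000c) (nat_lit 0) (p (nat_lit 0x160004) (nat_lit 0) (p (nat_lit 0x60592) (nat_lit 0) (p (nat_lit 0x48512) (nat_lit 0) (p (nat_lit 0x50392) (nat_lit 0) (p (nat_lit 0x38312) (nat_lit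 0) (p (nat_lit 0x40212) (nat_lit 0) (p (nat_lit 0x28192) (nat_lit 0) (p (nat_lit 0x30092) (nat_lit 0) (p (nat_lit 0x18012) (nat_lit 0) pn)))))))))))))))))))) :=
  Cl.node (nat_lit 0x81) (nat_lit 2) (by decide +kernel) (ClAll.succ (ClAll.succ ClAll.zero s59) n127)

def n149 : Cl (O (nat_lit 4)) (R (nat_lit 135377))
    (p (nat_lit 0x119) (nat_lit 0) (p (nat_lit 0xc9) (nat_lit 0) (p (nat_lit 0x89) (nat_lit 1) (p (nat_lit 0x41) (nat_lit 0) (p (nat_lit 0x109080787089a) (nat_lit 0) (p (nat_lit 0x108878706861a) (nat_lit 0) (p (nat_lit 0x8000000000000080686078a) (nat_lit 0) (p (nat_lit 0x8000000000000078605850a) (nat_lit 0) (p (nat_lit 0x10605850682) (nat_lit 0) (p (nat_lit 0x10585048402) (nat_lit 0) (p (nat_lit 0x16000c) (nat_lit 0) (p (nat_lit 0x160004) (nat_lit 0) (p (nat_lit 0x60592) (nat_lit 0) (p (nat_lit 0x48512) (nat_lit 0) (p (nat_lit 0x50392) (nat_lit 0) (p (nat_lit 0x38312) (nat_lit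 0) (p (nat_lit 0x40212) (nat_lit 0) (p (nat_lit 0x28192) (nat_lit 0) (p (nat_lit 0x30092) (nat_lit 0) (p (nat_lit 0x18012) (nat_lit 0) pn)))))))))))))))))))) :=
  Cl.node (nat_lit 0x101) (nat_lit 2) (by decide +kernel) (ClAll.succ (ClAll.succ ClAll.zero n128) n129)

def n150 : Cl (O (nat_lit 4)) (R (nat_lit 135377))
    (p (nat_lit 0x119) (nat_lit 1) (p (nat_lit 0xc9) (nat_lit 0) (p (nat_lit 0x89) (nat_lit 1) (p (nat_lit 0x41) (nat_lit 0) (p (nat_lit 0x109080787089a) (nat_lit 0) (p (nat_lit 0x108878706861a) (nat_lit 0) (p (nat_lit 0x8000000000000080686078a) (nat_lit 0) (p (nat_lit 0x8000000000000078605850a) (nat_lit 0) (p (nat_lit 0x10605850682) (nat_lit 0) (p (nat_lit 0x10585048402) (nat_lit 0) (p (nat_lit 0x16000c) (nat_lit 0) (p (nat_lit 0x160004) (nat_lit 0) (p (nat_lit 0x60592) (nat_lit 0) (p (nat_lit 0x48512) (nat_lit 0) (p (nat_lit 0x50392) (nat_lit 0) (p (nat_lit 0x38312) (nat_lit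 0) (p (nat_lit 0x40212) (nat_lit 0) (p (nat_lit 0x28192) (nat_lit 0) (p (nat_lit 0x30092) (nat_lit 0) (p (nat_lit 0x18012) (nat_lit 0) pn)))))))))))))))))))) :=
  Cl.node (nat_lit 0xc1) (nat_lit 2) (by decide +kernel) (ClAll.succ (ClAll.succ ClAll.zero n130) n131)

def n151 : Cl (O (nat_lit 4)) (R (nat_lit 135377))
    (p (nat_lit 0x109) (nat_lit 0) (p (nat_lit 0xc9) (nat_lit 1) (p (nat_lit 0x89) (nat_lit 1) (p (nat_lit 0x41) (nat_lit 0) (p (nat_lit 0x109080787089a) (nat_lit 0) (p (nat_lit 0x108878706861a) (nat_lit 0) (p (nat_lit 0x8000000000000080686078a) (nat_lit 0) (p (nat_lit 0x8000000000000078605850a) (nat_lit 0) (p (nat_lit 0x10605850682) (nat_lit 0) (p (nat_lit 0x10585048402) (nat_lit 0) (p (nat_lit 0x16000c) (nat_lit 0) (p (nat_lit 0x160004) (nat_lit 0) (p (nat_lit 0x60592) (nat_lit 0) (p (nat_lit 0x48512) (nat_lit 0) (p (nat_lit 0x50392) (nat_lit 0) (p (nat_lit 0x38312) (nat_lit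 0) (p (nat_lit 0x40212) (nat_lit 0) (p (nat_lit 0x28192) (nat_lit 0) (p (nat_lit 0x30092) (nat_lit 0) (p (nat_lit 0x18012) (nat_lit 0) pn)))))))))))))))))))) :=
  Cl.node (nat_lit 0x101) (nat_lit 2) (by decide +kernel) (ClAll.succ (ClAll.succ ClAll.zero n132) s93)

def n152 : Cl (O (nat_lit 4)) (R (nat_lit 135377))
    (p (nat_lit 0x119) (nat_lit 0) (p (nat_lit 0xd1) (nat_lit 0) (p (nat_lit 0x81) (nat_lit 0) (p (nat_lit 0x41) (nat_lit 1) (p (nat_lit 0x109080787089a) (nat_lit 0) (p (nat_lit 0x108878706861a) (nat_lit 0) (p (nat_lit 0x8000000000000080686078a) (nat_lit 0) (p (nat_lit 0x8000000000000078605850a) (nat_lit 0) (p (nat_lit 0x10605850682) (nat_lit 0) (p (nat_lit 0x10585048402) (nat_lit 0) (p (nat_lit 0x16000c) (nat_lit 0) (p (nat_lit 0x160004) (nat_lit 0) (p (nat_lit 0x60592) (nat_lit 0) (p (nat_lit 0x48512) (nat_lit 0) (p (nat_lit 0x50392) (nat_lit 0) (p (nat_lit 0x38312) (nat_lit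 0) (p (nat_lit 0x40212) (nat_lit 0) (p (nat_lit 0x28192) (nat_lit 0) (p (nat_lit 0x30092) (nat_lit 0) (p (nat_lit 0x18012) (nat_lit 0) pn)))))))))))))))))))) :=
  Cl.node (nat_lit 0x101) (nat_lit 2) (by decide +kernel) (ClAll.succ (ClAll.succ ClAll.zero n133) n134)

def n153 : Cl (O (nat_lit 4)) (R (nat_lit 135377))
    (p (nat_lit 0x119) (nat_lit 1) (p (nat_lit 0xd1) (nat_lit 0) (p (nat_lit 0x81) (nat_lit 0) (p (nat_lit 0x41) (nat_lit 1) (p (nat_lit 0x109080787089a) (nat_lit 0) (p (nat_lit 0x108878706861a) (nat_lit 0) (p (nat_lit 0x8000000000000080686078a) (nat_lit 0) (p (nat_lit 0x8000000000000078605850a) (nat_lit 0) (p (nat_lit 0x10605850682) (nat_lit 0) (p (nat_lit 0x10585048402) (nat_lit 0) (p (nat_lit 0x16000c) (nat_lit 0) (p (nat_lit 0x160004) (nat_lit 0) (p (nat_lit 0x60592) (nat_lit 0) (p (nat_lit 0x48512) (nat_lit 0) (p (nat_lit 0x50392) (nat_lit 0) (p (nat_lit 0x38312) (nat_lit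 0) (p (nat_lit 0x40212) (nat_lit 0) (p (nat_lit 0x28192) (nat_lit 0) (p (nat_lit 0x30092) (nat_lit 0) (p (nat_lit 0x18012) (nat_lit 0) pn)))))))))))))))))))) :=
  Cl.node (nat_lit 0xc1) (nat_lit 2) (by decide +kernel) (ClAll.succ (ClAll.succ ClAll.zero n135) n136)

def n154 : Cl (O (nat_lit 4)) (R (nat_lit 135377))
    (p (nat_lit 0x111) (nat_lit 0) (p (nat_lit 0xd1) (nat_lit 1) (p (nat_lit 0x81) (nat_lit 0) (p (nat_lit 0x41) (nat_lit 1) (p (nat_lit 0x109080787089a) (nat_lit 0) (p (nat_lit 0x108878706861a) (nat_lit 0) (p (nat_lit 0x8000000000000080686078a) (nat_lit 0) (p (nat_lit 0x8000000000000078605850a) (nat_lit 0) (p (nat_lit 0x10605850682) (nat_lit 0) (p (nat_lit 0x10585048402) (nat_lit 0) (p (nat_lit 0x16000c) (nat_lit 0) (p (nat_lit 0x160004) (nat_lit 0) (p (nat_lit 0x60592) (nat_lit 0) (p (nat_lit 0x48512) (nat_lit 0) (p (nat_lit 0x50392) (nat_lit 0) (p (nat_lit 0x38312) (nat_lit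 0) (p (nat_lit 0x40212) (nat_lit 0) (p (nat_lit 0x28192) (nat_lit 0) (p (nat_lit 0x30092) (nat_lit 0) (p (nat_lit 0x18012) (nat_lit 0) pn)))))))))))))))))))) :=
  Cl.node (nat_lit 0x101) (nat_lit 2) (by decide +kernel) (ClAll.succ (ClAll.succ ClAll.zero n137) n138)

def n155 : Cl (O (nat_lit 4)) (R (nat_lit 135377))
    (p (nat_lit 0x111) (nat_lit 1) (p (nat_lit 0xd1) (nat_lit 1) (p (nat_lit 0x81) (nat_lit 0) (p (nat_lit 0x41) (nat_lit 1) (p (nat_lit 0x109080787089a) (nat_lit 0) (p (nat_lit 0x108878706861a) (nat_lit 0) (p (nat_lit 0x8000000000000080686078a) (nat_lit 0) (p (nat_lit 0x8000000000000078605850a) (nat_lit 0) (p (nat_lit 0x10605850682) (nat_lit 0) (p (nat_lit 0x10585048402) (nat_lit 0) (p (nat_lit 0x16000c) (nat_lit 0) (p (nat_lit 0x160004) (nat_lit 0) (p (nat_lit 0x60592) (nat_lit 0) (p (nat_lit 0x48512) (nat_lit 0) (p (nat_lit 0x50392) (nat_lit 0) (p (nat_lit 0x38312) (nat_lit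 0) (p (nat_lit 0x40212) (nat_lit 0) (p (nat_lit 0x28192) (nat_lit 0) (p (nat_lit 0x30092) (nat_lit 0) (p (nat_lit 0x18012) (nat_lit 0) pn)))))))))))))))))))) :=
  Cl.node (nat_lit 0x89) (nat_lit 2) (by decide +kernel) (ClAll.succ (ClAll.succ ClAll.zero s149) n139)

def n156 : Cl (O (nat_lit 4)) (R (nat_lit 135377))
    (p (nat_lit 0x119) (nat_lit 0) (p (nat_lit 0xc1) (nat_lit 0) (p (nat_lit 0x81) (nat_lit 1) (p (nat_lit 0x41) (nat_lit 1) (p (nat_lit 0x109080787089a) (nat_lit 0) (p (nat_lit 0x108878706861a) (nat_lit 0) (p (nat_lit 0x8000000000000080686078a) (nat_lit 0) (p (nat_lit 0x8000000000000078605850a) (nat_lit 0) (p (nat_lit 0x10605850682) (nat_lit 0) (p (nat_lit 0x10585048402) (nat_lit 0) (p (nat_lit 0x16000c) (nat_lit 0) (p (nat_lit 0x160004) (nat_lit 0) (p (nat_lit 0x60592) (nat_lit 0) (p (nat_lit 0x48512) (nat_lit 0) (p (nat_lit 0x50392) (nat_lit 0) (p (nat_lit 0x38312) (nat_lit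 0) (p (nat_lit 0x40212) (nat_lit 0) (p (nat_lit 0x28192) (nat_lit 0) (p (nat_lit 0x30092) (nat_lit 0) (p (nat_lit 0x18012) (nat_lit 0) pn)))))))))))))))))))) :=
  Cl.node (nat_lit 0x101) (nat_lit 2) (by decide +kernel) (ClAll.succ (ClAll.succ ClAll.zero n140) n141)

def n157 : Cl (O (nat_lit 4)) (R (nat_lit 135377))
    (p (nat_lit 0x119) (nat_lit 1) (p (nat_lit 0xc1) (nat_lit 0) (p (nat_lit 0x81) (nat_lit 1) (p (nat_lit 0x41) (nat_lit 1) (p (nat_lit 0x109080787089a) (nat_lit 0) (p (nat_lit 0x108878706861a) (nat_lit 0) (p (nat_lit 0x8000000000000080686078a) (nat_lit 0) (p (nat_lit 0x8000000000000078605850a) (nat_lit 0) (p (nat_lit 0x10605850682) (nat_lit 0) (p (nat_lit 0x10585048402) (nat_lit 0) (p (nat_lit 0x16000c) (nat_lit 0) (p (nat_lit 0x160004) (nat_lit 0) (p (nat_lit 0x60592) (nat_lit 0) (p (nat_lit 0x48512) (nat_lit 0) (p (nat_lit 0x50392) (nat_lit 0) (p (nat_lit 0x38312) (nat_lit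 0) (p (nat_lit 0x40212) (nat_lit 0) (p (nat_lit 0x28192) (nat_lit 0) (p (nat_lit 0x30092) (nat_lit 0) (p (nat_lit 0x18012) (nat_lit 0) pn)))))))))))))))))))) :=
  Cl.node (nat_lit 0xc9) (nat_lit 2) (by decide +kernel) (ClAll.succ (ClAll.succ ClAll.zero n142) n143)

def n158 : Cl (O (nat_lit 4)) (R (nat_lit 135377))
    (p (nat_lit 0x101) (nat_lit 0) (p (nat_lit 0xc1) (nat_lit 1) (p (nat_lit 0x81) (nat_lit 1) (p (nat_lit 0x41) (nat_lit 1) (p (nat_lit 0x109080787089a) (nat_lit 0) (p (nat_lit 0x108878706861a) (nat_lit 0) (p (nat_lit 0x8000000000000080686078a) (nat_lit 0) (p (nat_lit 0x8000000000000078605850a) (nat_lit 0) (p (nat_lit 0x10605850682) (nat_lit 0) (p (nat_lit 0x10585048402) (nat_lit 0) (p (nat_lit 0x16000c) (nat_lit 0) (p (nat_lit 0x160004) (nat_lit 0) (p (nat_lit 0x60592) (nat_lit 0) (p (nat_lit 0x48512) (nat_lit 0) (p (nat_lit 0x50392) (nat_lit 0) (p (nat_lit 0x38312) (nat_lit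 0) (p (nat_lit 0x40212) (nat_lit 0) (p (nat_lit 0x28192) (nat_lit 0) (p (nat_lit 0x30092) (nat_lit 0) (p (nat_lit 0x18012) (nat_lit 0) pn)))))))))))))))))))) :=
  Cl.node (nat_lit 0x109) (nat_lit 2) (by decide +kernel) (ClAll.succ (ClAll.succ ClAll.zero n144) s173)

def n159 : Cl (O (nat_lit 4)) (R (nat_lit 135377))
    (p (nat_lit 0xd1) (nat_lit 0) (p (nat_lit 0x89) (nat_lit 0) (p (nat_lit 0x41) (nat_lit 0) (p (nat_lit 0x109080787089a) (nat_lit 0) (p (nat_lit 0x108878706861a) (nat_lit 0) (p (nat_lit 0x8000000000000080686078a) (nat_lit 0) (p (nat_lit 0x8000000000000078605850a) (nat_lit 0) (p (nat_lit 0x10605850682) (nat_lit 0) (p (nat_lit 0x10585048402) (nat_lit 0) (p (nat_lit 0x16000c) (nat_lit 0) (p (nat_lit 0x160004) (nat_lit 0) (p (nat_lit 0x60592) (nat_lit 0) (p (nat_lit 0x48512) (nat_lit 0) (p (nat_lit 0x50392) (nat_lit 0) (p (nat_lit 0x38312) (nat_lit 0) (p (nat_lit 0x40212) (nat_lit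 0) (p (nat_lit 0x28192) (nat_lit 0) (p (nat_lit 0x30092) (nat_lit 0) (p (nat_lit 0x18012) (nat_lit 0) pn))))))))))))))))))) :=
  Cl.node (nat_lit 0x119) (nat_lit 2) (by decide +kernel) (ClAll.succ (ClAll.succ ClAll.zero n145) n146)

def n160 : Cl (O (nat_lit 4)) (R (nat_lit 135377))
    (p (nat_lit 0xd1) (nat_lit 1) (p (nat_lit 0x89) (nat_lit 0) (p (nat_lit 0x41) (nat_lit 0) (p (nat_lit 0x109080787089a) (nat_lit 0) (p (nat_lit 0x108878706861a) (nat_lit 0) (p (nat_lit 0x8000000000000080686078a) (nat_lit 0) (p (nat_lit 0x8000000000000078605850a) (nat_lit 0) (p (nat_lit 0x10605850682) (nat_lit 0) (p (nat_lit 0x10585048402) (nat_lit 0) (p (nat_lit 0x16000c) (nat_lit 0) (p (nat_lit 0x160004) (nat_lit 0) (p (nat_lit 0x60592) (nat_lit 0) (p (nat_lit 0x48512) (nat_lit 0) (p (nat_lit 0x50392) (nat_lit 0) (p (nat_lit 0x38312) (nat_lit 0) (p (nat_lit 0x40212) (nat_lit 0) (p (nat_lit 0x28192) (nat_lit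 0) (p (nat_lit 0x30092) (nat_lit 0) (p (nat_lit 0x18012) (nat_lit 0) pn))))))))))))))))))) :=
  Cl.node (nat_lit 0x111) (nat_lit 2) (by decide +kernel) (ClAll.succ (ClAll.succ ClAll.zero n147) n148)

def n161 : Cl (O (nat_lit 4)) (R (nat_lit 135377))
    (p (nat_lit 0xc9) (nat_lit 0) (p (nat_lit 0x89) (nat_lit 1) (p (nat_lit 0x41) (nat_lit 0) (p (nat_lit 0x109080787089a) (nat_lit 0) (p (nat_lit 0x108878706861a) (nat_lit 0) (p (nat_lit 0x8000000000000080686078a) (nat_lit 0) (p (nat_lit 0x8000000000000078605850a) (nat_lit 0) (p (nat_lit 0x10605850682) (nat_lit 0) (p (nat_lit 0x10585048402) (nat_lit 0) (p (nat_lit 0x16000c) (nat_lit 0) (p (nat_lit 0x160004) (nat_lit 0) (p (nat_lit 0x60592) (nat_lit 0) (p (nat_lit 0x48512) (nat_lit 0) (p (nat_lit 0x50392) (nat_lit 0) (p (nat_lit 0x38312) (nat_lit 0) (p (nat_lit 0x40212) (nat_lit 0) (p (nat_lit 0x28192) (nat_lit 0) (p (nat_lit 0x30092) (nat_lit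 0) (p (nat_lit 0x18012) (nat_lit 0) pn))))))))))))))))))) :=
  Cl.node (nat_lit 0x119) (nat_lit 2) (by decide +kernel) (ClAll.succ (ClAll.succ ClAll.zero n149) n150)

def n162 : Cl (O (nat_lit 4)) (R (nat_lit 135377))
    (p (nat_lit 0xc9) (nat_lit 1) (p (nat_lit 0x89) (nat_lit 1) (p (nat_lit 0x41) (nat_lit 0) (p (nat_lit 0x109080787089a) (nat_lit 0) (p (nat_lit 0x108878706861a) (nat_lit 0) (p (nat_lit 0x8000000000000080686078a) (nat_lit 0) (p (nat_lit 0x8000000000000078605850a) (nat_lit 0) (p (nat_lit 0x10605850682) (nat_lit 0) (p (nat_lit 0x10585048402) (nat_lit 0) (p (nat_lit 0x16000c) (nat_lit 0) (p (nat_lit 0x160004) (nat_lit 0) (p (nat_lit 0x60592) (nat_lit 0) (p (nat_lit 0x48512) (nat_lit 0) (p (nat_lit 0x50392) (nat_lit 0) (p (nat_lit 0x38312) (nat_lit 0) (p (nat_lit 0x40212) (nat_lit 0) (p (nat_lit 0x28192) (nat_lit 0) (p (nat_lit 0x30092) (nat_lit 0) (p (nat_lit 0x18012) (nat_lit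 0) pn))))))))))))))))))) :=
  Cl.node (nat_lit 0x109) (nat_lit 2) (by decide +kernel) (ClAll.succ (ClAll.succ ClAll.zero n151) s94)

def n163 : Cl (O (nat_lit 4)) (R (nat_lit 135377))
    (p (nat_lit 0xd1) (nat_lit 0) (p (nat_lit 0x81) (nat_lit 0) (p (nat_lit 0x41) (nat_lit 1) (p (nat_lit 0x109080787089a) (nat_lit 0) (p (nat_lit 0x108878706861a) (nat_lit 0) (p (nat_lit 0x8000000000000080686078a) (nat_lit 0) (p (nat_lit 0x8000000000000078605850a) (nat_lit 0) (p (nat_lit 0x10605850682) (nat_lit 0) (p (nat_lit 0x10585048402) (nat_lit 0) (p (nat_lit 0x16000c) (nat_lit 0) (p (nat_lit 0x160004) (nat_lit 0) (p (nat_lit 0x60592) (nat_lit 0) (p (nat_lit 0x48512) (nat_lit 0) (p (nat_lit 0x50392) (nat_lit 0) (p (nat_lit 0x38312) (nat_lit 0) (p (nat_lit 0x40212) (nat_lit 0) (p (nat_lit 0x28192) (nat_lit 0) (p (nat_lit 0x30092) (nat_lit 0) (p (nat_lit 0x18012) (nat_lit 0) pn))))))))))))))))))) :=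
  Cl.node (nat_lit 0x119) (nat_lit 2) (by decide +kernel) (ClAll.succ (ClAll.succ ClAll.zero n152) n153)

def n164 : Cl (O (nat_lit 4)) (R (nat_lit 135377))
    (p (nat_lit 0xd1) (nat_lit 1) (p (nat_lit 0x81) (nat_lit 0) (p (nat_lit 0x41) (nat_lit 1) (p (nat_lit 0x109080787089a) (nat_lit 0) (p (nat_lit 0x108878706861a) (nat_lit 0) (p (nat_lit 0x8000000000000080686078a) (nat_lit 0) (p (nat_lit 0x8000000000000078605850a) (nat_lit 0) (p (nat_lit 0x10605850682) (nat_lit 0) (p (nat_lit 0x10585048402) (nat_lit 0) (p (nat_lit 0x16000c) (nat_lit 0) (p (nat_lit 0x160004) (nat_lit 0) (p (nat_lit 0x60592) (nat_lit 0) (p (nat_lit 0x48512) (nat_lit 0) (p (nat_lit 0x50392) (nat_lit 0) (p (nat_lit 0x38312) (nat_lit 0) (p (nat_lit 0x40212) (nat_lit 0) (p (nat_lit 0x28192) (nat_lit 0) (p (nat_lit 0x30092) (nat_lit 0) (p (nat_lit 0x18012) (nat_lit 0) pn))))))))))))))))))) :=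
  Cl.node (nat_lit 0x111) (nat_lit 2) (by decide +kernel) (ClAll.succ (ClAll.succ ClAll.zero n154) n155)

def n165 : Cl (O (nat_lit 4)) (R (nat_lit 135377))
    (p (nat_lit 0xc1) (nat_lit 0) (p (nat_lit 0x81) (nat_lit 1) (p (nat_lit 0x41) (nat_lit 1) (p (nat_lit 0x109080787089a) (nat_lit 0) (p (nat_lit 0x108878706861a) (nat_lit 0) (p (nat_lit 0x8000000000000080686078a) (nat_lit 0) (p (nat_lit 0x8000000000000078605850a) (nat_lit 0) (p (nat_lit 0x10605850682) (nat_lit 0) (p (nat_lit 0x10585048402) (nat_lit 0) (p (nat_lit 0x16000c) (nat_lit 0) (p (nat_lit 0x160004) (nat_lit 0) (p (nat_lit 0x60592) (nat_lit 0) (p (nat_lit 0x48512) (nat_lit 0) (p (nat_lit 0x50392) (nat_lit 0) (p (nat_lit 0x38312) (nat_lit 0) (p (nat_lit 0x40212) (nat_lit 0) (p (nat_lit 0x28192) (nat_lit 0) (p (nat_lit 0x30092) (nat_lit 0) (p (nat_lit 0x18012) (nat_lit 0) pn))))))))))))))))))) :=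
  Cl.node (nat_lit 0x119) (nat_lit 2) (by decide +kernel) (ClAll.succ (ClAll.succ ClAll.zero n156) n157)

def n166 : Cl (O (nat_lit 4)) (R (nat_lit 135377))
    (p (nat_lit 0xc1) (nat_lit 1) (p (nat_lit 0x81) (nat_lit 1) (p (nat_lit 0x41) (nat_lit 1) (p (nat_lit 0x109080787089a) (nat_lit 0) (p (nat_lit 0x108878706861a) (nat_lit 0) (p (nat_lit 0x8000000000000080686078a) (nat_lit 0) (p (nat_lit 0x8000000000000078605850a) (nat_lit 0) (p (nat_lit 0x10605850682) (nat_lit 0) (p (nat_lit 0x10585048402) (nat_lit 0) (p (nat_lit 0x16000c) (nat_lit 0) (p (nat_lit 0x160004) (nat_lit 0) (p (nat_lit 0x60592) (nat_lit 0) (p (nat_lit 0x48512) (nat_lit 0) (p (nat_lit 0x50392) (nat_lit 0) (p (nat_lit 0x38312) (nat_lit 0) (p (nat_lit 0x40212) (nat_lit 0) (p (nat_lit 0x28192) (nat_lit 0) (p (nat_lit 0x30092) (nat_lit 0) (p (nat_lit 0x18012) (nat_lit 0) pn))))))))))))))))))) :=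
  Cl.node (nat_lit 0x101) (nat_lit 2) (by decide +kernel) (ClAll.succ (ClAll.succ ClAll.zero n158) s174)

def n167 : Cl (O (nat_lit 4)) (R (nat_lit 135377))
    (p (nat_lit 0x89) (nat_lit 0) (p (nat_lit 0x41) (nat_lit 0) (p (nat_lit 0x109080787089a) (nat_lit 0) (p (nat_lit 0x108878706861a) (nat_lit 0) (p (nat_lit 0x8000000000000080686078a) (nat_lit 0) (p (nat_lit 0x8000000000000078605850a) (nat_lit 0) (p (nat_lit 0x10605850682) (nat_lit 0) (p (nat_lit 0x10585048402) (nat_lit 0) (p (nat_lit 0x16000c) (nat_lit 0) (p (nat_lit 0x160004) (nat_lit 0) (p (nat_lit 0x60592) (nat_lit 0) (p (nat_lit 0x48512) (nat_lit 0) (p (nat_lit 0x50392) (nat_lit 0) (p (nat_lit 0x38312) (nat_lit 0) (p (nat_lit 0x40212) (nat_lit 0) (p (nat_lit 0x28192) (nat_lit 0) (p (nat_lit 0x30092) (nat_lit 0) (p (nat_lit 0x18012) (nat_lit 0) pn)))))))))))))))))) :=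
  Cl.node (nat_lit 0xd1) (nat_lit 2) (by decide +kernel) (ClAll.succ (ClAll.succ ClAll.zero n159) n160)

def n168 : Cl (O (nat_lit 4)) (R (nat_lit 135377))
    (p (nat_lit 0x89) (nat_lit 1) (p (nat_lit 0x41) (nat_lit 0) (p (nat_lit 0x109080787089a) (nat_lit 0) (p (nat_lit 0x108878706861a) (nat_lit 0) (p (nat_lit 0x8000000000000080686078a) (nat_lit 0) (p (nat_lit 0x8000000000000078605850a) (nat_lit 0) (p (nat_lit 0x10605850682) (nat_lit 0) (p (nat_lit 0x10585048402) (nat_lit 0) (p (nat_lit 0x16000c) (nat_lit 0) (p (nat_lit 0x160004) (nat_lit 0) (p (nat_lit 0x60592) (nat_lit 0) (p (nat_lit 0x48512) (nat_lit 0) (p (nat_lit 0x50392) (nat_lit 0) (p (nat_lit 0x38312) (nat_lit 0) (p (nat_lit 0x40212) (nat_lit 0) (p (nat_lit 0x28192) (nat_lit 0) (p (nat_lit 0x30092) (nat_lit 0) (p (nat_lit 0x18012) (nat_lit 0) pn)))))))))))))))))) :=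
  Cl.node (nat_lit 0xc9) (nat_lit 2) (by decide +kernel) (ClAll.succ (ClAll.succ ClAll.zero n161) n162)

def n169 : Cl (O (nat_lit 4)) (R (nat_lit 135377))
    (p (nat_lit 0x81) (nat_lit 0) (p (nat_lit 0x41) (nat_lit 1) (p (nat_lit 0x109080787089a) (nat_lit 0) (p (nat_lit 0x108878706861a) (nat_lit 0) (p (nat_lit 0x8000000000000080686078a) (nat_lit 0) (p (nat_lit 0x8000000000000078605850a) (nat_lit 0) (p (nat_lit 0x10605850682) (nat_lit 0) (p (nat_lit 0x10585048402) (nat_lit 0) (p (nat_lit 0x16000c) (nat_lit 0) (p (nat_lit 0x160004) (nat_lit 0) (p (nat_lit 0x60592) (nat_lit 0) (p (nat_lit 0x48512) (nat_lit 0) (p (nat_lit 0x50392) (nat_lit 0) (p (nat_lit 0x38312) (nat_lit 0) (p (nat_lit 0x40212) (nat_lit 0) (p (nat_lit 0x28192) (nat_lit 0) (p (nat_lit 0x30092) (nat_lit 0) (p (nat_lit 0x18012) (nat_lit 0) pn)))))))))))))))))) :=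
  Cl.node (nat_lit 0xd1) (nat_lit 2) (by decide +kernel) (ClAll.succ (ClAll.succ ClAll.zero n163) n164)

def n170 : Cl (O (nat_lit 4)) (R (nat_lit 135377))
    (p (nat_lit 0x81) (nat_lit 1) (p (nat_lit 0x41) (nat_lit 1) (p (nat_lit 0x109080787089a) (nat_lit 0) (p (nat_lit 0x108878706861a) (nat_lit 0) (p (nat_lit 0x8000000000000080686078a) (nat_lit 0) (p (nat_lit 0x8000000000000078605850a) (nat_lit 0) (p (nat_lit 0x10605850682) (nat_lit 0) (p (nat_lit 0x10585048402) (nat_lit 0) (p (nat_lit 0x16000c) (nat_lit 0) (p (nat_lit 0x160004) (nat_lit 0) (p (nat_lit 0x60592) (nat_lit 0) (p (nat_lit 0x48512) (nat_lit 0) (p (nat_lit 0x50392) (nat_lit 0) (p (nat_lit 0x38312) (nat_lit 0) (p (nat_lit 0x40212) (nat_lit 0) (p (nat_lit 0x28192) (nat_lit 0) (p (nat_lit 0x30092) (nat_lit 0) (p (nat_lit 0x18012) (nat_lit 0) pn)))))))))))))))))) :=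
  Cl.node (nat_lit 0xc1) (nat_lit 2) (by decide +kernel) (ClAll.succ (ClAll.succ ClAll.zero n165) n166)

def n171 : Cl (O (nat_lit 4)) (R (nat_lit 135377))
    (p (nat_lit 0x41) (nat_lit 0) (p (nat_lit 0x109080787089a) (nat_lit 0) (p (nat_lit 0x108878706861a) (nat_lit 0) (p (nat_lit 0x8000000000000080686078a) (nat_lit 0) (p (nat_lit 0x8000000000000078605850a) (nat_lit 0) (p (nat_lit 0x10605850682) (nat_lit 0) (p (nat_lit 0x10585048402) (nat_lit 0) (p (nat_lit 0x16000c) (nat_lit 0) (p (nat_lit 0x160004) (nat_lit 0) (p (nat_lit 0x60592) (nat_lit 0) (p (nat_lit 0x48512) (nat_lit 0) (p (nat_lit 0x50392) (nat_lit 0) (p (nat_lit 0x38312) (nat_lit 0) (p (nat_lit 0x40212) (nat_lit 0) (p (nat_lit 0x28192) (nat_lit 0) (p (nat_lit 0x30092) (nat_lit 0) (p (nat_lit 0x18012) (nat_lit 0) pn))))))))))))))))) :=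
  Cl.node (nat_lit 0x89) (nat_lit 2) (by decide +kernel) (ClAll.succ (ClAll.succ ClAll.zero n167) n168)

def n172 : Cl (O (nat_lit 4)) (R (nat_lit 135377))
    (p (nat_lit 0x41) (nat_lit 1) (p (nat_lit 0x109080787089a) (nat_lit 0) (p (nat_lit 0x108878706861a) (nat_lit 0) (p (nat_lit 0x8000000000000080686078a) (nat_lit 0) (p (nat_lit 0x8000000000000078605850a) (nat_lit 0) (p (nat_lit 0x10605850682) (nat_lit 0) (p (nat_lit 0x10585048402) (nat_lit 0) (p (nat_lit 0x16000c) (nat_lit 0) (p (nat_lit 0x160004) (nat_lit 0) (p (nat_lit 0x60592) (nat_lit 0) (p (nat_lit 0x48512) (nat_lit 0) (p (nat_lit 0x50392) (nat_lit 0) (p (nat_lit 0x38312) (nat_lit 0) (p (nat_lit 0x40212) (nat_lit 0) (p (nat_lit 0x28192) (nat_lit 0) (p (nat_lit 0x30092) (nat_lit 0) (p (nat_lit 0x18012) (nat_lit 0) pn))))))))))))))))) :=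
  Cl.node (nat_lit 0x81) (nat_lit 2) (by decide +kernel) (ClAll.succ (ClAll.succ ClAll.zero n169) n170)

def n173 : Cl (O (nat_lit 4)) (R (nat_lit 135377))
    (p (nat_lit 0x109080787089a) (nat_lit 0) (p (nat_lit 0x108878706861a) (nat_lit 0) (p (nat_lit 0x8000000000000080686078a) (nat_lit 0) (p (nat_lit 0x8000000000000078605850a) (nat_lit 0) (p (nat_lit 0x10605850682) (nat_lit 0) (p (nat_lit 0x10585048402) (nat_lit 0) (p (nat_lit 0x16000c) (nat_lit 0) (p (nat_lit 0x160004) (nat_lit 0) (p (nat_lit 0x60592) (nat_lit 0) (p (nat_lit 0x48512) (nat_lit 0) (p (nat_lit 0x50392) (nat_lit 0) (p (nat_lit 0x38312) (nat_lit 0) (p (nat_lit 0x40212) (nat_lit 0) (p (nat_lit 0x28192) (nat_lit 0) (p (nat_lit 0x30092) (nat_lit 0) (p (nat_lit 0x18012) (nat_lit 0) pn)))))))))))))))) :=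
  Cl.node (nat_lit 0x41) (nat_lit 2) (by decide +kernel) (ClAll.succ (ClAll.succ ClAll.zero n171) n172)

def n174 : Cl (O (nat_lit 4)) (R (nat_lit 135377))
    (p (nat_lit 0x108878706861a) (nat_lit 0) (p (nat_lit 0x8000000000000080686078a) (nat_lit 0) (p (nat_lit 0x8000000000000078605850a) (nat_lit 0) (p (nat_lit 0x10605850682) (nat_lit 0) (p (nat_lit 0x10585048402) (nat_lit 0) (p (nat_lit 0x16000c) (nat_lit 0) (p (nat_lit 0x160004) (nat_lit 0) (p (nat_lit 0x60592) (nat_lit 0) (p (nat_lit 0x48512) (nat_lit 0) (p (nat_lit 0x50392) (nat_lit 0) (p (nat_lit 0x38312) (nat_lit 0) (p (nat_lit 0x40212) (nat_lit 0) (p (nat_lit 0x28192) (nat_lit 0) (p (nat_lit 0x30092) (nat_lit 0) (p (nat_lit 0x18012) (nat_lit 0) pn))))))))))))))) :=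
  Cl.node (nat_lit 0x109080787089a) (nat_lit 1) (by decide +kernel) (ClAll.succ ClAll.zero n173)

def n175 : Cl (O (nat_lit 4)) (R (nat_lit 135377))
    (p (nat_lit 0x8000000000000080686078a) (nat_lit 0) (p (nat_lit 0x8000000000000078605850a) (nat_lit 0) (p (nat_lit 0x10605850682) (nat_lit 0) (p (nat_lit 0x10585048402) (nat_lit 0) (p (nat_lit 0x16000c) (nat_lit 0) (p (nat_lit 0x160004) (nat_lit 0) (p (nat_lit 0x60592) (nat_lit 0) (p (nat_lit 0x48512) (nat_lit 0) (p (nat_lit 0x50392) (nat_lit 0) (p (nat_lit 0x38312) (nat_lit 0) (p (nat_lit 0x40212) (nat_lit 0) (p (nat_lit 0x28192) (nat_lit 0) (p (nat_lit 0x30092) (nat_lit 0) (p (nat_lit 0x18012) (nat_lit 0) pn)))))))))))))) :=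
  Cl.node (nat_lit 0x108878706861a) (nat_lit 1) (by decide +kernel) (ClAll.succ ClAll.zero n174)

def n176 : Cl (O (nat_lit 4)) (R (nat_lit 135377))
    (p (nat_lit 0x8000000000000078605850a) (nat_lit 0) (p (nat_lit 0x10605850682) (nat_lit 0) (p (nat_lit 0x10585048402) (nat_lit 0) (p (nat_lit 0x16000c) (nat_lit 0) (p (nat_lit 0x160004) (nat_lit 0) (p (nat_lit 0x60592) (nat_lit 0) (p (nat_lit 0x48512) (nat_lit 0) (p (nat_lit 0x50392) (nat_lit 0) (p (nat_lit 0x38312) (nat_lit 0) (p (nat_lit 0x40212) (nat_lit 0) (p (nat_lit 0x28192) (nat_lit 0) (p (nat_lit 0x30092) (nat_lit 0) (p (nat_lit 0x18012) (nat_lit 0) pn))))))))))))) :=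
  Cl.node (nat_lit 0x8000000000000080686078a) (nat_lit 1) (by decide +kernel) (ClAll.succ ClAll.zero n175)

def n177 : Cl (O (nat_lit 4)) (R (nat_lit 135377))
    (p (nat_lit 0x10605850682) (nat_lit 0) (p (nat_lit 0x10585048402) (nat_lit 0) (p (nat_lit 0x16000c) (nat_lit 0) (p (nat_lit 0x160004) (nat_lit 0) (p (nat_lit 0x60592) (nat_lit 0) (p (nat_lit 0x48512) (nat_lit 0) (p (nat_lit 0x50392) (nat_lit 0) (p (nat_lit 0x38312) (nat_lit 0) (p (nat_lit 0x40212) (nat_lit 0) (p (nat_lit 0x28192) (nat_lit 0) (p (nat_lit 0x30092) (nat_lit 0) (p (nat_lit 0x18012) (nat_lit 0) pn)))))))))))) :=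
  Cl.node (nat_lit 0x8000000000000078605850a) (nat_lit 1) (by decide +kernel) (ClAll.succ ClAll.zero n176)

def n178 : Cl (O (nat_lit 4)) (R (nat_lit 135377))
    (p (nat_lit 0x10585048402) (nat_lit 0) (p (nat_lit 0x16000c) (nat_lit 0) (p (nat_lit 0x160004) (nat_lit 0) (p (nat_lit 0x60592) (nat_lit 0) (p (nat_lit 0x48512) (nat_lit 0) (p (nat_lit 0x50392) (nat_lit 0) (p (nat_lit 0x38312) (nat_lit 0) (p (nat_lit 0x40212) (nat_lit 0) (p (nat_lit 0x28192) (nat_lit 0) (p (nat_lit 0x30092) (nat_lit 0) (p (nat_lit 0x18012) (nat_lit 0) pn))))))))))) :=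
  Cl.node (nat_lit 0x10605850682) (nat_lit 1) (by decide +kernel) (ClAll.succ ClAll.zero n177)

def n179 : Cl (O (nat_lit 4)) (R (nat_lit 135377))
    (p (nat_lit 0x16000c) (nat_lit 0) (p (nat_lit 0x160004) (nat_lit 0) (p (nat_lit 0x60592) (nat_lit 0) (p (nat_lit 0x48512) (nat_lit 0) (p (nat_lit 0x50392) (nat_lit 0) (p (nat_lit 0x38312) (nat_lit 0) (p (nat_lit 0x40212) (nat_lit 0) (p (nat_lit 0x28192) (nat_lit 0) (p (nat_lit 0x30092) (nat_lit 0) (p (nat_lit 0x18012) (nat_lit 0) pn)))))))))) :=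
  Cl.node (nat_lit 0x10585048402) (nat_lit 1) (by decide +kernel) (ClAll.succ ClAll.zero n178)

def n180 : Cl (O (nat_lit 4)) (R (nat_lit 135377))
    (p (nat_lit 0x160004) (nat_lit 0) (p (nat_lit 0x60592) (nat_lit 0) (p (nat_lit 0x48512) (nat_lit 0) (p (nat_lit 0x50392) (nat_lit 0) (p (nat_lit 0x38312) (nat_lit 0) (p (nat_lit 0x40212) (nat_lit 0) (p (nat_lit 0x28192) (nat_lit 0) (p (nat_lit 0x30092) (nat_lit 0) (p (nat_lit 0x18012) (nat_lit 0) pn))))))))) :=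
  Cl.node (nat_lit 0x16000c) (nat_lit 2) (by decide +kernel) (ClAll.succ (ClAll.succ ClAll.zero n179) s175)

def n181 : Cl (O (nat_lit 4)) (R (nat_lit 135377))
    (p (nat_lit 0x60592) (nat_lit 0) (p (nat_lit 0x48512) (nat_lit 0) (p (nat_lit 0x50392) (nat_lit 0) (p (nat_lit 0x38312) (nat_lit 0) (p (nat_lit 0x40212) (nat_lit 0) (p (nat_lit 0x28192) (nat_lit 0) (p (nat_lit 0x30092) (nat_lit 0) (p (nat_lit 0x18012) (nat_lit 0) pn)))))))) :=
  Cl.node (nat_lit 0x160004) (nat_lit 2) (by decide +kernel) (ClAll.succ (ClAll.succ ClAll.zero n180) s176)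

def n182 : Cl (O (nat_lit 4)) (R (nat_lit 135377))
    (p (nat_lit 0x48512) (nat_lit 0) (p (nat_lit 0x50392) (nat_lit 0) (p (nat_lit 0x38312) (nat_lit 0) (p (nat_lit 0x40212) (nat_lit 0) (p (nat_lit 0x28192) (nat_lit 0) (p (nat_lit 0x30092) (nat_lit 0) (p (nat_lit 0x18012) (nat_lit 0) pn))))))) :=
  Cl.node (nat_lit 0x60592) (nat_lit 1) (by decide +kernel) (ClAll.succ ClAll.zero n181)

def n183 : Cl (O (nat_lit 4)) (R (nat_lit 135377))
    (p (nat_lit 0x50392) (nat_lit 0) (p (nat_lit 0x38312) (nat_lit 0) (p (nat_lit 0x40212) (nat_lit 0) (p (nat_lit 0x28192) (nat_lit 0) (p (nat_lit 0x30092) (nat_lit 0) (p (nat_lit 0x18012) (nat_lit 0) pn)))))) :=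
  Cl.node (nat_lit 0x48512) (nat_lit 1) (by decide +kernel) (ClAll.succ ClAll.zero n182)

def n184 : Cl (O (nat_lit 4)) (R (nat_lit 135377))
    (p (nat_lit 0x38312) (nat_lit 0) (p (nat_lit 0x40212) (nat_lit 0) (p (nat_lit 0x28192) (nat_lit 0) (p (nat_lit 0x30092) (nat_lit 0) (p (nat_lit 0x18012) (nat_lit 0) pn))))) :=
  Cl.node (nat_lit 0x50392) (nat_lit 1) (by decide +kernel) (ClAll.succ ClAll.zero n183)

def n185 : Cl (O (nat_lit 4)) (R (nat_lit 135377))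
    (p (nat_lit 0x40212) (nat_lit 0) (p (nat_lit 0x28192) (nat_lit 0) (p (nat_lit 0x30092) (nat_lit 0) (p (nat_lit 0x18012) (nat_lit 0) pn)))) :=
  Cl.node (nat_lit 0x38312) (nat_lit 1) (by decide +kernel) (ClAll.succ ClAll.zero n184)

def n186 : Cl (O (nat_lit 4)) (R (nat_lit 135377))
    (p (nat_lit 0x28192) (nat_lit 0) (p (nat_lit 0x30092) (nat_lit 0) (p (nat_lit 0x18012) (nat_lit 0) pn))) :=
  Cl.node (nat_lit 0x40212) (nat_lit 1) (by decide +kernel) (ClAll.succ ClAll.zero n185)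

def n187 : Cl (O (nat_lit 4)) (R (nat_lit 135377))
    (p (nat_lit 0x30092) (nat_lit 0) (p (nat_lit 0x18012) (nat_lit 0) pn)) :=
  Cl.node (nat_lit 0x28192) (nat_lit 1) (by decide +kernel) (ClAll.succ ClAll.zero n186)

def n188 : Cl (O (nat_lit 4)) (R (nat_lit 135377))
    (p (nat_lit 0x18012) (nat_lit 0) pn) :=
  Cl.node (nat_lit 0x30092) (nat_lit 1) (by decide +kernel) (ClAll.succ ClAll.zero n187)

def n189 : Cl (O (nat_lit 4)) (R (nat_lit 135377))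
    pn :=
  Cl.node (nat_lit 0x18012) (nat_lit 1) (by decide +kernel) (ClAll.succ ClAll.zero n188)

theorem top : Cl (O (nat_lit 4)) (R (nat_lit 135377)) pn := n189

end Pool.Agent.Gen.F5.X123C1Dm4
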